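import Mathlib

/-!
# F2 (stage 2 of the density hypothesis): powers modulo an ideal, definitions
-/

namespace Pool.Agent.Lib.L8.F2

open NumberField

noncomputable section

/-- The group of the `m`-th powers of units of a commutative ring. -/
def pwr (m : ℕ) (R : Type) [CommRing R] : Subgroup Rˣ := (powMonoidHom m : Rˣ →* Rˣ).range

/-- The units `x` with `x ^ m = 1`. -/
def rt (m : ℕ) (R : Type) [CommRing R] : Subgroup Rˣ := (powMonoidHom m : Rˣ →* Rˣ).ker

theorem mem_pwr {m : ℕ} {R : Type} [CommRing R] {x : Rˣ} : x ∈ pwr m R ↔ ∃ y : Rˣ, y ^ m = x := Iff.rfl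

theorem mem_rt {m : ℕ} {R : Type} [CommRing R] {x : Rˣ} : x ∈ rt m R ↔ x ^ m = 1 := Iff.rfl

end

end Pool.Agent.Lib.L8.F2
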