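import Pool.Agent.Lib.L8.F2.N0

/-!
# F2, chunk N1 (S): the number of units of `𝓞 / P ^ k`
-/

namespace Pool.Agent.Lib.L8.F2

open NumberField

noncomputable section

variable {K : Type} [Field K] [NumberField K]

/-- PROOF. Put `R = 𝓞 K ⧸ P ^ k`, `q = N(P) ≥ 2`. `Nat.card R = absNorm (P ^ k) = q ^ k` (`Ideal.absNorm_apply`, `Submodule.cardQuot_apply`, `map_pow`); `R` is finite (`Ideal.finiteQuotientOfFreeOfNeBot` or
`Ideal.absNorm_ne_zero_iff`). An element `x` of `R`, the class of `a`, is a unit if and only if `a ∉ P` (if `a ∉ P` then `span {a} ⊔ P = ⊤` as `P` is maximal, so `span {a} ⊔ P ^ k = ⊤` (`Ideal.IsCoprime.pow_right`),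
so `x` has an inverse; if `a ∈ P` and `a c - 1 ∈ P ^ k ≤ P` then `1 ∈ P`). So the non-units are the elements of the kernel of the surjection `R → 𝓞 K ⧸ P` (`Ideal.Quotient.factor`), the image of `P` in `R`: it has
`q ^ k / q = q ^ (k - 1)` elements (first isomorphism theorem / `Submodule.cardQuot_pow_of_prime`). So the number of units is `q ^ k - q ^ (k - 1) ≥ q ^ k / 2`. -/
theorem card_units (P : Ideal (𝓞 K)) [P.IsPrime] (hP : P ≠ ⊥) (k : ℕ) (hk : 1 ≤ k) : Ideal.absNorm (P ^ k) ≤ 2 * Nat.card (𝓞 K ⧸ P ^ k)ˣ := by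
  classical
  have hmax : P.IsMaximal := Ideal.IsPrime.isMaximal inferInstance hP
  have hk0 : k ≠ 0 := by omega
  have hPk : P ^ k ≠ ⊥ := pow_ne_zero k hP
  have hfin : Finite (𝓞 K ⧸ P ^ k) := Ideal.finiteQuotientOfFreeOfNeBot _ hPk
  have hfu : Finite (𝓞 K ⧸ P ^ k)ˣ := inferInstance
  have hcard : Ideal.absNorm (P ^ k) = Nat.card (𝓞 K ⧸ P ^ k) := by
    rw [Ideal.absNorm_apply, Submodule.cardQuot_apply]
  have hun : ∀ x : 𝓞 K ⧸ P ^ k, ¬ IsUnit x → IsUnit (1 + x) := by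
    intro x hx
    obtain ⟨a, rfl⟩ := Ideal.Quotient.mk_surjective x
    have ha : a ∈ P := by
      by_contra hc
      exact hx ((Ideal.Quotient.isUnit_mk_pow_iff_notMem P hk0).mpr hc)
    have h1 : (1 + a) ∉ P := by
      intro hc
      have h2 : (1 : 𝓞 K) ∈ P := by
        have := P.sub_mem hc ha
        rwa [add_sub_cancel_right] at this
      exact hmax.ne_top ((Ideal.eq_top_iff_one P).mpr h2)
    have h3 := (Ideal.Quotient.isUnit_mk_pow_iff_notMem P hk0).mpr h1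
    rwa [map_add, map_one] at h3
  have hex : ∀ x : 𝓞 K ⧸ P ^ k, ∃ y : (𝓞 K ⧸ P ^ k)ˣ ⊕ (𝓞 K ⧸ P ^ k)ˣ,
      (∃ u : (𝓞 K ⧸ P ^ k)ˣ, y = Sum.inl u ∧ (u : 𝓞 K ⧸ P ^ k) = x) ∨
      (∃ u : (𝓞 K ⧸ P ^ k)ˣ, y = Sum.inr u ∧ (u : 𝓞 K ⧸ P ^ k) = 1 + x) := by
    intro x
    by_cases hx : IsUnit x
    · obtain ⟨u, hu⟩ := hx
      exact ⟨Sum.inl u, Or.inl ⟨u, rfl, hu⟩⟩
    · obtain ⟨u, hu⟩ := hun x hx
      exact ⟨Sum.inr u, Or.inr ⟨u, rfl, hu⟩⟩
  choose g hg using hex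
  have hinj : Function.Injective g := by
    intro x y hxy
    rcases hg x with ⟨u, h1, h2⟩ | ⟨u, h1, h2⟩ <;> rcases hg y with ⟨v, h3, h4⟩ | ⟨v, h3, h4⟩
    · rw [h1, h3] at hxy
      have := Sum.inl_injective hxy
      rw [← h2, ← h4, this]
    · rw [h1, h3] at hxy
      exact absurd hxy (by simp)
    · rw [h1, h3] at hxy
      exact absurd hxy (by simp)
    · rw [h1, h3] at hxy
      have := Sum.inr_injective hxy
      rw [this, h4] at h2
      exact (add_left_cancel h2).symm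
  have h5 := Nat.card_le_card_of_injective g hinj
  rw [Nat.card_sum] at h5
  rw [hcard]
  omega

end

end Pool.Agent.Lib.L8.F2
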