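import Pool.Agent.Lib.L8.F2.N0

/-!
# F2, chunk N2 (S): square roots of one modulo an odd prime power
-/

namespace Pool.Agent.Lib.L8.F2

open NumberField

noncomputable section

variable {K : Type} [Field K] [NumberField K]

/-- PROOF. Let `x ∈ (𝓞 K ⧸ P ^ k)ˣ` with `x ^ 2 = 1`, the class of `a`: `(a - 1) (a + 1) ∈ P ^ k`. Not both of `a - 1`, `a + 1` are in `P` (else their difference `2 ∈ P`). If `a + 1 ∉ P` then `a - 1 ∈ P ^ k`
(`Ideal.IsPrime.mem_pow_mul` or `(Ideal.IsPrime.mul_mem_pow ..)`: `b c ∈ P ^ k`, `c ∉ P` implies `b ∈ P ^ k` in a Dedekind domain; or: `a + 1` is a unit modulo `P ^ k` because `span {a + 1} ⊔ P ^ k = ⊤`), so `x = 1`;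
in the same way `x = -1` if `a - 1 ∉ P`. So `rt 2` has at most the two elements `1`, `-1` (`Nat.card` of a set contained in `{1, -1}`). -/
theorem rt_odd (P : Ideal (𝓞 K)) [P.IsPrime] (hP : P ≠ ⊥) (h2 : (2 : 𝓞 K) ∉ P) (k : ℕ) : Nat.card (rt 2 (𝓞 K ⧸ P ^ k)) ≤ 2 := by
  classical
  have hsub : ((rt 2 (𝓞 K ⧸ P ^ k) : Subgroup (𝓞 K ⧸ P ^ k)ˣ) : Set (𝓞 K ⧸ P ^ k)ˣ) ⊆ {1, -1} := by
    intro x hx
    have hx2 : x ^ 2 = 1 := mem_rt.mp hx
    obtain ⟨a, ha⟩ := Ideal.Quotient.mk_surjective (x : 𝓞 K ⧸ P ^ k)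
    have hmk : Ideal.Quotient.mk (P ^ k) ((a - 1) * (a + 1)) = 0 := by
      have h1 : (x : 𝓞 K ⧸ P ^ k) ^ 2 = 1 := by
        rw [← Units.val_pow_eq_pow_val, hx2, Units.val_one]
      have h2 : (a - 1) * (a + 1) = a ^ 2 - 1 := by ring
      rw [h2, map_sub, map_pow, map_one, ha, h1, sub_self]
    have hmem : (a - 1) * (a + 1) ∈ P ^ k := Ideal.Quotient.eq_zero_iff_mem.mp hmk
    have hmem' : (a + 1) * (a - 1) ∈ P ^ k := by rwa [mul_comm] at hmem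
    have hone : a - 1 ∈ P ^ k → x = 1 := by
      intro h
      have h1 := Ideal.Quotient.eq_zero_iff_mem.mpr h
      rw [map_sub, map_one, ha, sub_eq_zero] at h1
      exact Units.ext (by rw [h1, Units.val_one])
    have hneg : a + 1 ∈ P ^ k → x = -1 := by
      intro h
      have h1 := Ideal.Quotient.eq_zero_iff_mem.mpr h
      rw [map_add, map_one, ha] at h1
      exact Units.ext (by rw [Units.val_neg, Units.val_one]; exact eq_neg_of_add_eq_zero_left h1)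
    rcases Ideal.IsPrime.mul_mem_pow P hmem with h3 | h3
    · rcases Ideal.IsPrime.mul_mem_pow P hmem' with h4 | h4
      · exfalso
        apply h2
        have h5 := P.sub_mem h4 h3
        have h6 : (a + 1) - (a - 1) = 2 := by ring
        rwa [h6] at h5
      · exact Or.inl (hone h4)
    · exact Or.inr (Set.mem_singleton_iff.mpr (hneg h3))
  have h7 : Nat.card (rt 2 (𝓞 K ⧸ P ^ k)) = ((rt 2 (𝓞 K ⧸ P ^ k) : Subgroup (𝓞 K ⧸ P ^ k)ˣ) : Set (𝓞 K ⧸ P ^ k)ˣ).ncard :=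
    Nat.card_coe_set_eq _
  rw [h7]
  have hfs : ({1, -1} : Set (𝓞 K ⧸ P ^ k)ˣ).Finite := Set.toFinite _
  calc _ ≤ ({1, -1} : Set (𝓞 K ⧸ P ^ k)ˣ).ncard := Set.ncard_le_ncard hsub hfs
    _ ≤ ({-1} : Set (𝓞 K ⧸ P ^ k)ˣ).ncard + 1 := Set.ncard_insert_le _ _
    _ = 2 := by rw [Set.ncard_singleton]

end

end Pool.Agent.Lib.L8.F2
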