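import Pool.Agent.Lib.L8.F2.N0

/-!
# F2, chunk N3 (M): square roots of one modulo a power of a prime above 2
-/

namespace Pool.Agent.Lib.L8.F2

open NumberField

noncomputable section

variable {K : Type} [Field K] [NumberField K]

open IsDedekindDomain in
theorem n3_mem (P : Ideal (𝓞 K)) [hPp : P.IsPrime] (hP : P ≠ ⊥) {a b : 𝓞 K} {e k : ℕ} (hb : b ∈ P ^ e) (hb' : b ∉ P ^ (e + 1))
    (hab : a * b ∈ P ^ k) (hek : e ≤ k) : a ∈ P ^ (k - e) := by
  set v : HeightOneSpectrum (𝓞 K) := ⟨P, hPp, hP⟩ with hv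
  have key : ∀ (r : 𝓞 K) (n : ℕ), v.intValuation r ≤ WithZero.exp (-(n : ℤ)) ↔ r ∈ P ^ n := fun r n => v.intValuation_le_pow_iff_mem r n
  rw [← key] at hab hb hb' ⊢
  rw [map_mul] at hab
  by_cases ha : v.intValuation a = 0
  · rw [ha]; exact zero_le
  have hb0 : v.intValuation b ≠ 0 := by
    intro h; apply hb'; rw [h]; exact zero_le
  obtain ⟨m, hm⟩ : ∃ m : ℤ, v.intValuation b = WithZero.exp m := ⟨_, (WithZero.exp_log hb0).symm⟩
  obtain ⟨l, hl⟩ : ∃ l : ℤ, v.intValuation a = WithZero.exp l := ⟨_, (WithZero.exp_log ha).symm⟩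
  rw [hm] at hb hb' hab
  rw [hl] at hab ⊢
  rw [← WithZero.exp_add] at hab
  rw [WithZero.exp_le_exp] at *
  push_cast at *
  omega

theorem n3_card_quot (P : Ideal (𝓞 K)) (hP : P ≠ ⊥) (n : ℕ) : Nat.card (𝓞 K ⧸ P ^ n) = Ideal.absNorm P ^ n := by
  rw [← map_pow, Ideal.absNorm_apply, Submodule.cardQuot_apply]

theorem n3_card_map (P : Ideal (𝓞 K)) [hPp : P.IsPrime] (hP : P ≠ ⊥) {e k : ℕ} (hek : e ≤ k) :
    Nat.card (Ideal.map (Ideal.Quotient.mk (P ^ k)) (P ^ (k - e))) = Ideal.absNorm P ^ e := by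
  have hN : Ideal.absNorm P ≠ 0 := by rwa [Ne, Ideal.absNorm_eq_zero_iff]
  set J := Ideal.map (Ideal.Quotient.mk (P ^ k)) (P ^ (k - e)) with hJ
  have hle : P ^ k ≤ P ^ (k - e) := Ideal.pow_le_pow_right (Nat.sub_le k e)
  have h1 : Nat.card (𝓞 K ⧸ P ^ k) = Nat.card ((𝓞 K ⧸ P ^ k) ⧸ J) * Nat.card J :=
    AddSubgroup.card_eq_card_quotient_mul_card_addSubgroup (Submodule.toAddSubgroup J)
  have h2 : Nat.card ((𝓞 K ⧸ P ^ k) ⧸ J) = Nat.card (𝓞 K ⧸ P ^ (k - e)) :=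
    Nat.card_congr (DoubleQuot.quotQuotEquivQuotOfLE hle).toEquiv
  rw [h2, n3_card_quot P hP, n3_card_quot P hP] at h1
  have h3 : Ideal.absNorm P ^ k = Ideal.absNorm P ^ (k - e) * Ideal.absNorm P ^ e := by
    rw [← pow_add]; congr 1; omega
  rw [h3] at h1
  exact (Nat.eq_of_mul_eq_mul_left (Nat.pos_of_ne_zero (pow_ne_zero _ hN)) h1).symm

theorem n3_fin (P : Ideal (𝓞 K)) (hP : P ≠ ⊥) (n : ℕ) : Finite (𝓞 K ⧸ P ^ n) :=
  Ideal.finiteQuotientOfFreeOfNeBot _ (pow_ne_zero n hP)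

theorem n3_units (R : Type) [CommRing R] [Finite R] : Nat.card Rˣ ≤ Nat.card R :=
  Nat.card_le_card_of_injective (fun x : Rˣ => (x : R)) Units.val_injective

/-- PROOF. `d = finrank ℚ K`. `k = 0`: trivial (`R` trivial). Let `e ≥ 1` be the exponent of `P` in `(2)`: `2 ∈ P ^ e`, `2 ∉ P ^ (e + 1)` (`span {2} ≠ ⊥`; e.g. the largest `e` with `2 ∈ P ^ e`, it exists because
`⨅ P ^ n = ⊥`, or the count of `P` in the factors of `span {2}`). Norms: `N(P) ^ e ∣ N(span {2}) = 2 ^ d` (`Ideal.absNorm_dvd_absNorm_of_le`, `Ideal.absNorm_span_natCast` / `Ideal.absNorm_span_singleton`,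
`Algebra.norm_algebraMap`), so `N(P) ^ e ≤ 2 ^ d` and `N(P) ≤ 2 ^ d`.
Fix `x₀ ∈ rt 2`; two elements `x, y ∈ rt 2` of the same class modulo `P ^ (e + 1)` (if `k ≤ e + 1` then `Nat.card R = N(P) ^ k ≤ N(P) ^ (e + 1) ≤ 4 ^ d`, done): put `z = x y⁻¹`, `z ^ 2 = 1`, `z = 1 + t`, `t` the class of
`a ∈ P ^ (e + 1)` (`k > e + 1`), `a (a + 2) ∈ P ^ k`. `2 + a ∈ P ^ e`, `2 + a ∉ P ^ (e + 1)`, so `a ∈ P ^ (k - e)` (Dedekind: compare the multiplicities of `P`; e.g. with the valuation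
`HeightOneSpectrum.intValuation`, which is multiplicative and `≤ exp (-n)` if and only if the element is in `P ^ n`). So `z - 1` lies in the image of `P ^ (k - e)` in `R`, which has `N(P) ^ e ≤ 2 ^ d` elements.
So the kernel of `rt 2 → (𝓞 K ⧸ P ^ (e + 1))ˣ` has at most `2 ^ d` elements, its image has at most `N(P) ^ (e + 1) ≤ 4 ^ d` elements, and `Nat.card (rt 2 R) ≤ 8 ^ d`. -/
theorem rt_even (P : Ideal (𝓞 K)) [P.IsPrime] (hP : P ≠ ⊥) (h2 : (2 : 𝓞 K) ∈ P) (k : ℕ) : Nat.card (rt 2 (𝓞 K ⧸ P ^ k)) ≤ 8 ^ Module.finrank ℚ K := by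
  classical
  set d := Module.finrank ℚ K with hd
  -- the exponent of 2
  have hex : ∃ e : ℕ, 1 ≤ e ∧ (2 : 𝓞 K) ∈ P ^ e ∧ (2 : 𝓞 K) ∉ P ^ (e + 1) := by
    have hne : ∃ n : ℕ, (2 : 𝓞 K) ∉ P ^ n := by
      by_contra hcon
      push Not at hcon
      have hb : (2 : 𝓞 K) ∈ (⨅ i : ℕ, P ^ i : Ideal (𝓞 K)) := by
        rw [Ideal.mem_iInf]; exact hcon
      rw [Ideal.iInf_pow_eq_bot_of_isDomain P (Ideal.IsPrime.ne_top ‹_›)] at hb
      have : (2 : 𝓞 K) = 0 := by simpa using hb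
      exact two_ne_zero this
    have hn := Nat.find_spec hne
    set n := Nat.find hne with hndef
    have hn2 : 2 ≤ n := by
      by_contra hcon
      have : n = 0 ∨ n = 1 := by omega
      rcases this with h | h
      · rw [h] at hn; simp at hn
      · rw [h] at hn; simp at hn; exact hn h2
    refine ⟨n - 1, by omega, ?_, ?_⟩
    · have := Nat.find_min hne (m := n - 1) (by omega)
      simpa using this
    · rwa [show n - 1 + 1 = n by omega]
  obtain ⟨e, he1, he2, he3⟩ := hex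
  set N := Ideal.absNorm P with hN
  have hNe : N ^ e ≤ 2 ^ d := by
    have h1 : Ideal.absNorm (P ^ e) ∣ Ideal.absNorm (Ideal.span {(2 : 𝓞 K)}) :=
      Ideal.absNorm_dvd_absNorm_of_le (by rw [Ideal.span_singleton_le_iff_mem]; exact he2)
    have h2' : Ideal.absNorm (Ideal.span {(2 : 𝓞 K)}) = 2 ^ d := by
      have := Ideal.absNorm_span_natCast (S := 𝓞 K) 2
      rw [RingOfIntegers.rank] at this
      exact_mod_cast this
    rw [h2', map_pow] at h1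
    exact Nat.le_of_dvd (by positivity) h1
  have hN0 : 0 < N := Nat.pos_of_ne_zero (by rw [hN, Ne, Ideal.absNorm_eq_zero_iff]; exact hP)
  have hN1 : N ≤ 2 ^ d := le_trans (by
    calc N = N ^ 1 := (pow_one N).symm
      _ ≤ N ^ e := Nat.pow_le_pow_right hN0 he1) hNe
  have hNe1 : N ^ (e + 1) ≤ 4 ^ d := by
    rw [pow_succ]
    calc N ^ e * N ≤ 2 ^ d * 2 ^ d := Nat.mul_le_mul hNe hN1
      _ = 4 ^ d := by rw [← mul_pow]; norm_num
  haveI := n3_fin P hP k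
  by_cases hk : k ≤ e + 1
  · calc Nat.card (rt 2 (𝓞 K ⧸ P ^ k)) ≤ Nat.card (𝓞 K ⧸ P ^ k)ˣ := Nat.card_le_card_of_injective _ Subtype.val_injective
      _ ≤ Nat.card (𝓞 K ⧸ P ^ k) := n3_units _
      _ = N ^ k := n3_card_quot P hP k
      _ ≤ N ^ (e + 1) := Nat.pow_le_pow_right hN0 hk
      _ ≤ 4 ^ d := hNe1
      _ ≤ 8 ^ d := Nat.pow_le_pow_left (by norm_num) d
  push Not at hk
  have hle : P ^ k ≤ P ^ (e + 1) := Ideal.pow_le_pow_right hk.le
  haveI := n3_fin P hP (e + 1)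
  set f : rt 2 (𝓞 K ⧸ P ^ k) →* (𝓞 K ⧸ P ^ (e + 1))ˣ :=
    (Units.map (Ideal.Quotient.factor hle : (𝓞 K ⧸ P ^ k) →* (𝓞 K ⧸ P ^ (e + 1)))).comp (Subgroup.subtype _) with hf
  have hrange : Nat.card f.range ≤ 4 ^ d :=
    calc Nat.card f.range ≤ Nat.card (𝓞 K ⧸ P ^ (e + 1))ˣ := Nat.card_le_card_of_injective _ Subtype.val_injective
      _ ≤ Nat.card (𝓞 K ⧸ P ^ (e + 1)) := n3_units _
      _ = N ^ (e + 1) := n3_card_quot P hP _
      _ ≤ 4 ^ d := hNe1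
  have hker : Nat.card f.ker ≤ 2 ^ d := by
    have hek : e ≤ k := by omega
    have hmap := n3_card_map P hP hek
    set J := Ideal.map (Ideal.Quotient.mk (P ^ k)) (P ^ (k - e)) with hJ
    refine le_trans ?_ hNe
    rw [← hmap]
    have hmem : ∀ z : f.ker, (((z : rt 2 (𝓞 K ⧸ P ^ k)) : (𝓞 K ⧸ P ^ k)ˣ) : 𝓞 K ⧸ P ^ k) - 1 ∈ J := by
      intro z
      obtain ⟨⟨z, hz2⟩, hz⟩ := z
      rw [mem_rt] at hz2
      have hzf : Ideal.Quotient.factor hle (z : 𝓞 K ⧸ P ^ k) = 1 := by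
        have := congrArg (fun w : (𝓞 K ⧸ P ^ (e + 1))ˣ => (w : 𝓞 K ⧸ P ^ (e + 1))) (MonoidHom.mem_ker.1 hz)
        simpa [hf] using this
      have hz2' : (z : 𝓞 K ⧸ P ^ k) ^ 2 = 1 := by
        have := congrArg (fun w : (𝓞 K ⧸ P ^ k)ˣ => (w : 𝓞 K ⧸ P ^ k)) hz2
        simpa using this
      obtain ⟨x, hx⟩ := Ideal.Quotient.mk_surjective (z : 𝓞 K ⧸ P ^ k)
      show (z : 𝓞 K ⧸ P ^ k) - 1 ∈ J
      rw [← hx] at hzf hz2' ⊢
      have ha1 : x - 1 ∈ P ^ (e + 1) := by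
        rw [← Ideal.Quotient.eq_zero_iff_mem, map_sub, map_one, sub_eq_zero]
        simpa using hzf
      have ha2 : (x - 1) * (2 + (x - 1)) ∈ P ^ k := by
        rw [← Ideal.Quotient.eq_zero_iff_mem]
        have : (x - 1) * (2 + (x - 1)) = x ^ 2 - 1 := by ring
        rw [this, map_sub, map_pow, map_one, hz2', sub_self]
      have hb1 : 2 + (x - 1) ∈ P ^ e := Ideal.add_mem _ he2 (Ideal.pow_le_pow_right (Nat.le_succ e) ha1)
      have hb2 : 2 + (x - 1) ∉ P ^ (e + 1) := by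
        intro h
        apply he3
        have := Ideal.sub_mem _ h ha1
        simpa using this
      have hmem := n3_mem P hP hb1 hb2 ha2 hek
      have := Ideal.mem_map_of_mem (Ideal.Quotient.mk (P ^ k)) hmem
      simpa using this
    haveI : Finite J := Subtype.finite
    refine Nat.card_le_card_of_injective (fun z : f.ker => (⟨_, hmem z⟩ : J)) ?_
    intro z w hzw
    have h := congrArg Subtype.val hzw
    simp only [sub_left_inj] at h
    exact Subtype.ext (Subtype.ext (Units.ext h))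
  have hcard : Nat.card (rt 2 (𝓞 K ⧸ P ^ k)) = Nat.card f.ker * Nat.card f.range := by
    rw [← Subgroup.index_ker, Subgroup.card_mul_index]
  rw [hcard]
  calc Nat.card f.ker * Nat.card f.range ≤ 2 ^ d * 4 ^ d := Nat.mul_le_mul hker hrange
    _ = 8 ^ d := by rw [← mul_pow]; norm_num

end

end Pool.Agent.Lib.L8.F2
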