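import Pool.Agent.Lib.L8.F2.N1
import Pool.Agent.Lib.L8.F2.N2
import Pool.Agent.Lib.L8.F2.N3

/-!
# F2, chunk N4 (S/M): the number of `m`-th powers modulo a prime power
-/

namespace Pool.Agent.Lib.L8.F2

open NumberField

noncomputable section

/-- PROOF. `m = 1`: `rt 1 = ⊥` has one element. `m = 2`: clear. `m = 4`: `x ↦ x ^ 2` maps `rt 4 R` to `rt 2 R` with kernel `rt 2 R` (homomorphism of finite groups), so `card (rt 4) ≤ card (rt 2) ^ 2`
(`Subgroup.card_eq_card_quotient_mul_card_subgroup`, or: card = card of the kernel times card of the range). -/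
theorem rt_le {R : Type} [CommRing R] [Finite Rˣ] {m : ℕ} (hm : m = 1 ∨ m = 2 ∨ m = 4) {B : ℕ} (hB : Nat.card (rt 2 R) ≤ B) : Nat.card (rt m R) ≤ B ^ 2 := by
  have h1 : 1 ≤ Nat.card (rt 2 R) := Nat.card_pos
  have hB1 : 1 ≤ B := h1.trans hB
  have hBB : B ≤ B ^ 2 := by nlinarith
  rcases hm with rfl | rfl | rfl
  · have : rt 1 R = ⊥ := by
      ext x
      rw [mem_rt, pow_one, Subgroup.mem_bot]
    rw [this, Subgroup.card_bot]
    exact hB1.trans hBB
  · exact hB.trans hBB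
  · let f : rt 4 R →* Rˣ := (powMonoidHom 2 : Rˣ →* Rˣ).comp (rt 4 R).subtype
    have h2 : Nat.card f.ker * f.ker.index = Nat.card (rt 4 R) := f.ker.card_mul_index
    rw [Subgroup.index_ker] at h2
    have h3 : Nat.card f.range ≤ Nat.card (rt 2 R) := by
      apply Nat.card_le_card_of_injective (Subgroup.inclusion (H := f.range) (K := rt 2 R) ?_)
        (Subgroup.inclusion_injective _)
      rintro x ⟨y, rfl⟩
      rw [mem_rt]
      have hy : (y : Rˣ) ^ 4 = 1 := mem_rt.mp y.2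
      show ((y : Rˣ) ^ 2) ^ 2 = 1
      rw [← pow_mul]
      exact hy
    have h4 : Nat.card f.ker ≤ Nat.card (rt 2 R) := by
      apply Nat.card_le_card_of_injective (fun x : f.ker => (⟨((x : rt 4 R) : Rˣ), by
        have hx : f (x : rt 4 R) = 1 := x.2
        exact mem_rt.mpr hx⟩ : rt 2 R))
      intro x y hxy
      apply Subtype.ext
      apply Subtype.ext
      exact congrArg (fun z : rt 2 R => (z : Rˣ)) hxy
    calc Nat.card (rt 4 R) = Nat.card f.ker * Nat.card f.range := h2.symm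
      _ ≤ B * B := Nat.mul_le_mul (h4.trans hB) (h3.trans hB)
      _ = B ^ 2 := by ring

variable {K : Type} [Field K] [NumberField K]

/-- PROOF. `card (units) = card (rt m) * card (pwr m)` (first isomorphism theorem for `powMonoidHom m`: `Subgroup.card_range_mul_card_ker` or similar), `rt_le` with `B = 8 ^ d + 2` (`rt_odd`, `rt_even`), `card_units`. -/
theorem pwr_pp (P : Ideal (𝓞 K)) [P.IsPrime] (hP : P ≠ ⊥) (k : ℕ) (hk : 1 ≤ k) {m : ℕ} (hm : m = 1 ∨ m = 2 ∨ m = 4) :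
    Ideal.absNorm (P ^ k) ≤ 2 * (8 ^ Module.finrank ℚ K + 2) ^ 2 * Nat.card (pwr m (𝓞 K ⧸ P ^ k)) := by
  have hPk : P ^ k ≠ ⊥ := pow_ne_zero k hP
  haveI : Finite (𝓞 K ⧸ P ^ k) := Ideal.finiteQuotientOfFreeOfNeBot (P ^ k) hPk
  haveI : Finite (𝓞 K ⧸ P ^ k)ˣ := inferInstance
  have h1 := card_units P hP k hk
  have hB : Nat.card (rt 2 (𝓞 K ⧸ P ^ k)) ≤ 8 ^ Module.finrank ℚ K + 2 := by
    by_cases h2 : (2 : 𝓞 K) ∈ P
    · exact (rt_even P hP h2 k).trans (Nat.le_add_right _ _)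
    · exact (rt_odd P hP h2 k).trans (Nat.le_add_left _ _)
  have h2 := rt_le hm hB
  have h3 : Nat.card (rt m (𝓞 K ⧸ P ^ k)) * Nat.card (pwr m (𝓞 K ⧸ P ^ k)) = Nat.card (𝓞 K ⧸ P ^ k)ˣ := by
    have := (powMonoidHom m : (𝓞 K ⧸ P ^ k)ˣ →* (𝓞 K ⧸ P ^ k)ˣ).ker.card_mul_index
    rw [Subgroup.index_ker] at this
    exact this
  rw [← h3] at h1
  refine h1.trans ?_
  rw [mul_assoc]
  exact Nat.mul_le_mul_left 2 (Nat.mul_le_mul_right _ h2)

end

end Pool.Agent.Lib.L8.F2
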