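import Pool.Agent.Lib.L8.F2.N4

/-!
# F2, chunk N5 (M): the number of `m`-th powers modulo an ideal
-/

namespace Pool.Agent.Lib.L8.F2

open NumberField

noncomputable section

variable {K : Type} [Field K] [NumberField K]

theorem n5_card {ι : Type} [Fintype ι] {G : Type} [CommGroup G] {H : ι → Type}
    [∀ i, CommGroup (H i)] (E : G ≃* (∀ i, H i)) (m : ℕ) :
    Nat.card (powMonoidHom m : G →* G).range =
      ∏ i, Nat.card (powMonoidHom m : H i →* H i).range := by
  rw [← Nat.card_pi]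
  refine Nat.card_congr ⟨fun x i => ⟨E x.1 i, ?_⟩, fun f => ⟨E.symm (fun i => (f i).1), ?_⟩,
    fun x => ?_, fun f => ?_⟩
  · obtain ⟨y, hy⟩ := x.2
    refine ⟨E y i, ?_⟩
    have h1 : y ^ m = x.1 := hy
    have h2 : E (y ^ m) = (E y) ^ m := map_pow E y m
    change (E y i) ^ m = E x.1 i
    rw [← h1, h2, Pi.pow_apply]
  · have h1 : ∀ i, ∃ y : H i, y ^ m = (f i).1 := fun i => (f i).2
    choose y hy using h1
    refine ⟨E.symm y, ?_⟩
    change (E.symm y) ^ m = E.symm (fun i => (f i).1)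
    rw [← map_pow]
    congr 1
    funext i
    exact hy i
  · apply Subtype.ext
    exact E.symm_apply_apply x.1
  · funext i
    apply Subtype.ext
    change E (E.symm (fun i => (f i).1)) i = (f i).1
    rw [E.apply_symm_apply]

open scoped Classical in
/-- PROOF. `IsDedekindDomain.quotientEquivPiFactors hn : 𝓞 K ⧸ 𝔫 ≃+* Π P : (factors 𝔫).toFinset, 𝓞 K ⧸ P ^ count P`. On units: `Units.mapEquiv` and `MulEquiv.piUnits`; the group `pwr m` of a product is the product of the
groups `pwr m` of the factors (choose the roots componentwise), so `Nat.card (pwr m (𝓞 K ⧸ 𝔫)) = ∏_P Nat.card (pwr m (𝓞 K ⧸ P ^ count P))` (`Nat.card_pi`); `absNorm 𝔫 = ∏_P absNorm (P ^ count P)`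
(`map_prod`, `Finset.prod_multiset_map_count` as in the definition of `quotientEquivPiFactors`). Each factor is estimated by `pwr_pp` (the elements of `factors 𝔫` are prime, so prime ideals `≠ ⊥`; `count ≥ 1`),
and `Finset.prod_le_prod'`, `Finset.prod_const`, `Finset.prod_mul_distrib`. -/
theorem pwr_prod {𝔫 : Ideal (𝓞 K)} (hn : 𝔫 ≠ ⊥) {m : ℕ} (hm : m = 1 ∨ m = 2 ∨ m = 4) :
    Ideal.absNorm 𝔫 ≤ (2 * (8 ^ Module.finrank ℚ K + 2) ^ 2) ^ (UniqueFactorizationMonoid.factors 𝔫).toFinset.card * Nat.card (pwr m (𝓞 K ⧸ 𝔫)) := by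
  set C : ℕ := 2 * (8 ^ Module.finrank ℚ K + 2) ^ 2 with hC
  have hcard : Nat.card (pwr m (𝓞 K ⧸ 𝔫)) =
      ∏ P : (UniqueFactorizationMonoid.factors 𝔫).toFinset,
        Nat.card (pwr m (𝓞 K ⧸ (P : Ideal (𝓞 K)) ^
          (Multiset.count (P : Ideal (𝓞 K)) (UniqueFactorizationMonoid.factors 𝔫)))) :=
    n5_card ((Units.mapEquiv (IsDedekindDomain.quotientEquivPiFactors hn).toMulEquiv).trans
      MulEquiv.piUnits) m
  have hprod : 𝔫 = ∏ P ∈ (UniqueFactorizationMonoid.factors 𝔫).toFinset,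
      P ^ (Multiset.count P (UniqueFactorizationMonoid.factors 𝔫)) := by
    have h1 : Associated (UniqueFactorizationMonoid.factors 𝔫).prod 𝔫 :=
      UniqueFactorizationMonoid.factors_prod hn
    rw [associated_iff_eq] at h1
    have h2 := Finset.prod_multiset_map_count (UniqueFactorizationMonoid.factors 𝔫) id
    rw [Multiset.map_id, h1] at h2
    exact h2
  have habs : Ideal.absNorm 𝔫 = ∏ P : (UniqueFactorizationMonoid.factors 𝔫).toFinset,
      Ideal.absNorm ((P : Ideal (𝓞 K)) ^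
        (Multiset.count (P : Ideal (𝓞 K)) (UniqueFactorizationMonoid.factors 𝔫))) := by
    conv_lhs => rw [hprod]
    rw [map_prod]
    exact (Finset.prod_coe_sort (UniqueFactorizationMonoid.factors 𝔫).toFinset
      (fun P => Ideal.absNorm (P ^ (Multiset.count P (UniqueFactorizationMonoid.factors 𝔫))))).symm
  rw [hcard, habs]
  have hbd : ∀ P : (UniqueFactorizationMonoid.factors 𝔫).toFinset,
      Ideal.absNorm ((P : Ideal (𝓞 K)) ^
        (Multiset.count (P : Ideal (𝓞 K)) (UniqueFactorizationMonoid.factors 𝔫))) ≤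
      C * Nat.card (pwr m (𝓞 K ⧸ (P : Ideal (𝓞 K)) ^
          (Multiset.count (P : Ideal (𝓞 K)) (UniqueFactorizationMonoid.factors 𝔫)))) := by
    intro P
    have hmem : (P : Ideal (𝓞 K)) ∈ UniqueFactorizationMonoid.factors 𝔫 :=
      Multiset.mem_toFinset.mp P.2
    have hpr : Prime (P : Ideal (𝓞 K)) := UniqueFactorizationMonoid.prime_of_factor _ hmem
    haveI : (P : Ideal (𝓞 K)).IsPrime := Ideal.isPrime_of_prime hpr
    have hne : (P : Ideal (𝓞 K)) ≠ ⊥ := hpr.ne_zero
    exact pwr_pp (P : Ideal (𝓞 K)) hne _ (Multiset.one_le_count_iff_mem.mpr hmem) hm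
  refine (Finset.prod_le_prod' (fun P _ => hbd P)).trans ?_
  rw [Finset.prod_mul_distrib, Finset.prod_const, Finset.card_univ, Fintype.card_coe]

end

end Pool.Agent.Lib.L8.F2
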