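import Mathlib

/-!
# F2, chunk N6 (M): the number of prime factors of an ideal
-/

namespace Pool.Agent.Lib.L8.F2

open NumberField

noncomputable section

variable (K : Type) [Field K] [NumberField K]

open scoped Classical in
/-- PROOF. We may assume `D ≥ 1` (replace `D` by `max D 1`). Let `Z` be the finite set of the prime ideals `P` with `N(P) ^ ε < D` (`Ideal.finite_setOfPred_absNorm_le`: `N(P) ≤ D ^ (1 / ε)`), `C = D ^ card Z`. For `𝔫 ≠ ⊥`, `S` the set of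
its prime factors: `D ^ card S ≤ D ^ card Z * ∏_(P ∈ S, P ∉ Z) D ≤ C * ∏_(P ∈ S) N(P) ^ ε` (all norms are `≥ 1`) and `∏_(P ∈ S) N(P) ≤ N(𝔫)` because `∏_(P ∈ S) P` divides `𝔫`
(`Multiset.toFinset_prod_dvd_prod`, `UniqueFactorizationMonoid.factors_prod`, `Ideal.absNorm_dvd_absNorm_of_le`). -/
theorem omega_bound (D ε : ℝ) (hε : 0 < ε) : ∃ C : ℝ, 0 < C ∧ ∀ 𝔫 : Ideal (𝓞 K), 𝔫 ≠ ⊥ → D ^ (UniqueFactorizationMonoid.factors 𝔫).toFinset.card ≤ C * (Ideal.absNorm 𝔫 : ℝ) ^ ε := by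
  set D' : ℝ := max |D| 1 with hD'
  have hD1 : 1 ≤ D' := le_max_right _ _
  have hD0 : 0 < D' := lt_of_lt_of_le one_pos hD1
  have hDD : |D| ≤ D' := le_max_left _ _
  have hfin : {P : Ideal (𝓞 K) | (Ideal.absNorm P : ℝ) ^ ε < D'}.Finite := by
    refine (Ideal.finite_setOfPred_absNorm_le (S := 𝓞 K) ⌊D' ^ (1 / ε)⌋₊).subset fun P hP => ?_
    have hP' : (Ideal.absNorm P : ℝ) ^ ε < D' := hP
    show Ideal.absNorm P ≤ ⌊D' ^ (1 / ε)⌋₊
    refine Nat.le_floor ?_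
    have h1 := Real.rpow_le_rpow (Real.rpow_nonneg (Nat.cast_nonneg _) _) hP'.le (one_div_pos.2 hε).le
    rw [← Real.rpow_mul (Nat.cast_nonneg _), mul_one_div_cancel hε.ne', Real.rpow_one] at h1
    exact h1
  set Z : Finset (Ideal (𝓞 K)) := hfin.toFinset with hZ
  refine ⟨D' ^ Z.card, pow_pos hD0 _, fun 𝔫 hn => ?_⟩
  set S : Finset (Ideal (𝓞 K)) := (UniqueFactorizationMonoid.factors 𝔫).toFinset with hS
  have hN0 : Ideal.absNorm 𝔫 ≠ 0 := fun h => hn (Ideal.absNorm_eq_zero_iff.1 h)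
  have hdvd : ∏ P ∈ S, Ideal.absNorm P ∣ Ideal.absNorm 𝔫 := by
    have h1 : S.prod id ∣ (UniqueFactorizationMonoid.factors 𝔫).prod := Multiset.toFinset_prod_dvd_prod _
    have h2 : S.prod id ∣ 𝔫 := h1.trans (UniqueFactorizationMonoid.factors_prod hn).dvd
    have h3 := map_dvd Ideal.absNorm h2
    rw [map_prod] at h3
    exact h3
  have hle : ∏ P ∈ S, Ideal.absNorm P ≤ Ideal.absNorm 𝔫 := Nat.le_of_dvd (Nat.pos_of_ne_zero hN0) hdvd
  have hpos : ∀ P ∈ S, 1 ≤ Ideal.absNorm P := by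
    intro P hP
    refine Nat.one_le_iff_ne_zero.2 fun h => hN0 ?_
    have h4 : ∏ P ∈ S, Ideal.absNorm P = 0 := Finset.prod_eq_zero hP h
    rw [h4] at hdvd
    exact Nat.eq_zero_of_zero_dvd hdvd
  have h5 : D ^ S.card ≤ D' ^ S.card := by
    calc D ^ S.card ≤ |D ^ S.card| := le_abs_self _
      _ = |D| ^ S.card := abs_pow _ _
      _ ≤ D' ^ S.card := pow_le_pow_left₀ (abs_nonneg _) hDD _
  refine h5.trans ?_
  have h6 : D' ^ S.card ≤ ∏ P ∈ S, ((if P ∈ Z then D' else 1) * (Ideal.absNorm P : ℝ) ^ ε) := by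
    rw [← Finset.prod_const]
    refine Finset.prod_le_prod (fun _ _ => hD0.le) fun P hP => ?_
    have h7 : (1 : ℝ) ≤ (Ideal.absNorm P : ℝ) ^ ε := Real.one_le_rpow (by exact_mod_cast hpos P hP) hε.le
    by_cases hPZ : P ∈ Z
    · rw [if_pos hPZ]
      exact le_mul_of_one_le_right hD0.le h7
    · rw [if_neg hPZ, one_mul]
      rw [hZ, Set.Finite.mem_toFinset] at hPZ
      exact not_lt.1 hPZ
  refine h6.trans ?_
  rw [Finset.prod_mul_distrib, ← Finset.prod_filter, Finset.prod_const, Real.finsetProd_rpow _ _ fun P _ => Nat.cast_nonneg _]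
  have h8 : D' ^ (S.filter (fun P => P ∈ Z)).card ≤ D' ^ Z.card := by
    refine pow_le_pow_right₀ hD1 (Finset.card_le_card fun P hP => ?_)
    exact (Finset.mem_filter.1 hP).2
  have h9 : (∏ P ∈ S, (Ideal.absNorm P : ℝ)) ^ ε ≤ (Ideal.absNorm 𝔫 : ℝ) ^ ε := by
    refine Real.rpow_le_rpow (Finset.prod_nonneg fun P _ => Nat.cast_nonneg _) ?_ hε.le
    exact_mod_cast hle
  exact mul_le_mul h8 h9 (Real.rpow_nonneg (Finset.prod_nonneg fun P _ => Nat.cast_nonneg _) _) (pow_pos hD0 _).le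

end

end Pool.Agent.Lib.L8.F2
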