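import Pool.Agent.Lib.L8.FI.G2
import Pool.Agent.Lib.L8.FC.D7

/-!
# F2, R0: the sets `X_τ` and `L_τ` (definitions)
-/

namespace Pool.Agent.Lib.L8.F2

open Matrix NumberField IsDedekindDomain Pool.Agent.Lib.H89N Pool.Agent.Lib.L1S
open Pool.Agent.Lib.L8.FL (av aI Gv Kv Ah TK tv PJ G1 NJ nW wW IsWJ)
open Pool.Agent.Lib.L8.FI (Tor Tors Uu Iv Cg fh ch)

noncomputable section

set_option linter.unusedSectionVars false

variable {ι M N : Type} [Fintype ι] [DecidableEq ι] [AddCommGroup M] [Module ℚ M] [AddCommGroup N] [Module ℚ N]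
  {P : RootPairing ι ℚ M N} [P.IsCrystallographic] [P.IsReduced] [P.IsIrreducible] [P.IsRootSystem] {b : P.Base} {K : Type} [Field K] [NumberField K]

/-- `X_τ`: the elements `u` of `N_J(K)` with `u' τ n_w u ∈ z G1(𝔫) z'⁻¹` for an element `u'` of `U(K)`. -/
def Xt (b : P.Base) (K : Type) [Field K] [NumberField K] (J : Finset b.support) (L : List b.support) (𝔫 : Ideal (𝓞 K)) (z z' τ : GK b K) : Set (GK b K) :=
  {u | u ∈ NJ b K J ∧ ∃ u' ∈ HU b K, ∃ γ ∈ G1 b 𝔫, u' * τ * nW b K L * u = z * γ * z'⁻¹}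

/-- `L_τ`: the elements `c` of `N_J(K)` for which `n_w c z'` satisfies all the level conditions and `|α_k(τ)|_v |n_w c z'|_(v, k) = |z|_(v, k)`. -/
def Lt (b : P.Base) (K : Type) [Field K] [NumberField K] (J : Finset b.support) (L : List b.support) (𝔫 : Ideal (𝓞 K)) (z z' τ : GK b K) : Set (GK b K) :=
  {c | c ∈ NJ b K J ∧ (∀ k, FL.Chi b 𝔫 k (nW b K L * c * z')) ∧ ∀ (v : HeightOneSpectrum (𝓞 K)) (k : b.support), av v (tv b K τ k) * Ah b v (nW b K L * c * z') k = Ah b v z k}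

/-- The elements of `A` lie in different classes `u Λ`. -/
def Ineq {G : Type} [Group G] (Λ : Subgroup G) (A : Finset G) : Prop := ∀ u ∈ A, ∀ u' ∈ A, u⁻¹ * u' ∈ Λ → u = u'

end

end Pool.Agent.Lib.L8.F2
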