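import Pool.Agent.Lib.L8.F2.R0

/-!
# F2, chunk R1 (S): ideals and absolute values
-/

namespace Pool.Agent.Lib.L8.F2

open Matrix NumberField IsDedekindDomain Pool.Agent.Lib.H89N Pool.Agent.Lib.L1S
open Pool.Agent.Lib.L8.FL (av aI Gv Kv Ah TK tv PJ G1 NJ nW wW IsWJ)
open Pool.Agent.Lib.L8.FI (Tor Tors Uu Iv Cg fh ch)

noncomputable section

set_option linter.unusedSectionVars false

variable {ι M N : Type} [Fintype ι] [DecidableEq ι] [AddCommGroup M] [Module ℚ M] [AddCommGroup N] [Module ℚ N]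
  {P : RootPairing ι ℚ M N} [P.IsCrystallographic] [P.IsReduced] [P.IsIrreducible] [P.IsRootSystem] {b : P.Base} {K : Type} [Field K] [NumberField K]

theorem r1_int (v : HeightOneSpectrum (𝓞 K)) (x : 𝓞 K) : av v (x : K) ≤ 1 := nu2_le_one v x

/-- PROOF. `aI v 𝔫 = nw v 𝔫` (by `rfl`): `nu2_nw_one`; conversely if `𝔫 ≤ v` then the exponent is at least `1` (`Associates.prime_pow_dvd_iff_le`, compare the proof of `nu2_nw_one`) and `N(v) > 1` (`nu2_one_lt`). -/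
theorem r1_aI {v : HeightOneSpectrum (𝓞 K)} {𝔫 : Ideal (𝓞 K)} (h0 : 𝔫 ≠ ⊥) : aI v 𝔫 = 1 ↔ ¬𝔫 ≤ v.asIdeal := by
  constructor
  · intro h hle
    have h1 : 1 ≤ (Associates.mk v.asIdeal).count (Associates.mk 𝔫).factors := by
      rw [← Associates.prime_pow_dvd_iff_le (Associates.mk_ne_zero.2 h0) v.associates_irreducible,
        pow_one, Associates.mk_le_mk_iff_dvd, Ideal.dvd_iff_le]
      exact hle
    rw [aI, _root_.zpow_neg, zpow_natCast, inv_eq_one] at h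
    exact absurd h (one_lt_pow₀ (nu2_one_lt v) (by omega)).ne'
  · exact fun h => nu2_nw_one v h0 h

theorem r1_InI {𝔫 : Ideal (𝓞 K)} (h0 : 𝔫 ≠ ⊥) {x : K} (h : ∀ v : HeightOneSpectrum (𝓞 K), av v x ≤ aI v 𝔫) : InI 𝔫 x := by
  obtain ⟨z, hz, hx⟩ := (nu2_A h0 x).2 h
  exact ⟨z, hz, hx.symm⟩

theorem r1_lt {v : HeightOneSpectrum (𝓞 K)} {s : 𝓞 K} (h : av v (s : K) < 1) : s ∈ v.asIdeal := by
  by_cases hs : s = 0
  · rw [hs]
    exact v.asIdeal.zero_mem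
  have h1 : av v (s : K) ≤ (Ideal.absNorm v.asIdeal : ℝ) ^ (-((1 : ℕ) : ℤ)) := by
    obtain ⟨m, hm⟩ := aw_zpow v (s : K) (by exact_mod_cast hs)
    have hm' : av v (s : K) = (Ideal.absNorm v.asIdeal : ℝ) ^ m := hm
    rw [hm'] at h ⊢
    have h2 : m < 0 := by
      by_contra h3
      exact absurd (one_le_zpow₀ (nu2_one_lt v).le (not_lt.1 h3)) (not_le.2 h)
    exact zpow_le_zpow_right₀ (nu2_one_lt v).le (by push_cast; omega)
  have h2 := (nu2_le_pow v s 1).1 h1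
  rwa [pow_one] at h2

/-- PROOF. The entries of `g - 1` and of `g⁻¹ - 1`: `nu2_A` (the converse direction of the proof of `FI.g1_mem_G1`). -/
theorem r1_G1 {𝔫 : Ideal (𝓞 K)} (h0 : 𝔫 ≠ ⊥) {g : GK b K} (h : ∀ v : HeightOneSpectrum (𝓞 K), g ∈ Kv b 𝔫 v) : g ∈ G1 b 𝔫 := by
  intro r c
  exact ⟨r1_InI h0 fun v => (h v r c).1, r1_InI h0 fun v => (h v r c).2⟩

/-- PROOF. `r1_aI`: `𝔫 ≤ v`; if `av v s < 1` then `s ∈ v` (`nu2_le_pow` with `n = 1`: the values of `aw` are powers of `N(v)`, `aw_zpow`), so `span {s} ⊔ 𝔫 ≤ v < ⊤`. -/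
theorem r1_unit {v : HeightOneSpectrum (𝓞 K)} {𝔫 : Ideal (𝓞 K)} (h0 : 𝔫 ≠ ⊥) (hv : aI v 𝔫 ≠ 1) {s : 𝓞 K} (hs : Ideal.span {s} ⊔ 𝔫 = ⊤) : av v (s : K) = 1 := by
  have h1 : 𝔫 ≤ v.asIdeal := by
    by_contra h
    exact hv ((r1_aI h0).2 h)
  refine le_antisymm (r1_int v s) ?_
  by_contra h
  have h2 : s ∈ v.asIdeal := r1_lt (not_le.1 h)
  have h3 : Ideal.span {s} ⊔ 𝔫 ≤ v.asIdeal := sup_le ((Ideal.span_singleton_le_iff_mem _).2 h2) h1
  rw [hs, top_le_iff] at h3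
  exact v.isPrime.ne_top h3

/-- PROOF. `nu2_A`; at the places with `aI v 𝔫 = 1` use `r1_int`. -/
theorem r1_mem {𝔫 : Ideal (𝓞 K)} (h0 : 𝔫 ≠ ⊥) {x : 𝓞 K} (h : ∀ v : HeightOneSpectrum (𝓞 K), aI v 𝔫 ≠ 1 → av v (x : K) ≤ aI v 𝔫) : x ∈ 𝔫 := by
  obtain ⟨z, hz, hx⟩ := (nu2_A h0 (x : K)).2 fun v => by
    by_cases hv : aI v 𝔫 = 1
    · have h1 : nw v 𝔫 = 1 := hv
      rw [h1]
      exact r1_int v x
    · exact h v hv
  have h2 : x = z := RingOfIntegers.ext hx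
  rw [h2]
  exact hz

/-- **Common denominator** of finitely many elements. PROOF. Product of denominators (`IsLocalization.exist_integer_multiples_of_finset` or `IsFractionRing.div_surjective` and induction), `r1_int`. -/
theorem r1_den (S : Finset K) : ∃ d : 𝓞 K, d ≠ 0 ∧ ∀ x ∈ S, ∀ v : HeightOneSpectrum (𝓞 K), av v (d : K) * av v x ≤ 1 := by
  obtain ⟨d, hd⟩ := IsLocalization.exist_integer_multiples_of_finset (nonZeroDivisors (𝓞 K)) S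
  refine ⟨d, nonZeroDivisors.coe_ne_zero d, fun x hx v => ?_⟩
  obtain ⟨z, hz⟩ := hd x hx
  have h1 : (z : K) = ((d : 𝓞 K) : K) * x := by
    rw [← Algebra.smul_def]
    exact hz
  rw [← map_mul, ← h1]
  exact r1_int v z

/-- PROOF. `r1_den` for the set of all entries of `g`, `g⁻¹` for `g` in `S`. -/
theorem r1_denG (S : Finset (GK b K)) : ∃ d : 𝓞 K, d ≠ 0 ∧ ∀ g ∈ S, ∀ (v : HeightOneSpectrum (𝓞 K)) (r c : I b), av v (d : K) * av v (g.1.1 r c) ≤ 1 ∧ av v (d : K) * av v (g⁻¹.1.1 r c) ≤ 1 := by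
  classical
  obtain ⟨d, hd, h⟩ := r1_den (S.biUnion fun g => (Finset.univ : Finset (I b × I b)).image (fun rc => g.1.1 rc.1 rc.2) ∪
    (Finset.univ : Finset (I b × I b)).image (fun rc => g⁻¹.1.1 rc.1 rc.2))
  refine ⟨d, hd, fun g hg v r c => ⟨h _ ?_ v, h _ ?_ v⟩⟩
  · exact Finset.mem_biUnion.2 ⟨g, hg, Finset.mem_union_left _ (Finset.mem_image.2 ⟨(r, c), Finset.mem_univ _, rfl⟩)⟩
  · exact Finset.mem_biUnion.2 ⟨g, hg, Finset.mem_union_right _ (Finset.mem_image.2 ⟨(r, c), Finset.mem_univ _, rfl⟩)⟩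

end

end Pool.Agent.Lib.L8.F2
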