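import Pool.Agent.Lib.L8.F2.R0

/-!
# F2, chunk R10 (S/M): the counting lemma
-/

namespace Pool.Agent.Lib.L8.F2

open Matrix NumberField IsDedekindDomain Pool.Agent.Lib.H89N Pool.Agent.Lib.L1S
open Pool.Agent.Lib.L8.FL (av aI Gv Kv Ah TK tv PJ G1 NJ nW wW IsWJ)
open Pool.Agent.Lib.L8.FI (Tor Tors Uu Iv Cg fh ch)

noncomputable section

set_option linter.unusedSectionVars false

variable {ι M N : Type} [Fintype ι] [DecidableEq ι] [AddCommGroup M] [Module ℚ M] [AddCommGroup N] [Module ℚ N]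
  {P : RootPairing ι ℚ M N} [P.IsCrystallographic] [P.IsReduced] [P.IsIrreducible] [P.IsRootSystem] {b : P.Base} {K : Type} [Field K] [NumberField K]

/-- **Counting.** PROOF. For a class `q : G ⧸ Λf` let `rep u = Quotient.out (u : G ⧸ Λf)`: `rep u = u * l` with `l ∈ Λf` (`QuotientGroup.mk_out_eq_mul`), so `rep u ∈ X` for `u ∈ X`. `φ (s, u) = T s (rep u) * (rep u)⁻¹ * u`; `(rep u)⁻¹ * u ∈ Λf`, so `φ (s, u) ∈ Y`. `B = image φ (S ×ˢ A)`.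
If `φ (s, u)⁻¹ * φ (s', u') ∈ Λ ≤ Λf` then `(T s (rep u))⁻¹ * T s' (rep u') ∈ Λf`, so `s = s'` and `(rep u)⁻¹ * rep u' ∈ Λf`, so `rep u = rep u'` (equal classes), and then `u⁻¹ * u' = φ (s, u)⁻¹ * φ (s, u') ∈ Λ`, so `u = u'`. This gives the injectivity (`Finset.card_image_of_injOn`, `Finset.card_product`) and `Ineq Λ B`. -/
theorem r10_count {G σ : Type} [Group G] {Λ Λf : Subgroup G} (hΛ : Λ ≤ Λf) {X Y : Set G} (hX : ∀ u ∈ X, ∀ l ∈ Λf, u * l ∈ X) (hY : ∀ u ∈ Y, ∀ l ∈ Λf, u * l ∈ Y) (S : Finset σ) (T : σ → G → G)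
    (hT : ∀ s ∈ S, ∀ u ∈ X, T s u ∈ Y) (hS : ∀ s ∈ S, ∀ s' ∈ S, ∀ u ∈ X, ∀ u' ∈ X, (T s u)⁻¹ * T s' u' ∈ Λf → s = s' ∧ u⁻¹ * u' ∈ Λf) (A : Finset G) (hA : ∀ u ∈ A, u ∈ X) (hA2 : Ineq Λ A) :
    ∃ B : Finset G, (∀ u ∈ B, u ∈ Y) ∧ Ineq Λ B ∧ B.card = S.card * A.card := by
  classical
  let rp : G → G := fun u => Quotient.out (QuotientGroup.mk u : G ⧸ Λf)
  have hrp : ∀ u, ∃ l ∈ Λf, rp u = u * l := fun u => by
    obtain ⟨l, hl⟩ := QuotientGroup.mk_out_eq_mul Λf u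
    exact ⟨l.1, l.2, hl⟩
  have hmk : ∀ u, (QuotientGroup.mk (rp u) : G ⧸ Λf) = QuotientGroup.mk u := fun u => Quotient.out_eq _
  have hrX : ∀ u ∈ X, rp u ∈ X := by
    intro u hu
    obtain ⟨l, hl, h⟩ := hrp u
    rw [h]
    exact hX u hu l hl
  have hrl : ∀ u, (rp u)⁻¹ * u ∈ Λf := by
    intro u
    obtain ⟨l, hl, h⟩ := hrp u
    rw [h]
    have e : (u * l)⁻¹ * u = l⁻¹ := by group
    rw [e]
    exact inv_mem hl
  let φ : σ × G → G := fun p => T p.1 (rp p.2) * ((rp p.2)⁻¹ * p.2)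
  have hφY : ∀ s ∈ S, ∀ u ∈ X, φ (s, u) ∈ Y := fun s hs u hu => hY _ (hT s hs _ (hrX u hu)) _ (hrl u)
  have key : ∀ s ∈ S, ∀ s' ∈ S, ∀ u ∈ A, ∀ u' ∈ A, (φ (s, u))⁻¹ * φ (s', u') ∈ Λ → s = s' ∧ u = u' := by
    intro s hs s' hs' u hu u' hu' h
    have h1 : (T s (rp u))⁻¹ * T s' (rp u') ∈ Λf := by
      have e : (T s (rp u))⁻¹ * T s' (rp u') = ((rp u)⁻¹ * u) * ((φ (s, u))⁻¹ * φ (s', u')) * ((rp u')⁻¹ * u')⁻¹ := by
        show _ = ((rp u)⁻¹ * u) * ((T s (rp u) * ((rp u)⁻¹ * u))⁻¹ * (T s' (rp u') * ((rp u')⁻¹ * u'))) * ((rp u')⁻¹ * u')⁻¹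
        group
      rw [e]
      exact mul_mem (mul_mem (hrl u) (hΛ h)) (inv_mem (hrl u'))
    obtain ⟨h2, h3⟩ := hS s hs s' hs' _ (hrX u (hA u hu)) _ (hrX u' (hA u' hu')) h1
    subst h2
    have h4 : (QuotientGroup.mk u : G ⧸ Λf) = QuotientGroup.mk u' := by
      rw [← hmk u, ← hmk u']
      exact QuotientGroup.eq.2 h3
    have h5 : rp u = rp u' := congrArg Quotient.out h4
    have e : (φ (s, u))⁻¹ * φ (s, u') = u⁻¹ * u' := by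
      show (T s (rp u) * ((rp u)⁻¹ * u))⁻¹ * (T s (rp u') * ((rp u')⁻¹ * u')) = u⁻¹ * u'
      rw [← h5]
      group
    rw [e] at h
    exact ⟨rfl, hA2 u hu u' hu' h⟩
  refine ⟨(S ×ˢ A).image φ, ?_, ?_, ?_⟩
  · intro v hv
    obtain ⟨⟨s, u⟩, hp, rfl⟩ := Finset.mem_image.1 hv
    obtain ⟨hs, hu⟩ := Finset.mem_product.1 hp
    exact hφY s hs u (hA u hu)
  · intro v hv v' hv' h
    obtain ⟨⟨s, u⟩, hp, rfl⟩ := Finset.mem_image.1 hv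
    obtain ⟨⟨s', u'⟩, hp', rfl⟩ := Finset.mem_image.1 hv'
    obtain ⟨hs, hu⟩ := Finset.mem_product.1 hp
    obtain ⟨hs', hu'⟩ := Finset.mem_product.1 hp'
    obtain ⟨h1, h2⟩ := key s hs s' hs' u hu u' hu' h
    have h3 : s = s' := h1
    have h4 : u = u' := h2
    rw [h3, h4]
  · rw [Finset.card_image_of_injOn, Finset.card_product]
    rintro ⟨s, u⟩ hp ⟨s', u'⟩ hp' h
    obtain ⟨hs, hu⟩ := Finset.mem_product.1 (Finset.mem_coe.1 hp)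
    obtain ⟨hs', hu'⟩ := Finset.mem_product.1 (Finset.mem_coe.1 hp')
    have h0 : (φ (s, u))⁻¹ * φ (s', u') ∈ Λ := by
      have h1 : φ (s, u) = φ (s', u') := h
      rw [h1, inv_mul_cancel]
      exact one_mem _
    obtain ⟨h1, h2⟩ := key s hs s' hs' u hu u' hu' h0
    exact Prod.ext h1 h2

end

end Pool.Agent.Lib.L8.F2
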