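import Pool.Agent.Lib.L8.F2.R0

/-!
# F2, chunk R4 (S/M): the Weyl group and the torus
-/

namespace Pool.Agent.Lib.L8.F2

open Matrix NumberField IsDedekindDomain Pool.Agent.Lib.H89N Pool.Agent.Lib.L1S
open Pool.Agent.Lib.L8.FL (av aI Gv Kv Ah TK tv PJ G1 NJ nW wW IsWJ)
open Pool.Agent.Lib.L8.FI (Tor Tors Uu Iv Cg fh ch)

noncomputable section

set_option linter.unusedSectionVars false

variable {ι M N : Type} [Fintype ι] [DecidableEq ι] [AddCommGroup M] [Module ℚ M] [AddCommGroup N] [Module ℚ N]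
  {P : RootPairing ι ℚ M N} [P.IsCrystallographic] [P.IsReduced] [P.IsIrreducible] [P.IsRootSystem] {b : P.Base} {K : Type} [Field K] [NumberField K]

/-- PROOF. Induction on `L`, for all `s`, `t`: `nW b K (i :: L) = nW b K L * fn b K i` (`FI.g1_fn`), `Tors.conj_n` gives `Tors (sn i s) (fn i * t * (fn i)⁻¹)`; `wW b (i :: L) δ = wW b L (P.reflectionPerm i δ)` and `FI.ch_refl` (`ch (sn i s) r = ch s c` for `wt b r = P.reflection i (wt b c)`, with `r = inr (P.reflectionPerm i δ)`, `c = inr δ`: `P.root_reflectionPerm`). -/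
theorem tors_nW (L : List b.support) {s : b.support → Kˣ} {t : GK b K} (h : Tors s t) : ∃ s' : b.support → Kˣ, Tors s' (nW b K L * t * (nW b K L)⁻¹) ∧ ∀ δ : ι, ch s' (Sum.inr (wW b L δ)) = ch s (Sum.inr δ) := by
  induction L generalizing s t with
  | nil =>
    refine ⟨s, ?_, fun δ => rfl⟩
    have e : nW b K [] * t * (nW b K [])⁻¹ = t := by
      change (1 : GK b K) * t * (1 : GK b K)⁻¹ = t
      rw [one_mul, inv_one, mul_one]
    rw [e]
    exact h
  | cons i L ih =>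
    obtain ⟨s', h1, h2⟩ := ih (h.conj_n i)
    refine ⟨s', ?_, fun δ => ?_⟩
    · have e : nW b K (i :: L) * t * (nW b K (i :: L))⁻¹ = nW b K L * (FI.fn b K i * t * (FI.fn b K i)⁻¹) * (nW b K L)⁻¹ := by
        change nW b K L * FI.fn b K i * t * (nW b K L * FI.fn b K i)⁻¹ = _
        rw [_root_.mul_inv_rev]
        simp only [mul_assoc]
      rw [e]
      exact h1
    · have e : wW b (i :: L) δ = wW b L (P.reflectionPerm i δ) := rfl
      rw [e, h2]
      refine FI.ch_refl i s ?_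
      change P.root (P.reflectionPerm i δ) = P.reflection i (P.root δ)
      exact P.root_reflectionPerm i δ

/-- PROOF. `tors_nW` for `FI.fh_Tors i s`, `Tors.tor`, `FI.g1_TK`. -/
theorem fh_conj_TK (L : List b.support) (i : b.support) (s : Kˣ) : nW b K L * fh b i s * (nW b K L)⁻¹ ∈ TK b K := by
  obtain ⟨s', h1, -⟩ := tors_nW L (FI.fh_Tors i s)
  exact (FI.g1_TK b _).2 h1.tor

/-- PROOF. `tors_nW` for `FI.fh_Tors i s` at `δ = (wW b L)⁻¹ k`: the entry of `n σ n⁻¹` at `inr k` is `ch (fun j => if j = i then s else 1) (inr δ) = s ^ pj b i (inr δ)` (`Finset.prod_eq_single`), the entry of `σ` is `s ^ pj b i (inr k)` (`FI.fh_diag`). -/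
theorem fh_conj_tv (L : List b.support) (i k : b.support) (s : Kˣ) : tv b K (nW b K L * fh b i s * (nW b K L)⁻¹) k = (s : K) ^ pj b i (Sum.inr ((wW b L)⁻¹ (k : ι))) ∧ tv b K (fh b i s) k = (s : K) ^ pj b i (Sum.inr (k : ι)) := by
  refine ⟨?_, ?_⟩
  · obtain ⟨s', h1, h2⟩ := tors_nW L (FI.fh_Tors i s)
    have h3 := h2 ((wW b L)⁻¹ (k : ι))
    have h5 : wW b L ((wW b L)⁻¹ (k : ι)) = (k : ι) := by
      rw [← Equiv.Perm.mul_apply, mul_inv_cancel, Equiv.Perm.one_apply]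
    rw [h5] at h3
    have h4 : tv b K (nW b K L * fh b i s * (nW b K L)⁻¹) k = ch s' (Sum.inr (k : ι)) := h1.val (Sum.inr (k : ι))
    rw [h4, h3]
    unfold ch
    rw [Finset.prod_eq_single i]
    · simp only [if_true]
    · intro j _ hj
      simp only [if_neg hj, Units.val_one, _root_.one_zpow]
    · intro h
      exact absurd (Finset.mem_univ i) h
  · exact FI.fh_diag i s (Sum.inr (k : ι))

/-- PROOF. Induction on `L`: `FI.fn_Iv`, `Iv.mul`, `FI.g1_Gv`. -/
theorem nW_Gv (v : HeightOneSpectrum (𝓞 K)) (L : List b.support) : nW b K L ∈ Gv b v := by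
  induction L with
  | nil => exact (FI.g1_Gv b v _).2 Iv.one
  | cons i L ih =>
    exact (FI.g1_Gv b v _).2 (Iv.mul (FI.g1_nonarch v) ((FI.g1_Gv b v _).1 ih) (FI.fn_Iv (FI.g1_nonarch v) i))

/-- PROOF. `FI.fh_Iv`, `FI.g1_Gv`. -/
theorem fh_Gv {v : HeightOneSpectrum (𝓞 K)} (i : b.support) {s : Kˣ} (hs : av v (s : K) = 1) : fh b i s ∈ Gv b v := by
  exact (FI.g1_Gv b v _).2 (FI.fh_Iv i hs)

/-- PROOF. `FI.fh_Tor`, `FI.g1_TK`. -/
theorem fh_TK (i : b.support) (s : Kˣ) : fh b i s ∈ TK b K := by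
  exact (FI.g1_TK b _).2 (FI.fh_Tor i s)

end

end Pool.Agent.Lib.L8.F2
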