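import Pool.Agent.Lib.L8.F2.R7

/-!
# F2, chunk R8 (S): the translate at the places of `𝔫`
-/

namespace Pool.Agent.Lib.L8.F2

open Matrix NumberField IsDedekindDomain Pool.Agent.Lib.H89N Pool.Agent.Lib.L1S
open Pool.Agent.Lib.L8.FL (av aI Gv Kv Ah TK tv PJ G1 NJ nW wW IsWJ)
open Pool.Agent.Lib.L8.FI (Tor Tors Uu Iv Cg fh ch)

noncomputable section

set_option linter.unusedSectionVars false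

variable {ι M N : Type} [Fintype ι] [DecidableEq ι] [AddCommGroup M] [Module ℚ M] [AddCommGroup N] [Module ℚ N]
  {P : RootPairing ι ℚ M N} [P.IsCrystallographic] [P.IsReduced] [P.IsIrreducible] [P.IsRootSystem] {b : P.Base} {K : Type} [Field K] [NumberField K]

/-- PROOF. With `κ₀ = (σ * u * σ⁻¹)⁻¹ * u₁ ∈ K_v(𝔫)`: `n u₁ z' = n σ u σ⁻¹ κ₀ z' = (n σ n⁻¹) (n u) σ⁻¹ κ₀ z'` and `n u = τ⁻¹ u'⁻¹ (z γ z'⁻¹)`; `κ₁ = z γ z'⁻¹ ∈ K_v(𝔫)` and `κ₁ σ⁻¹ = σ⁻¹ (σ κ₁ σ⁻¹)`, `σ κ₁ σ⁻¹ ∈ K_v(𝔫)` (`Kv_conj`). So `n u₁ z' = (n σ n⁻¹ τ⁻¹ σ⁻¹) * (σ * u'⁻¹ * σ⁻¹) * ((σ κ₁ σ⁻¹) κ₀ z')`, `σ u'⁻¹ σ⁻¹ ∈ U(K)` (`FC.TK_HU`). -/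
theorem r8_loc {v : HeightOneSpectrum (𝓞 K)} {𝔫 : Ideal (𝓞 K)} {n σ τ z z' u u' γ u₁ : GK b K} (hσT : σ ∈ TK b K) (hσ : σ ∈ Gv b v) (hz : z ∈ Kv b 𝔫 v) (hz' : z' ∈ Kv b 𝔫 v)
    (hu' : u' ∈ HU b K) (hγ : γ ∈ Kv b 𝔫 v) (e : u' * τ * n * u = z * γ * z'⁻¹) (h1 : (σ * u * σ⁻¹)⁻¹ * u₁ ∈ Kv b 𝔫 v) :
    ∃ u₂ ∈ HU b K, ∃ κ ∈ Kv b 𝔫 v, n * u₁ * z' = (n * σ * n⁻¹ * τ⁻¹ * σ⁻¹) * u₂ * κ := by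
  have hk1 : u' * τ * n * u ∈ Kv b 𝔫 v := by
    rw [e]
    exact Kv_mul (Kv_mul hz hγ) (Kv_inv hz')
  refine ⟨σ * u'⁻¹ * σ⁻¹, FC.TK_HU hσT (inv_mem hu'), σ * (u' * τ * n * u) * σ⁻¹ * ((σ * u * σ⁻¹)⁻¹ * u₁) * z', Kv_mul (Kv_mul (Kv_conj hσ hk1) h1) hz', ?_⟩
  group

end

end Pool.Agent.Lib.L8.F2
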