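import Pool.Agent.Lib.L8.F2.R1
import Pool.Agent.Lib.L8.F2.R4
import Pool.Agent.Lib.L8.F2.R8

/-!
# F2, chunk R11 (M): two translates in one class
-/

namespace Pool.Agent.Lib.L8.F2

open Matrix NumberField IsDedekindDomain Pool.Agent.Lib.H89N Pool.Agent.Lib.L1S
open Pool.Agent.Lib.L8.FL (av aI Gv Kv Ah TK tv PJ G1 NJ nW wW IsWJ)
open Pool.Agent.Lib.L8.FI (Tor Tors Uu Iv Cg fh ch)

noncomputable section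

set_option linter.unusedSectionVars false

variable {ι M N : Type} [Fintype ι] [DecidableEq ι] [AddCommGroup M] [Module ℚ M] [AddCommGroup N] [Module ℚ N]
  {P : RootPairing ι ℚ M N} [P.IsCrystallographic] [P.IsReduced] [P.IsIrreducible] [P.IsRootSystem] {b : P.Base} {K : Type} [Field K] [NumberField K]

/-- **The torus parameter and the class are determined by the class of the translate.**
PROOF. Put `n = nW b K L`, `w = wW b L`, `σ = α_i^∨(s)`, `σ' = α_i^∨(s')`, `u₁' = u₁ l`, `l = u₁⁻¹ u₁'`, `z'⁻¹ l z' ∈ G1 𝔫`. Let `v` be a place with `aI v 𝔫 ≠ 1`. `r8_loc` for both: `n u₁ z' = ρ u₂ κ`, `n u₁' z' = ρ' u₂' κ'`, `ρ = n σ n⁻¹ τ⁻¹ σ⁻¹`; and `n u₁' z' = n u₁ z' (z'⁻¹ l z')`, so `tor_uniq` (`FI.g1_mem_G1`): `av v (tv ρ k / tv ρ' k - 1) ≤ aI v 𝔫`.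
`tv ρ k / tv ρ' k = (s / s') ^ (pj b i (inr (w⁻¹ k)) - pj b i (inr k))` (`fh_conj_tv`, `FI.tv_mul`, `FI.tv_inv`; `TK` is commutative on values) `= (s / s') ^ (-p)`, `p = ± m`. As `av v s = av v s' = 1` this gives `av v (s ^ m - s' ^ m) ≤ aI v 𝔫` in both cases (multiply by a unit). So `s ^ m - s' ^ m ∈ 𝔫` (`r1_mem`). -/
theorem r11_s {J : Finset b.support} {L : List b.support} {𝔫 : Ideal (𝓞 K)} (h0 : 𝔫 ≠ ⊥) {z z' τ : GK b K} (hz : ∀ v : HeightOneSpectrum (𝓞 K), aI v 𝔫 ≠ 1 → z ∈ Kv b 𝔫 v) (hz' : ∀ v : HeightOneSpectrum (𝓞 K), aI v 𝔫 ≠ 1 → z' ∈ Kv b 𝔫 v)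
    (hτ : τ ∈ TK b K) (i k : b.support) {m : ℕ} (hm : pj b i (Sum.inr (k : ι)) - pj b i (Sum.inr ((wW b L)⁻¹ (k : ι))) = m ∨ pj b i (Sum.inr (k : ι)) - pj b i (Sum.inr ((wW b L)⁻¹ (k : ι))) = -m)
    {s s' : 𝓞 K} (hs0 : (s : K) ≠ 0) (hs0' : (s' : K) ≠ 0) (hs : Ideal.span {s} ⊔ 𝔫 = ⊤) (hs' : Ideal.span {s'} ⊔ 𝔫 = ⊤) {u u' u₁ u₁' : GK b K} (hu : u ∈ Xt b K J L 𝔫 z z' τ) (hu' : u' ∈ Xt b K J L 𝔫 z z' τ)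
    (h1 : ∀ v : HeightOneSpectrum (𝓞 K), aI v 𝔫 ≠ 1 → (fh b i (Units.mk0 _ hs0) * u * (fh b i (Units.mk0 _ hs0))⁻¹)⁻¹ * u₁ ∈ Kv b 𝔫 v)
    (h1' : ∀ v : HeightOneSpectrum (𝓞 K), aI v 𝔫 ≠ 1 → (fh b i (Units.mk0 _ hs0') * u' * (fh b i (Units.mk0 _ hs0'))⁻¹)⁻¹ * u₁' ∈ Kv b 𝔫 v)
    (hl : z'⁻¹ * (u₁⁻¹ * u₁') * z' ∈ G1 b 𝔫) : s ^ m - s' ^ m ∈ 𝔫 := by
  have key : ∀ v : HeightOneSpectrum (𝓞 K), aI v 𝔫 ≠ 1 → av v ((s : K) ^ m - (s' : K) ^ m) ≤ aI v 𝔫 := by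
    intro v hv
    have a1 : av v (s : K) = 1 := r1_unit h0 hv hs
    have a2 : av v (s' : K) = 1 := r1_unit h0 hv hs'
    obtain ⟨_, w, hw, γ, hγ, e⟩ := hu
    obtain ⟨_, w', hw', γ', hγ', e'⟩ := hu'
    obtain ⟨u₂, hu₂, κ, hκ, E⟩ := r8_loc (fh_TK i (Units.mk0 (s : K) hs0)) (fh_Gv i (by simpa using a1)) (hz v hv) (hz' v hv) hw
      (FI.g1_mem_G1 b v h0 hγ) e (h1 v hv)
    obtain ⟨u₂', hu₂', κ', hκ', E'⟩ := r8_loc (fh_TK i (Units.mk0 (s' : K) hs0')) (fh_Gv i (by simpa using a2)) (hz v hv) (hz' v hv) hw'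
      (FI.g1_mem_G1 b v h0 hγ') e' (h1' v hv)
    have hl' := FI.g1_mem_G1 b v h0 hl
    have t1 : nW b K L * fh b i (Units.mk0 (s : K) hs0) * (nW b K L)⁻¹ ∈ TK b K := fh_conj_TK L i _
    have t2 : nW b K L * fh b i (Units.mk0 (s' : K) hs0') * (nW b K L)⁻¹ ∈ TK b K := fh_conj_TK L i _
    have q1 : fh b i (Units.mk0 (s : K) hs0) ∈ TK b K := fh_TK i _
    have q2 : fh b i (Units.mk0 (s' : K) hs0') ∈ TK b K := fh_TK i _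
    have E3 : (nW b K L * fh b i (Units.mk0 (s : K) hs0) * (nW b K L)⁻¹ * τ⁻¹ * (fh b i (Units.mk0 (s : K) hs0))⁻¹) * u₂ *
        (κ * (z'⁻¹ * (u₁⁻¹ * u₁') * z')) =
        (nW b K L * fh b i (Units.mk0 (s' : K) hs0') * (nW b K L)⁻¹ * τ⁻¹ * (fh b i (Units.mk0 (s' : K) hs0'))⁻¹) * u₂' * κ' := by
      rw [← E', ← mul_assoc, ← E]
      group
    have h3 := tor_uniq (mul_mem (mul_mem t1 (inv_mem hτ)) (inv_mem q1)) (mul_mem (mul_mem t2 (inv_mem hτ)) (inv_mem q2))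
      hu₂ hu₂' (Kv_mul hκ hl') hκ' E3 k
    rw [FI.tv_mul b (mul_mem t1 (inv_mem hτ)), FI.tv_mul b t1, FI.tv_inv b hτ, FI.tv_inv b q1,
      FI.tv_mul b (mul_mem t2 (inv_mem hτ)), FI.tv_mul b t2, FI.tv_inv b hτ, FI.tv_inv b q2,
      (fh_conj_tv L i k _).1, (fh_conj_tv L i k (Units.mk0 (s : K) hs0)).2, (fh_conj_tv L i k _).1,
      (fh_conj_tv L i k (Units.mk0 (s' : K) hs0')).2] at h3
    have hτ0 : tv b K τ k ≠ 0 := FI.tv_ne b hτ k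
    set A := pj b i (Sum.inr ((wW b L)⁻¹ (k : ι))) with hA
    set C := pj b i (Sum.inr (k : ι)) with hC
    rw [Units.val_mk0, Units.val_mk0] at h3
    have h4 : (s : K) ^ A * (tv b K τ k)⁻¹ * ((s : K) ^ C)⁻¹ / ((s' : K) ^ A * (tv b K τ k)⁻¹ * ((s' : K) ^ C)⁻¹) =
        ((s : K) / s') ^ (A - C) := by
      rw [zpow_sub₀ (div_ne_zero hs0 hs0'), div_zpow, div_zpow]
      have := zpow_ne_zero A hs0
      have := zpow_ne_zero C hs0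
      have := zpow_ne_zero A hs0'
      have := zpow_ne_zero C hs0'
      field_simp
    rw [h4] at h3
    have sm0 : (s : K) ^ m ≠ 0 := pow_ne_zero _ hs0
    have sm0' : (s' : K) ^ m ≠ 0 := pow_ne_zero _ hs0'
    rcases hm with hm | hm
    · have h5 : A - C = -(m : ℤ) := by omega
      rw [h5, _root_.zpow_neg, zpow_natCast, div_pow, inv_div] at h3
      have h6 : (s : K) ^ m - (s' : K) ^ m = -((s : K) ^ m * ((s' : K) ^ m / (s : K) ^ m - 1)) := by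
        field_simp
        ring
      rw [h6, map_neg_eq_map, map_mul, map_pow, a1, one_pow, one_mul]
      exact h3
    · have h5 : A - C = (m : ℤ) := by omega
      rw [h5, zpow_natCast, div_pow] at h3
      have h6 : (s : K) ^ m - (s' : K) ^ m = (s' : K) ^ m * ((s : K) ^ m / (s' : K) ^ m - 1) := by
        field_simp
      rw [h6, map_mul, map_pow, a2, one_pow, one_mul]
      exact h3
  refine r1_mem h0 fun v hv => ?_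
  have h2 := key v hv
  push_cast
  exact h2

/-- PROOF. `r1_G1`: at every place. `aI v 𝔫 ≠ 1`: all of `z'`, `κ = (σ u σ⁻¹)⁻¹ u₁`, `κ' = (σ u' σ⁻¹)⁻¹ u₁'`, `l = u₁⁻¹ u₁'` (conjugate of an element of `G1` by `z'`) are in `K_v(𝔫)`, so `(σ u σ⁻¹)⁻¹ (σ u' σ⁻¹) = κ l κ'⁻¹`, `u⁻¹ u' = σ⁻¹ (κ l κ'⁻¹) σ ∈ K_v(𝔫)` (`Kv_conj`, `fh_Gv`). `aI v 𝔫 = 1`: `K_v(𝔫)` is `G_v` (`FI.g1_Gv`, `FI.g1_Kv`, `FI.Cg_one_iff`), and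
`z'⁻¹ (u⁻¹ u') z' = (z'⁻¹ (u⁻¹ u₁) z') (z'⁻¹ (u₁⁻¹ u₁') z') (z'⁻¹ (u'⁻¹ u₁') z')⁻¹`. -/
theorem r11_u {𝔫 : Ideal (𝓞 K)} (h0 : 𝔫 ≠ ⊥) {z' : GK b K} (hz' : ∀ v : HeightOneSpectrum (𝓞 K), aI v 𝔫 ≠ 1 → z' ∈ Kv b 𝔫 v) (i : b.support) {s : Kˣ} (hs : ∀ v : HeightOneSpectrum (𝓞 K), aI v 𝔫 ≠ 1 → av v (s : K) = 1) {u u' u₁ u₁' : GK b K}
    (h1 : ∀ v : HeightOneSpectrum (𝓞 K), aI v 𝔫 ≠ 1 → (fh b i s * u * (fh b i s)⁻¹)⁻¹ * u₁ ∈ Kv b 𝔫 v) (h1' : ∀ v : HeightOneSpectrum (𝓞 K), aI v 𝔫 ≠ 1 → (fh b i s * u' * (fh b i s)⁻¹)⁻¹ * u₁' ∈ Kv b 𝔫 v)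
    (h2 : ∀ v : HeightOneSpectrum (𝓞 K), aI v 𝔫 = 1 → z'⁻¹ * (u⁻¹ * u₁) * z' ∈ Gv b v) (h2' : ∀ v : HeightOneSpectrum (𝓞 K), aI v 𝔫 = 1 → z'⁻¹ * (u'⁻¹ * u₁') * z' ∈ Gv b v)
    (hl : z'⁻¹ * (u₁⁻¹ * u₁') * z' ∈ G1 b 𝔫) : z'⁻¹ * (u⁻¹ * u') * z' ∈ G1 b 𝔫 := by
  refine r1_G1 h0 fun v => ?_
  by_cases hv : aI v 𝔫 = 1
  · have h3 : z'⁻¹ * (u⁻¹ * u') * z' ∈ Gv b v := by
      have e : z'⁻¹ * (u⁻¹ * u') * z' = (z'⁻¹ * (u⁻¹ * u₁) * z') * (z'⁻¹ * (u₁⁻¹ * u₁') * z') * (z'⁻¹ * (u'⁻¹ * u₁') * z')⁻¹ := by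
        group
      rw [e]
      exact Gv_mul (Gv_mul (h2 v hv) (FI.g1_G1_Gv b v h0 hl)) (Gv_inv (h2' v hv))
    rw [FI.g1_Kv, hv]
    exact (FI.Cg_one_iff (FI.g1_nonarch v)).2 ((FI.g1_Gv b v _).1 h3)
  · have hl' := FI.g1_mem_G1 b v h0 hl
    have hz1 := hz' v hv
    have hσ : fh b i s ∈ Gv b v := fh_Gv i (hs v hv)
    have hk : u₁⁻¹ * u₁' ∈ Kv b 𝔫 v := by
      have e : u₁⁻¹ * u₁' = z' * (z'⁻¹ * (u₁⁻¹ * u₁') * z') * z'⁻¹ := by group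
      rw [e]
      exact Kv_mul (Kv_mul hz1 hl') (Kv_inv hz1)
    have h3 : u⁻¹ * u' ∈ Kv b 𝔫 v := by
      have e : u⁻¹ * u' = (fh b i s)⁻¹ * (((fh b i s * u * (fh b i s)⁻¹)⁻¹ * u₁) * (u₁⁻¹ * u₁') *
          ((fh b i s * u' * (fh b i s)⁻¹)⁻¹ * u₁')⁻¹) * ((fh b i s)⁻¹)⁻¹ := by group
      rw [e]
      exact Kv_conj (Gv_inv hσ) (Kv_mul (Kv_mul (h1 v hv) hk) (Kv_inv (h1' v hv)))
    exact Kv_mul (Kv_mul (Kv_inv hz1) h3) hz1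

end

end Pool.Agent.Lib.L8.F2
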