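import Pool.Agent.Lib.L8.F2.R0

/-!
# F2, chunk R2 (S/M): the Chinese remainder theorem
-/

namespace Pool.Agent.Lib.L8.F2

open Matrix NumberField IsDedekindDomain Pool.Agent.Lib.H89N Pool.Agent.Lib.L1S
open Pool.Agent.Lib.L8.FL (av aI Gv Kv Ah TK tv PJ G1 NJ nW wW IsWJ)
open Pool.Agent.Lib.L8.FI (Tor Tors Uu Iv Cg fh ch)

noncomputable section

set_option linter.unusedSectionVars false

variable {ι M N : Type} [Fintype ι] [DecidableEq ι] [AddCommGroup M] [Module ℚ M] [AddCommGroup N] [Module ℚ N]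
  {P : RootPairing ι ℚ M N} [P.IsCrystallographic] [P.IsReduced] [P.IsIrreducible] [P.IsRootSystem] {b : P.Base} {K : Type} [Field K] [NumberField K]

/-- PROOF. Let `S` be the finite set of the places with `aI v 𝔫 ≠ 1` or `av v d ≠ 1` (finite: `FI.g1_fin1` for `d`, `𝔫 ≠ ⊥`: take an element `a ≠ 0` of `𝔫`, `av v a ≤ aI v 𝔫` by `nu2_A`, so `aI v 𝔫 ≠ 1` implies `av v a ≠ 1`). `IsDedekindDomain.exists_forall_sub_mem_ideal` with `P v = v.asIdeal`, exponents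
`e v` with `N(v) ^ (-e v) = aI v 𝔫 * av v d ^ m` if `aI v 𝔫 ≠ 1` and `= av v d ^ m` otherwise (`aI` is such a power by definition, `av v d` by `aw_zpow` and `nu2_le_one`), and `x v = 1` if `aI v 𝔫 ≠ 1`, `x v = 0` otherwise; translate with `nu2_le_pow`. Outside `S`: `av v c ≤ 1` (`nu2_le_one`).
If the `c` found is `0`, replace it by `a * d ^ m`: `av v (a d ^ m) ≤ aI v 𝔫 * av v d ^ m`, and `av v (a d ^ m - 1) ≤ max (av v (a d ^ m)) (av v (0 - 1))` (`FI.g1_nonarch`). -/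
theorem crt_elt {𝔫 : Ideal (𝓞 K)} (h0 : 𝔫 ≠ ⊥) {d : 𝓞 K} (hd : d ≠ 0) (m : ℕ) :
    ∃ c : 𝓞 K, c ≠ 0 ∧ (∀ v : HeightOneSpectrum (𝓞 K), aI v 𝔫 ≠ 1 → av v ((c : K) - 1) ≤ aI v 𝔫 * av v (d : K) ^ m) ∧ ∀ v : HeightOneSpectrum (𝓞 K), aI v 𝔫 = 1 → av v (c : K) ≤ av v (d : K) ^ m := by
  classical
  have hnpos : ∀ v : HeightOneSpectrum (𝓞 K), (0 : ℝ) < (Ideal.absNorm v.asIdeal : ℝ) := fun v => nu2_pos v
  have hdK : (d : K) ≠ 0 := by
    intro h
    exact hd (NumberField.RingOfIntegers.coe_injective (h.trans (map_zero (algebraMap (𝓞 K) K)).symm))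
  -- exponents of `d`
  have hk : ∀ v : HeightOneSpectrum (𝓞 K), ∃ k : ℕ, av v (d : K) = (Ideal.absNorm v.asIdeal : ℝ) ^ (-(k : ℤ)) := by
    intro v
    obtain ⟨z, hz⟩ := aw_zpow v (d : K) hdK
    have h1 : (Ideal.absNorm v.asIdeal : ℝ) ^ z ≤ 1 := by
      rw [← hz]
      exact nu2_le_one v d
    have h2 : z ≤ 0 := by
      by_contra hc
      exact absurd h1 (not_le.mpr (one_lt_zpow₀ (nu2_one_lt v) (not_le.mp hc)))
    refine ⟨(-z).toNat, ?_⟩
    rw [Int.toNat_of_nonneg (by omega), neg_neg]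
    exact hz
  choose k hk using hk
  obtain ⟨e, he⟩ : ∃ e : HeightOneSpectrum (𝓞 K) → ℕ, e = fun v => (Associates.mk v.asIdeal).count (Associates.mk 𝔫).factors + k v * m := ⟨_, rfl⟩
  have hE : ∀ v : HeightOneSpectrum (𝓞 K), aI v 𝔫 * av v (d : K) ^ m = (Ideal.absNorm v.asIdeal : ℝ) ^ (-(e v : ℤ)) := by
    intro v
    have hn : (Ideal.absNorm v.asIdeal : ℝ) ≠ 0 := (hnpos v).ne'
    rw [hk v, he, ← zpow_natCast, ← _root_.zpow_mul]
    unfold aI
    rw [← zpow_add₀ hn]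
    congr 1
    push_cast
    ring
  obtain ⟨a, ha, ha0⟩ := Submodule.exists_mem_ne_zero_of_ne_bot h0
  have haK : (a : K) ≠ 0 := by
    intro h
    exact ha0 (NumberField.RingOfIntegers.coe_injective (h.trans (map_zero (algebraMap (𝓞 K) K)).symm))
  have hav : ∀ v : HeightOneSpectrum (𝓞 K), av v (a : K) ≤ aI v 𝔫 := (nu2_A h0 (a : K)).1 ⟨a, ha, rfl⟩
  obtain ⟨S, hS⟩ : ∃ S : Finset (HeightOneSpectrum (𝓞 K)), S = (FI.g1_fin1 haK).toFinset ∪ (FI.g1_fin1 hdK).toFinset := ⟨_, rfl⟩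
  have hSn : ∀ v, aI v 𝔫 ≠ 1 → v ∈ S := by
    intro v hv
    rw [hS, Finset.mem_union, Set.Finite.mem_toFinset]
    left
    have h1 : aI v 𝔫 < 1 := lt_of_le_of_ne (FI.g1_aI_le v 𝔫) hv
    exact ((hav v).trans_lt h1).ne
  have hSd : ∀ v, av v (d : K) ≠ 1 → v ∈ S := by
    intro v hv
    rw [hS, Finset.mem_union, Set.Finite.mem_toFinset, Set.Finite.mem_toFinset]
    right
    exact hv
  obtain ⟨y, hy⟩ := IsDedekindDomain.exists_forall_sub_mem_ideal (s := S) (fun v : HeightOneSpectrum (𝓞 K) => v.asIdeal) e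
    (fun v _ => v.prime) (fun v _ w _ hvw h => hvw (HeightOneSpectrum.ext h)) (fun v => if aI v.1 𝔫 ≠ 1 then 1 else 0)
  have h1 : ∀ v : HeightOneSpectrum (𝓞 K), aI v 𝔫 ≠ 1 → av v ((y : K) - 1) ≤ aI v 𝔫 * av v (d : K) ^ m := by
    intro v hv
    have h2 := hy v (hSn v hv)
    rw [if_pos hv] at h2
    have h3 := (nu2_le_pow v (y - 1) (e v)).2 h2
    rw [hE v]
    have h4 : ((y - 1 : 𝓞 K) : K) = (y : K) - 1 := by
      show algebraMap (𝓞 K) K (y - 1) = algebraMap (𝓞 K) K y - 1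
      rw [map_sub, map_one]
    rw [h4] at h3
    exact h3
  have h2 : ∀ v : HeightOneSpectrum (𝓞 K), aI v 𝔫 = 1 → av v (y : K) ≤ av v (d : K) ^ m := by
    intro v hv
    by_cases hd1 : av v (d : K) = 1
    · rw [hd1, one_pow]
      exact nu2_le_one v y
    · have h2 := hy v (hSd v hd1)
      rw [if_neg (not_not.mpr hv), sub_zero] at h2
      have h3 := (nu2_le_pow v y (e v)).2 h2
      have h4 := hE v
      rw [hv, one_mul] at h4
      rw [h4]
      exact h3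
  by_cases hy0 : y = 0
  · have hc : ∀ v : HeightOneSpectrum (𝓞 K), av v ((a * d ^ m : 𝓞 K) : K) ≤ aI v 𝔫 * av v (d : K) ^ m := by
      intro v
      have h3 : ((a * d ^ m : 𝓞 K) : K) = (a : K) * (d : K) ^ m := by
        show algebraMap (𝓞 K) K (a * d ^ m) = algebraMap (𝓞 K) K a * (algebraMap (𝓞 K) K d) ^ m
        rw [map_mul, map_pow]
      rw [h3, map_mul, map_pow]
      exact mul_le_mul_of_nonneg_right (hav v) (pow_nonneg (apply_nonneg _ _) _)
    refine ⟨a * d ^ m, mul_ne_zero ha0 (pow_ne_zero _ hd), fun v hv => ?_, fun v hv => ?_⟩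
    · have h3 := h1 v hv
      have h4 : ((y : 𝓞 K) : K) = 0 := by
        rw [hy0]
        exact map_zero (algebraMap (𝓞 K) K)
      rw [h4] at h3
      have h5 : ((a * d ^ m : 𝓞 K) : K) - 1 = ((a * d ^ m : 𝓞 K) : K) + ((0 : K) - 1) := by ring
      rw [h5]
      exact (FI.g1_nonarch v _ _).trans (max_le (hc v) h3)
    · have h3 := hc v
      rw [hv, one_mul] at h3
      exact h3
  · exact ⟨y, hy0, h1, h2⟩

end

end Pool.Agent.Lib.L8.F2
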