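import Pool.Agent.Lib.L8.F2.R0
import Pool.Agent.Lib.L8.FU.P1

/-!
# F2, chunk R3 (S/M): the torus element `c ^ (D ht)`
-/

namespace Pool.Agent.Lib.L8.F2

open Matrix NumberField IsDedekindDomain Pool.Agent.Lib.H89N Pool.Agent.Lib.L1S
open Pool.Agent.Lib.L8.FL (av aI Gv Kv Ah TK tv PJ G1 NJ nW wW IsWJ)
open Pool.Agent.Lib.L8.FI (Tor Tors Uu Iv Cg fh ch)

noncomputable section

set_option linter.unusedSectionVars false

variable {ι M N : Type} [Fintype ι] [DecidableEq ι] [AddCommGroup M] [Module ℚ M] [AddCommGroup N] [Module ℚ N]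
  {P : RootPairing ι ℚ M N} [P.IsCrystallographic] [P.IsReduced] [P.IsIrreducible] [P.IsRootSystem] {b : P.Base} {K : Type} [Field K] [NumberField K]

theorem r3_height (b : P.Base) (β : ι) : b.height β = ∑ k : b.support, mc b k (Sum.inr β) := by
  have h1 : ((b.height β : ℤ) : ℚ) = ((∑ k : b.support, mc b k (Sum.inr β) : ℤ) : ℚ) := by
    rw [b1_height, Int.cast_sum]
    refine Finset.sum_congr rfl fun k _ => ?_
    rw [d5_mc]
    rfl
  exact_mod_cast h1

/-- PROOF. `FU.cartan_om`: `∑_j ⟨α_i, α_j^∨⟩ x_j = 1` for all `i`, `x_j = ∑_k om_jk`, and `x_j = p_j / cw b j` with `p_j = ∑_k ∑_(β ∈ Phi b j) mc b k (inr β)` an integer, `cw b j > 0` (`cw_pos`). `D = ∏_j cw b j`, `c_j = p_j * ∏_(i ≠ j) cw b i`: then `pr b c (inr (i : ι)) = D` for the simple roots, and `pr b c (inr β) = D * ht b (inr β)`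
for all roots, because both sides are linear in the root (`d5_pairing`: `⟨β, α_j^∨⟩ = ∑_k m_k(β) ⟨α_k, α_j^∨⟩`; `b.height β = ∑_k m_k(β)`: see `d5_mc`, `Base.height`). -/
theorem scale_pr (b : P.Base) : ∃ (D : ℕ) (c : b.support → ℤ), 1 ≤ D ∧ ∀ r : I b, pr b c r = (D : ℤ) * ht b r := by
  classical
  obtain ⟨p, hp⟩ : ∃ p : b.support → ℤ, ∀ j, p j = ∑ k, ∑ β ∈ Phi b j, mc b k (Sum.inr β) := ⟨_, fun _ => rfl⟩
  obtain ⟨q, hq⟩ : ∃ q : b.support → ℤ, ∀ j, q j = ∏ i ∈ Finset.univ.erase j, cw b i := ⟨_, fun _ => rfl⟩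
  obtain ⟨D, hD⟩ : ∃ D : ℤ, D = ∏ i, cw b i := ⟨_, rfl⟩
  have hDpos : 0 < D := by
    rw [hD]
    exact Finset.prod_pos fun i _ => cw_pos i
  have hDq : ∀ j, D = cw b j * q j := by
    intro j
    rw [hD, hq]
    exact (Finset.mul_prod_erase Finset.univ (fun i => cw b i) (Finset.mem_univ j)).symm
  refine ⟨D.toNat, fun j => p j * q j, ?_, ?_⟩
  · omega
  intro r
  have hDn : ((D.toNat : ℕ) : ℤ) = D := Int.toNat_of_nonneg hDpos.le
  rw [hDn]
  rcases r with i | β
  · show (0 : ℤ) = D * 0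
    rw [mul_zero]
  · show ∑ j, (p j * q j) * P.pairingIn ℤ β j = D * b.height β
    have hx : ∀ j, (((p j * q j : ℤ)) : ℝ) = (D : ℝ) * ∑ k, FL.om b j k := by
      intro j
      have hc : ((cw b j : ℤ) : ℝ) ≠ 0 := by exact_mod_cast (cw_pos j).ne'
      have h1 : ∑ k, FL.om b j k = ((p j : ℤ) : ℝ) / ((cw b j : ℤ) : ℝ) := by
        unfold FL.om
        rw [← Finset.sum_div, hp]
        push_cast
        rfl
      rw [h1, hDq j]
      push_cast
      field_simp
    have hk : ∀ k : b.support, ∑ j, b.cartanMatrix k j * (p j * q j) = D := by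
      intro k
      have h1 : (((∑ j, b.cartanMatrix k j * (p j * q j) : ℤ)) : ℝ) = (D : ℝ) := by
        push_cast
        have h2 : ∀ j : b.support, (b.cartanMatrix k j : ℝ) * ((p j : ℝ) * (q j : ℝ)) = (D : ℝ) * ∑ l, (b.cartanMatrix k j : ℝ) * FL.om b j l := by
          intro j
          have h3 := hx j
          push_cast at h3
          rw [h3, ← Finset.mul_sum]
          ring
        rw [Finset.sum_congr rfl fun j _ => h2 j, ← Finset.mul_sum, Finset.sum_comm]
        rw [Finset.sum_congr rfl fun l _ => FU.cartan_om k l]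
        rw [Finset.sum_ite_eq Finset.univ k (fun _ => (1 : ℝ)), if_pos (Finset.mem_univ k), mul_one]
      exact_mod_cast h1
    rw [r3_height, Finset.mul_sum]
    have h4 : ∀ j : b.support, (p j * q j) * P.pairingIn ℤ β j = ∑ k : b.support, mc b k (Sum.inr β) * (b.cartanMatrix k j * (p j * q j)) := by
      intro j
      rw [d5_pairing, Finset.mul_sum]
      refine Finset.sum_congr rfl fun k _ => ?_
      ring
    rw [Finset.sum_congr rfl fun j _ => h4 j, Finset.sum_comm]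
    refine Finset.sum_congr rfl fun k _ => ?_
    rw [← Finset.mul_sum, hk k]
    ring

/-- PROOF. `scale_pr` and `de_lam` for `s = c⁻¹` (or for `-c_j`). -/
theorem scale_t (b : P.Base) (K : Type) [Field K] [NumberField K] : ∃ D : ℕ, 1 ≤ D ∧ ∀ c : Kˣ, ∃ t : GK b K, Tor t ∧ ∀ r, t.1.1 r r = (c : K) ^ ((D : ℤ) * ht b r) := by
  obtain ⟨D, c, hD, h⟩ := scale_pr b
  refine ⟨D, hD, fun s => ?_⟩
  obtain ⟨d, hd⟩ := de_lam (b := b) (K := K) (fun j => -c j) s
  refine ⟨d, ?_, ?_⟩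
  · intro r r' hr
    rw [hd, Matrix.diagonal_apply_ne _ hr]
  · intro r
    rw [hd, Matrix.diagonal_apply_eq]
    congr 1
    have h1 : -pr b (fun j => -c j) r = pr b c r := by
      rcases r with i | β
      · show -(0 : ℤ) = 0
        rfl
      · show -∑ j, (-c j) * P.pairingIn ℤ β j = ∑ j, c j * P.pairingIn ℤ β j
        rw [← Finset.sum_neg_distrib]
        refine Finset.sum_congr rfl fun j _ => ?_
        ring
    rw [h1, h]

end

end Pool.Agent.Lib.L8.F2
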