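import Pool.Agent.Lib.L8.F2.R0

/-!
# F2, chunk R5 (M): the scaled element, locally
-/

namespace Pool.Agent.Lib.L8.F2

open Matrix NumberField IsDedekindDomain Pool.Agent.Lib.H89N Pool.Agent.Lib.L1S
open Pool.Agent.Lib.L8.FL (av aI Gv Kv Ah TK tv PJ G1 NJ nW wW IsWJ)
open Pool.Agent.Lib.L8.FI (Tor Tors Uu Iv Cg fh ch)

noncomputable section

set_option linter.unusedSectionVars false

variable {ι M N : Type} [Fintype ι] [DecidableEq ι] [AddCommGroup M] [Module ℚ M] [AddCommGroup N] [Module ℚ N]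
  {P : RootPairing ι ℚ M N} [P.IsCrystallographic] [P.IsReduced] [P.IsIrreducible] [P.IsRootSystem] {b : P.Base} {K : Type} [Field K] [NumberField K]

theorem r5_conj {D : ℕ} {c : K} {t u : GK b K} (hT : Tor t) (htc : ∀ r, t.1.1 r r = c ^ ((D : ℤ) * ht b r)) (hc0 : c ≠ 0)
    (hu : Uu u) (r s : I b) :
    (ht b r ≤ ht b s ∧ (t * u * t⁻¹).1.1 r s = (1 : Matrix (I b) (I b) K) r s ∧ u.1.1 r s = (1 : Matrix (I b) (I b) K) r s) ∨
      (ht b s < ht b r ∧ (t * u * t⁻¹).1.1 r s = c ^ (D * (ht b r - ht b s).toNat) * u.1.1 r s) := by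
  rcases le_or_gt (ht b r) (ht b s) with h | h
  · refine Or.inl ⟨h, ?_, hu r s (by omega)⟩
    exact (hT.conj_Uu hu) r s (by omega)
  · refine Or.inr ⟨h, ?_⟩
    rw [hT.conj_val, htc r, htc s]
    have e : c ^ (D * (ht b r - ht b s).toNat) = c ^ ((D : ℤ) * ht b r) * (c ^ ((D : ℤ) * ht b s))⁻¹ := by
      rw [← zpow_natCast, ← _root_.zpow_neg, ← zpow_add₀ hc0]
      congr 1
      push_cast
      rw [Int.toNat_of_nonneg (by omega)]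
      ring
    rw [e]
    ring

variable {v : AbsoluteValue K ℝ} (hv : IsNonarchimedean (v : K → ℝ))

include hv in
theorem r5_pow {c : K} (hc : v c ≤ 1) (k : ℕ) : v (c ^ k - 1) ≤ v (c - 1) := by
  rw [← geom_sum_mul, map_mul]
  have h1 : v (∑ i ∈ Finset.range k, c ^ i) ≤ 1 :=
    FI.v_sum_le hv _ _ zero_le_one fun i _ => by
      rw [map_pow]
      exact pow_le_one₀ (apply_nonneg v _) hc
  calc v (∑ i ∈ Finset.range k, c ^ i) * v (c - 1) ≤ 1 * v (c - 1) :=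
        mul_le_mul_of_nonneg_right h1 (apply_nonneg v _)
    _ = v (c - 1) := one_mul _

include hv in
theorem r5_diff {D : ℕ} {c δ : K} {t u : GK b K} {ν : ℝ} (hν : 0 ≤ ν) (hT : Tor t)
    (htc : ∀ r, t.1.1 r r = c ^ ((D : ℤ) * ht b r)) (hc0 : c ≠ 0) (hc : v c ≤ 1) (hδ0 : δ ≠ 0)
    (hc1 : v (c - 1) ≤ ν * v δ ^ 2) (hu : Uu u) (hud : ∀ r s, v δ * v (u.1.1 r s) ≤ 1) (r s : I b) :
    v ((t * u * t⁻¹).1.1 r s - u.1.1 r s) ≤ ν * v δ := by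
  have hδ : 0 < v δ := v.pos hδ0
  rcases r5_conj hT htc hc0 hu r s with ⟨_, h1, h2⟩ | ⟨_, h1⟩
  · rw [h1, h2, sub_self, map_zero]
    positivity
  · rw [h1]
    have e : c ^ (D * (ht b r - ht b s).toNat) * u.1.1 r s - u.1.1 r s =
        (c ^ (D * (ht b r - ht b s).toNat) - 1) * u.1.1 r s := by ring
    rw [e, map_mul]
    have h2 := r5_pow hv hc (D * (ht b r - ht b s).toNat)
    calc v (c ^ (D * (ht b r - ht b s).toNat) - 1) * v (u.1.1 r s) ≤ (ν * v δ ^ 2) * v (u.1.1 r s) :=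
          mul_le_mul_of_nonneg_right (h2.trans hc1) (apply_nonneg v _)
      _ = ν * v δ * (v δ * v (u.1.1 r s)) := by ring
      _ ≤ ν * v δ * 1 := mul_le_mul_of_nonneg_left (hud r s) (by positivity)
      _ = ν * v δ := mul_one _

theorem r5_le {D : ℕ} {c : K} {t u : GK b K} (hT : Tor t) (htc : ∀ r, t.1.1 r r = c ^ ((D : ℤ) * ht b r)) (hc0 : c ≠ 0)
    (hc : v c ≤ 1) (hu : Uu u) (r s : I b) : v ((t * u * t⁻¹).1.1 r s) ≤ v (u.1.1 r s) := by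
  rcases r5_conj hT htc hc0 hu r s with ⟨_, h1, h2⟩ | ⟨_, h1⟩
  · rw [h1, h2]
  · rw [h1, map_mul, map_pow]
    exact mul_le_of_le_one_left (apply_nonneg v _) (pow_le_one₀ (apply_nonneg v _) hc)

theorem r5_inv (t y : GK b K) : (t * y * t⁻¹)⁻¹ = t * y⁻¹ * t⁻¹ := by group

include hv in
theorem r5_prod {ν : ℝ} (hν : 0 ≤ ν) {δ : K} (hδ0 : δ ≠ 0) {A B : Matrix (I b) (I b) K} (hA : ∀ r s, v δ * v (A r s) ≤ 1)
    (hB : ∀ r s, v (B r s) ≤ ν * v δ) (r s : I b) : v ((A * B) r s) ≤ ν := by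
  have hδ : 0 < v δ := v.pos hδ0
  rw [Matrix.mul_apply]
  refine FI.v_sum_le hv _ _ hν fun q _ => ?_
  rw [map_mul]
  calc v (A r q) * v (B q s) ≤ v (A r q) * (ν * v δ) := mul_le_mul_of_nonneg_left (hB q s) (apply_nonneg v _)
    _ = ν * (v δ * v (A r q)) := by ring
    _ ≤ ν * 1 := mul_le_mul_of_nonneg_left (hA r q) hν
    _ = ν := mul_one _

include hv in
/-- At the places of `𝔫` the scaled element `t y t⁻¹` is near `y`.
PROOF. Put `x = t y t⁻¹`: `x_rs = c ^ (D (ht r - ht s)) y_rs` (`Tor.conj_val`), the same for `x⁻¹ = t y⁻¹ t⁻¹`. Both `y` and `y⁻¹` are the identity in the entries with `ht r ≤ ht s` (`hy`: `Uu`, `Uu.inv`; `UTk b 1`, see `Uu.uni` for the form), so `(x - y)_rs = (c ^ k - 1) y_rs` with `k = D (ht r - ht s)` a natural number (otherwise both are equal).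
`v (c ^ k - 1) ≤ v (c - 1)` because `v c ≤ 1` (`c ^ k - 1 = (c - 1) ∑ c ^ i`, `FI.v_sum_le`). `v δ * v (y_rs) ≤ 1`: so `v ((x - y)_rs) * v δ ≤ ν v δ ^ 2`. `y⁻¹ x - 1 = y⁻¹ (x - y)`: `v (entry) ≤ ν` (`FI.v_sum_le`; `v δ ≠ 0`). `(y⁻¹ x)⁻¹ - 1 = x⁻¹ y - 1 = x⁻¹ (y - x)`, `v (x⁻¹_rs) ≤ v (y⁻¹_rs)` (`v c ≤ 1`). -/
theorem sc_near {D : ℕ} {c δ : K} {t y : GK b K} {ν : ℝ} (hν : 0 ≤ ν) (hT : Tor t) (htc : ∀ r, t.1.1 r r = c ^ ((D : ℤ) * ht b r)) (hc0 : c ≠ 0) (hc : v c ≤ 1) (hδ0 : δ ≠ 0)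
    (hc1 : v (c - 1) ≤ ν * v δ ^ 2) (hy : Uu y) (hyd : ∀ r s, v δ * v (y.1.1 r s) ≤ 1 ∧ v δ * v (y⁻¹.1.1 r s) ≤ 1) : Cg v ν (y⁻¹ * (t * y * t⁻¹)) := by
  have hdiff := r5_diff hv hν hT htc hc0 hc hδ0 hc1 hy (fun r s => (hyd r s).1)
  have hδ : 0 < v δ := v.pos hδ0
  constructor
  · intro r s
    have e : (y⁻¹ * (t * y * t⁻¹)).1.1 - 1 = y⁻¹.1.1 * ((t * y * t⁻¹).1.1 - y.1.1) := by
      rw [FI.f_mul, Matrix.mul_sub, FI.f_im]
    rw [e]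
    refine r5_prod hv hν hδ0 (fun r s => (hyd r s).2) (fun r s => ?_) r s
    rw [Matrix.sub_apply]
    exact hdiff r s
  · intro r s
    have e0 : (y⁻¹ * (t * y * t⁻¹))⁻¹ = (t * y⁻¹ * t⁻¹) * y := by group
    have e1 : (t * y⁻¹ * t⁻¹) * (t * y * t⁻¹) = 1 := by group
    have e2 : (t * y⁻¹ * t⁻¹).1.1 * (t * y * t⁻¹).1.1 = 1 := by rw [← FI.f_mul, e1, FI.f_one]
    have e : ((y⁻¹ * (t * y * t⁻¹))⁻¹).1.1 - 1 = (t * y⁻¹ * t⁻¹).1.1 * (y.1.1 - (t * y * t⁻¹).1.1) := by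
      rw [e0, FI.f_mul, Matrix.mul_sub, e2]
    rw [e]
    refine r5_prod hv hν hδ0 (fun r s => ?_) (fun r s => ?_) r s
    · exact (mul_le_mul_of_nonneg_left (r5_le hT htc hc0 hc hy.inv r s) hδ.le).trans (hyd r s).2
    · rw [Matrix.sub_apply, v.map_sub]
      exact hdiff r s

include hv in
theorem r5_far {D : ℕ} (hD : 1 ≤ D) {c δ : K} {t y z : GK b K} (hT : Tor t) (htc : ∀ r, t.1.1 r r = c ^ ((D : ℤ) * ht b r)) (hc0 : c ≠ 0) (hδ0 : δ ≠ 0) (hδ1 : v δ ≤ 1)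
    (hc : v c ≤ v δ ^ 3) (hy : Uu y) (hyd : ∀ r s, v δ * v (y.1.1 r s) ≤ 1) (hzd : ∀ r s, v δ * v (z.1.1 r s) ≤ 1 ∧ v δ * v (z⁻¹.1.1 r s) ≤ 1)
    (r s : I b) : v ((z⁻¹ * (t * y * t⁻¹) * z).1.1 r s) ≤ 1 := by
  have hδ : 0 < v δ := v.pos hδ0
  have hc1 : v c ≤ 1 := hc.trans (pow_le_one₀ hδ.le hδ1)
  have h1 : ∀ r s, v (((t * y * t⁻¹).1.1 - 1) r s) ≤ v δ ^ 2 := by
    intro r s
    rw [Matrix.sub_apply]
    rcases r5_conj hT htc hc0 hy r s with ⟨_, h1, h2⟩ | ⟨h0, h1⟩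
    · rw [h1, sub_self, map_zero]
      positivity
    · have hne : r ≠ s := fun e => by
        subst e
        exact lt_irrefl _ h0
      rw [h1, Matrix.one_apply_ne hne, sub_zero, map_mul, map_pow]
      have hk : 1 ≤ D * (ht b r - ht b s).toNat := by
        have h3 : 1 ≤ (ht b r - ht b s).toNat := by omega
        exact Nat.one_le_iff_ne_zero.2 (Nat.mul_ne_zero (by omega) (by omega))
      have hpow : v c ^ (D * (ht b r - ht b s).toNat) ≤ v c := by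
        calc v c ^ (D * (ht b r - ht b s).toNat) ≤ v c ^ 1 := pow_le_pow_of_le_one (apply_nonneg v _) hc1 hk
          _ = v c := pow_one _
      calc v c ^ (D * (ht b r - ht b s).toNat) * v (y.1.1 r s) ≤ v δ ^ 3 * v (y.1.1 r s) :=
            mul_le_mul_of_nonneg_right (hpow.trans hc) (apply_nonneg v _)
        _ = v δ ^ 2 * (v δ * v (y.1.1 r s)) := by ring
        _ ≤ v δ ^ 2 * 1 := mul_le_mul_of_nonneg_left (hyd r s) (by positivity)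
        _ = v δ ^ 2 := mul_one _
  have e : (z⁻¹ * (t * y * t⁻¹) * z).1.1 = 1 + z⁻¹.1.1 * (((t * y * t⁻¹).1.1 - 1) * z.1.1) := by
    rw [FI.f_mul, FI.f_mul, Matrix.sub_mul, Matrix.mul_sub, one_mul, FI.f_im, Matrix.mul_assoc]
    abel
  rw [e, Matrix.add_apply]
  refine (hv _ _).trans (max_le ?_ ?_)
  · by_cases h : r = s
    · subst h
      rw [Matrix.one_apply_eq, map_one]
    · rw [Matrix.one_apply_ne h, map_zero]
      exact zero_le_one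
  · refine r5_prod hv zero_le_one hδ0 (fun r s => (hzd r s).2) (fun r s => ?_) r s
    rw [one_mul, Matrix.mul_apply]
    refine FI.v_sum_le hv _ _ hδ.le fun q _ => ?_
    rw [map_mul]
    calc v (((t * y * t⁻¹).1.1 - 1) r q) * v (z.1.1 q s) ≤ v δ ^ 2 * v (z.1.1 q s) :=
          mul_le_mul_of_nonneg_right (h1 r q) (apply_nonneg v _)
      _ = v δ * (v δ * v (z.1.1 q s)) := by ring
      _ ≤ v δ * 1 := mul_le_mul_of_nonneg_left (hzd q s).1 hδ.le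
      _ = v δ := mul_one _

include hv in
/-- At the other places the scaled element is near `1`.
PROOF. `x - 1` has the entries `c ^ k y_rs` with `k = D (ht r - ht s) ≥ 1` and `0` otherwise: `v (entry) ≤ v c / v δ ≤ v δ ^ 2` (`hc`, `v c ≤ 1`: `v (c ^ k) ≤ v c`). `z⁻¹ x z = 1 + z⁻¹ (x - 1) z`, each entry is a double sum of terms `v ≤ (v δ)⁻¹ * v δ ^ 2 * (v δ)⁻¹ = 1`. The inverse is `z⁻¹ x⁻¹ z`, `x⁻¹ = t y⁻¹ t⁻¹`. Here `v δ ≤ 1`. -/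
theorem sc_far {D : ℕ} (hD : 1 ≤ D) {c δ : K} {t y z : GK b K} (hT : Tor t) (htc : ∀ r, t.1.1 r r = c ^ ((D : ℤ) * ht b r)) (hc0 : c ≠ 0) (hδ0 : δ ≠ 0) (hδ1 : v δ ≤ 1)
    (hc : v c ≤ v δ ^ 3) (hy : Uu y) (hyd : ∀ r s, v δ * v (y.1.1 r s) ≤ 1 ∧ v δ * v (y⁻¹.1.1 r s) ≤ 1) (hzd : ∀ r s, v δ * v (z.1.1 r s) ≤ 1 ∧ v δ * v (z⁻¹.1.1 r s) ≤ 1) : Iv v (z⁻¹ * (t * y * t⁻¹) * z) := by
  refine ⟨r5_far hv hD hT htc hc0 hδ0 hδ1 hc hy (fun r s => (hyd r s).1) hzd, ?_⟩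
  have e : (z⁻¹ * (t * y * t⁻¹) * z)⁻¹ = z⁻¹ * (t * y⁻¹ * t⁻¹) * z := by group
  rw [e]
  exact r5_far hv hD hT htc hc0 hδ0 hδ1 hc hy.inv (fun r s => (hyd r s).2) hzd

end

end Pool.Agent.Lib.L8.F2
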