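import Pool.Agent.Lib.L8.F2.R1
import Pool.Agent.Lib.L8.F2.R2
import Pool.Agent.Lib.L8.F2.R3
import Pool.Agent.Lib.L8.F2.R5

/-!
# F2, chunk R6 (S): strong approximation in `N_J`
-/

namespace Pool.Agent.Lib.L8.F2

open Matrix NumberField IsDedekindDomain Pool.Agent.Lib.H89N Pool.Agent.Lib.L1S
open Pool.Agent.Lib.L8.FL (av aI Gv Kv Ah TK tv PJ G1 NJ nW wW IsWJ)
open Pool.Agent.Lib.L8.FI (Tor Tors Uu Iv Cg fh ch)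

noncomputable section

set_option linter.unusedSectionVars false

variable {ι M N : Type} [Fintype ι] [DecidableEq ι] [AddCommGroup M] [Module ℚ M] [AddCommGroup N] [Module ℚ N]
  {P : RootPairing ι ℚ M N} [P.IsCrystallographic] [P.IsReduced] [P.IsIrreducible] [P.IsRootSystem] {b : P.Base} {K : Type} [Field K] [NumberField K]

/-- **Strong approximation** in the unipotent group `N_J(K)`.
PROOF. `r1_denG {y, z}` gives `d`; `crt_elt h0 hd 3` gives `c`; `scale_t` gives `D` and `t`; `x = t * y * t⁻¹`, in `NJ b K J` by `FC.TK_NJ`. At `v ∣ 𝔫`: `sc_near` with `δ = d`, `ν = aI v 𝔫` (`av v (c - 1) ≤ aI v 𝔫 * av v d ^ 3 ≤ aI v 𝔫 * av v d ^ 2`), `FI.g1_Kv`. Elsewhere: `sc_far`, `FI.g1_Gv`. -/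
theorem sa_NJ (J : Finset b.support) {𝔫 : Ideal (𝓞 K)} (h0 : 𝔫 ≠ ⊥) (z : GK b K) {y : GK b K} (hy : y ∈ NJ b K J) :
    ∃ x ∈ NJ b K J, (∀ v : HeightOneSpectrum (𝓞 K), aI v 𝔫 ≠ 1 → y⁻¹ * x ∈ Kv b 𝔫 v) ∧ ∀ v : HeightOneSpectrum (𝓞 K), aI v 𝔫 = 1 → z⁻¹ * x * z ∈ Gv b v := by
  classical
  obtain ⟨d, hd, hden⟩ := r1_denG (b := b) (K := K) {y, z}
  obtain ⟨c, hc0, hc1, hc2⟩ := crt_elt h0 hd 3
  obtain ⟨D, hD, hsc⟩ := scale_t b K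
  have hcK : (c : K) ≠ 0 := fun h => hc0 (by exact_mod_cast h)
  have hdK : (d : K) ≠ 0 := fun h => hd (by exact_mod_cast h)
  obtain ⟨t, hT, htc⟩ := hsc (Units.mk0 (c : K) hcK)
  have htc' : ∀ r, t.1.1 r r = (c : K) ^ ((D : ℤ) * ht b r) := fun r => htc r
  have hyU : Uu y := (FI.g1_HU b y).1 hy.1
  have hyd : ∀ (v : HeightOneSpectrum (𝓞 K)) (r s : I b), av v (d : K) * av v (y.1.1 r s) ≤ 1 ∧ av v (d : K) * av v (y⁻¹.1.1 r s) ≤ 1 := fun v r s => hden y (by simp) v r s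
  have hzd : ∀ (v : HeightOneSpectrum (𝓞 K)) (r s : I b), av v (d : K) * av v (z.1.1 r s) ≤ 1 ∧ av v (d : K) * av v (z⁻¹.1.1 r s) ≤ 1 := fun v r s => hden z (by simp) v r s
  refine ⟨t * y * t⁻¹, FC.TK_NJ ((FI.g1_TK b t).2 hT) hy, fun v hv => ?_, fun v hv => ?_⟩
  · rw [FI.g1_Kv]
    refine sc_near (FI.g1_nonarch v) (FI.g1_aI_pos v 𝔫).le hT htc' hcK (r1_int v c) hdK ?_ hyU (hyd v)
    refine (hc1 v hv).trans (mul_le_mul_of_nonneg_left ?_ (FI.g1_aI_pos v 𝔫).le)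
    exact pow_le_pow_of_le_one (apply_nonneg (av v) _) (r1_int v d) (by norm_num)
  · rw [FI.g1_Gv]
    exact sc_far (FI.g1_nonarch v) hD hT htc' hcK hdK (r1_int v d) (hc2 v hv) hyU (hyd v) (hzd v)

/-- PROOF. `sa_NJ` for `y = u⁻¹ * (σ * u * σ⁻¹)` (in `NJ b K J` by `FC.TK_NJ`), `u₁ = u * x`: `(σ u σ⁻¹)⁻¹ * (u x) = y⁻¹ x` and `u⁻¹ * (u x) = x`. -/
theorem lift_u (J : Finset b.support) {𝔫 : Ideal (𝓞 K)} (h0 : 𝔫 ≠ ⊥) (z : GK b K) {u σ : GK b K} (hu : u ∈ NJ b K J) (hσ : σ ∈ TK b K) :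
    ∃ u₁ ∈ NJ b K J, (∀ v : HeightOneSpectrum (𝓞 K), aI v 𝔫 ≠ 1 → (σ * u * σ⁻¹)⁻¹ * u₁ ∈ Kv b 𝔫 v) ∧ ∀ v : HeightOneSpectrum (𝓞 K), aI v 𝔫 = 1 → z⁻¹ * (u⁻¹ * u₁) * z ∈ Gv b v := by
  have hy : u⁻¹ * (σ * u * σ⁻¹) ∈ NJ b K J := mul_mem (inv_mem hu) (FC.TK_NJ hσ hu)
  obtain ⟨x, hx, hx1, hx2⟩ := sa_NJ J h0 z hy
  refine ⟨u * x, mul_mem hu hx, fun v hv => ?_, fun v hv => ?_⟩
  · have h1 := hx1 v hv
    have e : (σ * u * σ⁻¹)⁻¹ * (u * x) = (u⁻¹ * (σ * u * σ⁻¹))⁻¹ * x := by group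
    rw [e]
    exact h1
  · rw [inv_mul_cancel_left]
    exact hx2 v hv

end

end Pool.Agent.Lib.L8.F2
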