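import Pool.Agent.Lib.L8.F2.R4
import Pool.Agent.Lib.L8.F2.R8

/-!
# F2, chunk R9 (M): the translate lies in `L_τ`
-/

namespace Pool.Agent.Lib.L8.F2

open Matrix NumberField IsDedekindDomain Pool.Agent.Lib.H89N Pool.Agent.Lib.L1S
open Pool.Agent.Lib.L8.FL (av aI Gv Kv Ah TK tv PJ G1 NJ nW wW IsWJ)
open Pool.Agent.Lib.L8.FI (Tor Tors Uu Iv Cg fh ch)

noncomputable section

set_option linter.unusedSectionVars false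

variable {ι M N : Type} [Fintype ι] [DecidableEq ι] [AddCommGroup M] [Module ℚ M] [AddCommGroup N] [Module ℚ N]
  {P : RootPairing ι ℚ M N} [P.IsCrystallographic] [P.IsReduced] [P.IsIrreducible] [P.IsRootSystem] {b : P.Base} {K : Type} [Field K] [NumberField K]

/-- PROOF. `L_τ` is right invariant: `n c l z' = n c z' (z'⁻¹ l z')`, `FI.Chi_right`, `FI.Ah_G1`. -/
theorem Lt_inv {J : Finset b.support} {L : List b.support} {𝔫 : Ideal (𝓞 K)} (h0 : 𝔫 ≠ ⊥) {z z' τ c l : GK b K} (hc : c ∈ Lt b K J L 𝔫 z z' τ) (hl : l ∈ NJ b K J) (hl' : z'⁻¹ * l * z' ∈ G1 b 𝔫) : c * l ∈ Lt b K J L 𝔫 z z' τ := by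
  obtain ⟨h1, h2, h3⟩ := hc
  have e : nW b K L * (c * l) * z' = (nW b K L * c * z') * (z'⁻¹ * l * z') := by group
  refine ⟨mul_mem h1 hl, fun k => ?_, fun v k => ?_⟩
  · rw [e]
    exact (FI.Chi_right b h0 hl' _).2 (h2 k)
  · rw [e, FI.Ah_G1 b v h0 hl']
    exact h3 v k

/-- PROOF. `u' τ n (u l) = z γ z'⁻¹ l = z (γ (z'⁻¹ l z')) z'⁻¹`. -/
theorem Xt_inv {J : Finset b.support} {L : List b.support} {𝔫 : Ideal (𝓞 K)} {z z' τ u l : GK b K} (hu : u ∈ Xt b K J L 𝔫 z z' τ) (hl : l ∈ NJ b K J) (hl' : z'⁻¹ * l * z' ∈ G1 b 𝔫) : u * l ∈ Xt b K J L 𝔫 z z' τ := by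
  obtain ⟨h1, u', hu', γ, hγ, e⟩ := hu
  refine ⟨mul_mem h1 hl, u', hu', γ * (z'⁻¹ * l * z'), mul_mem hγ hl', ?_⟩
  calc u' * τ * nW b K L * (u * l) = (u' * τ * nW b K L * u) * l := by group
    _ = z * γ * z'⁻¹ * l := by rw [e]
    _ = z * (γ * (z'⁻¹ * l * z')) * z'⁻¹ := by group

/-- **The translate lies in `L_τ`.** PROOF. Let `u' τ n u = z γ z'⁻¹`, `σ = α_i^∨(s)`. At `v` with `aI v 𝔫 ≠ 1`: `r8_loc` (`fh_Gv`, `FI.g1_mem_G1`), torus part `ρ = n σ n⁻¹ τ⁻¹ σ⁻¹ ∈ T(K)` (`fh_conj_TK`): so `Chi` (`FI.Chi_mk` with `p = ρ u₂`: `FI.g1_PJ`, `Tor.toPj`, `Uu.toPj`, `Pj.mul`) and `Ah b v (n u₁ z') k = av v (tv ρ k)` (write `ρ u₂ = (ρ u₂ ρ⁻¹) ρ` and use `FI.Ah_utk`, `FI.g1_Kv_Gv`) `= (av v (tv τ k))⁻¹`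
(`FI.tv_mul`, `FI.tv_inv`, `fh_conj_tv` and `av v s = 1`); `Ah b v z k = 1` (`FI.Ah_Gv`). At `v` with `aI v 𝔫 = 1`: `n u₁ z' = (n u z') (z'⁻¹ (u⁻¹ u₁) z')`, `FI.Ah_K`; `av v (tv τ k) * Ah b v (n u z') k = Ah b v (τ n u z') k = Ah b v (u' τ n u z') k` (`FI.Ah_T`, `FI.Ah_U`) and `u' τ n u z' = z γ`, `FI.Ah_G1`. -/
theorem r9_L {J : Finset b.support} {L : List b.support} {𝔫 : Ideal (𝓞 K)} (h0 : 𝔫 ≠ ⊥) {z z' τ : GK b K} (hz : ∀ v : HeightOneSpectrum (𝓞 K), aI v 𝔫 ≠ 1 → z ∈ Kv b 𝔫 v) (hz' : ∀ v : HeightOneSpectrum (𝓞 K), aI v 𝔫 ≠ 1 → z' ∈ Kv b 𝔫 v)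
    (hτ : τ ∈ TK b K) (i : b.support) {s : Kˣ} (hs : ∀ v : HeightOneSpectrum (𝓞 K), aI v 𝔫 ≠ 1 → av v (s : K) = 1) {u u₁ : GK b K} (hu : u ∈ Xt b K J L 𝔫 z z' τ) (hu1 : u₁ ∈ NJ b K J)
    (h1 : ∀ v : HeightOneSpectrum (𝓞 K), aI v 𝔫 ≠ 1 → (fh b i s * u * (fh b i s)⁻¹)⁻¹ * u₁ ∈ Kv b 𝔫 v) (h2 : ∀ v : HeightOneSpectrum (𝓞 K), aI v 𝔫 = 1 → z'⁻¹ * (u⁻¹ * u₁) * z' ∈ Gv b v) :
    u₁ ∈ Lt b K J L 𝔫 z z' τ := by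
  obtain ⟨-, u', hu', γ, hγ, e⟩ := hu
  have hρ : nW b K L * fh b i s * (nW b K L)⁻¹ * τ⁻¹ * (fh b i s)⁻¹ ∈ TK b K :=
    mul_mem (mul_mem (fh_conj_TK L i s) (inv_mem hτ)) (inv_mem (fh_TK i s))
  have hloc : ∀ v : HeightOneSpectrum (𝓞 K), aI v 𝔫 ≠ 1 → ∃ u₂ ∈ HU b K, ∃ κ ∈ Kv b 𝔫 v,
      nW b K L * u₁ * z' = (nW b K L * fh b i s * (nW b K L)⁻¹ * τ⁻¹ * (fh b i s)⁻¹) * u₂ * κ := fun v hv =>
    r8_loc (fh_TK i s) (fh_Gv i (hs v hv)) (hz v hv) (hz' v hv) hu' (FI.g1_mem_G1 b v h0 hγ) e (h1 v hv)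
  refine ⟨hu1, fun k => ?_, fun v k => ?_⟩
  · refine FI.Chi_mk b fun v hv => ?_
    obtain ⟨u₂, hu2, κ, hκ, e2⟩ := hloc v hv
    refine ⟨_, (FI.g1_PJ b k _).2 ((((FI.g1_TK b _).1 hρ).toPj k).mul (((FI.g1_HU b u₂).1 hu2).toPj k)), κ, hκ, e2⟩
  · by_cases hv : aI v 𝔫 = 1
    · have e3 : nW b K L * u₁ * z' = (nW b K L * u * z') * (z'⁻¹ * (u⁻¹ * u₁) * z') := by group
      have e4 : u' * (τ * (nW b K L * u * z')) = z * γ := by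
        calc u' * (τ * (nW b K L * u * z')) = (u' * τ * nW b K L * u) * z' := by group
          _ = z * γ * z'⁻¹ * z' := by rw [e]
          _ = z * γ := by group
      rw [e3, FI.Ah_K b v (h2 v hv), ← FI.Ah_T b v hτ, ← FI.Ah_U b v hu', e4, FI.Ah_G1 b v h0 hγ]
    · obtain ⟨u₂, hu2, κ, hκ, e2⟩ := hloc v hv
      have e5 : ∀ ρ : GK b K, ρ * u₂ * κ = (ρ * u₂ * ρ⁻¹) * ρ * κ := fun ρ => by group
      rw [e2, e5, FI.Ah_utk b v (FC.TK_HU hρ hu2) hρ (FI.g1_Kv_Gv b v hκ), FI.Ah_Gv b v (FI.g1_Kv_Gv b v (hz v hv))]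
      have hsm : ∀ m : ℤ, av v ((s : K) ^ m) = 1 := fun m => by
        rw [map_zpow₀, hs v hv, _root_.one_zpow]
      have hτ0 : av v (tv b K τ k) ≠ 0 := (av v).ne_zero (FI.tv_ne b hτ k)
      rw [FI.tv_mul b (mul_mem (fh_conj_TK L i s) (inv_mem hτ)), FI.tv_mul b (fh_conj_TK L i s), FI.tv_inv b hτ, FI.tv_inv b (fh_TK i s), (fh_conj_tv L i k s).1, (fh_conj_tv L i k s).2,
        map_mul, map_mul, map_inv₀, map_inv₀, hsm, hsm, one_mul, inv_one, mul_one, mul_inv_cancel₀ hτ0]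

end

end Pool.Agent.Lib.L8.F2
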