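import Pool.Agent.Lib.L8.F2.N7
import Pool.Agent.Lib.L8.F2.R6
import Pool.Agent.Lib.L8.F2.R9
import Pool.Agent.Lib.L8.F2.R10
import Pool.Agent.Lib.L8.F2.R11

/-!
# F2, R12 (helper89): the gain of one torus direction
-/

namespace Pool.Agent.Lib.L8.F2

open Matrix NumberField IsDedekindDomain Pool.Agent.Lib.H89N Pool.Agent.Lib.L1S
open Pool.Agent.Lib.L8.FL (av aI Gv Kv Ah TK tv PJ G1 NJ nW wW IsWJ)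
open Pool.Agent.Lib.L8.FI (Tor Tors Uu Iv Cg fh ch)

noncomputable section

set_option linter.unusedSectionVars false

variable {ι M N : Type} [Fintype ι] [DecidableEq ι] [AddCommGroup M] [Module ℚ M] [AddCommGroup N] [Module ℚ N]
  {P : RootPairing ι ℚ M N} [P.IsCrystallographic] [P.IsReduced] [P.IsIrreducible] [P.IsRootSystem] {b : P.Base} {K : Type} [Field K] [NumberField K]

/-- The sets `S` with one constant for the three exponents. -/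
theorem pow_classes3 (K : Type) [Field K] [NumberField K] {ε : ℝ} (hε : 0 < ε) : ∃ c : ℝ, 0 < c ∧ ∀ m : ℕ, (m = 1 ∨ m = 2 ∨ m = 4) → ∀ 𝔫 : Ideal (𝓞 K), 𝔫 ≠ ⊥ →
    ∃ S : Finset (𝓞 K), (∀ s ∈ S, s ≠ 0 ∧ Ideal.span {s} ⊔ 𝔫 = ⊤) ∧ (∀ s ∈ S, ∀ s' ∈ S, s ≠ s' → s ^ m - s' ^ m ∉ 𝔫) ∧ c * (Ideal.absNorm 𝔫 : ℝ) ^ (1 - ε) ≤ S.card := by
  obtain ⟨c₁, p₁, h₁⟩ := pow_classes K (m := 1) (Or.inl rfl) ε hε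
  obtain ⟨c₂, p₂, h₂⟩ := pow_classes K (m := 2) (Or.inr (Or.inl rfl)) ε hε
  obtain ⟨c₄, p₄, h₄⟩ := pow_classes K (m := 4) (Or.inr (Or.inr rfl)) ε hε
  have key : ∀ {c c' : ℝ} (m : ℕ), c' ≤ c → (∀ 𝔫 : Ideal (𝓞 K), 𝔫 ≠ ⊥ → ∃ S : Finset (𝓞 K), (∀ s ∈ S, s ≠ 0 ∧ Ideal.span {s} ⊔ 𝔫 = ⊤) ∧
      (∀ s ∈ S, ∀ s' ∈ S, s ≠ s' → s ^ m - s' ^ m ∉ 𝔫) ∧ c * (Ideal.absNorm 𝔫 : ℝ) ^ (1 - ε) ≤ S.card) → ∀ 𝔫 : Ideal (𝓞 K), 𝔫 ≠ ⊥ →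
      ∃ S : Finset (𝓞 K), (∀ s ∈ S, s ≠ 0 ∧ Ideal.span {s} ⊔ 𝔫 = ⊤) ∧ (∀ s ∈ S, ∀ s' ∈ S, s ≠ s' → s ^ m - s' ^ m ∉ 𝔫) ∧ c' * (Ideal.absNorm 𝔫 : ℝ) ^ (1 - ε) ≤ S.card := by
    intro c c' m hc h 𝔫 h0
    obtain ⟨S, hS, hS', hS''⟩ := h 𝔫 h0
    exact ⟨S, hS, hS', (mul_le_mul_of_nonneg_right hc (Real.rpow_nonneg (Nat.cast_nonneg _) _)).trans hS''⟩
  refine ⟨min c₁ (min c₂ c₄), lt_min p₁ (lt_min p₂ p₄), ?_⟩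
  rintro m (rfl | rfl | rfl)
  · exact key 1 (min_le_left _ _) h₁
  · exact key 2 ((min_le_right _ _).trans (min_le_left _ _)) h₂
  · exact key 4 ((min_le_right _ _).trans (min_le_right _ _)) h₄

/-- **The torus symmetrisation**: `#(X_τ / Λ) ≤ C N(𝔫) ^ (ε - 1) #(L_τ / Λ)`. -/
theorem torus_gain (b : P.Base) (K : Type) [Field K] [NumberField K] {ε : ℝ} (hε : 0 < ε) : ∃ C : ℝ, 0 < C ∧
    ∀ (J : Finset b.support) (L : List b.support) (i k : b.support) (m : ℕ), (m = 1 ∨ m = 2 ∨ m = 4) →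
    (pj b i (Sum.inr (k : ι)) - pj b i (Sum.inr ((wW b L)⁻¹ (k : ι))) = m ∨ pj b i (Sum.inr (k : ι)) - pj b i (Sum.inr ((wW b L)⁻¹ (k : ι))) = -m) →
    ∀ 𝔫 : Ideal (𝓞 K), 𝔫 ≠ ⊥ → ∀ z z' τ : GK b K, (∀ v : HeightOneSpectrum (𝓞 K), aI v 𝔫 ≠ 1 → z ∈ Kv b 𝔫 v) → (∀ v : HeightOneSpectrum (𝓞 K), aI v 𝔫 ≠ 1 → z' ∈ Kv b 𝔫 v) → τ ∈ TK b K →
    ∀ Λ : Subgroup (GK b K), (∀ l ∈ Λ, l ∈ NJ b K J ∧ z'⁻¹ * l * z' ∈ G1 b 𝔫) → ∀ A : Finset (GK b K), (∀ u ∈ A, u ∈ Xt b K J L 𝔫 z z' τ) → Ineq Λ A →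
    ∃ B : Finset (GK b K), (∀ u ∈ B, u ∈ Lt b K J L 𝔫 z z' τ) ∧ Ineq Λ B ∧ (A.card : ℝ) ≤ C * (Ideal.absNorm 𝔫 : ℝ) ^ (ε - 1) * B.card := by
  classical
  obtain ⟨c, hc, hcl⟩ := pow_classes3 K hε
  refine ⟨c⁻¹, inv_pos.2 hc, ?_⟩
  intro J L i k m hm hik 𝔫 h0 z z' τ hz hz' hτ Λ hΛ A hA hA2
  obtain ⟨S, hS, hinj, hcard⟩ := hcl m hm 𝔫 h0
  have hS0 : ∀ s : {s // s ∈ S}, ((s : 𝓞 K) : K) ≠ 0 := fun s => by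
    have := (hS s.1 s.2).1
    exact_mod_cast this
  have hSu : ∀ (s : {s // s ∈ S}) (v : HeightOneSpectrum (𝓞 K)), aI v 𝔫 ≠ 1 → av v ((Units.mk0 _ (hS0 s) : Kˣ) : K) = 1 := fun s v hv => r1_unit h0 hv (hS s.1 s.2).2
  have hex : ∀ (s : {s // s ∈ S}) (u : GK b K), ∃ u₁ : GK b K, u ∈ NJ b K J → u₁ ∈ NJ b K J ∧
      (∀ v : HeightOneSpectrum (𝓞 K), aI v 𝔫 ≠ 1 → (fh b i (Units.mk0 _ (hS0 s)) * u * (fh b i (Units.mk0 _ (hS0 s)))⁻¹)⁻¹ * u₁ ∈ Kv b 𝔫 v) ∧ ∀ v : HeightOneSpectrum (𝓞 K), aI v 𝔫 = 1 → z'⁻¹ * (u⁻¹ * u₁) * z' ∈ Gv b v := by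
    intro s u
    by_cases hu : u ∈ NJ b K J
    · obtain ⟨u₁, h1, h2, h3⟩ := lift_u J h0 z' hu (fh_TK i (Units.mk0 _ (hS0 s)))
      exact ⟨u₁, fun _ => ⟨h1, h2, h3⟩⟩
    · exact ⟨1, fun h => absurd h hu⟩
  choose T hT using hex
  obtain ⟨Λf, hΛf⟩ : ∃ Λf : Subgroup (GK b K), ∀ l, l ∈ Λf ↔ l ∈ NJ b K J ∧ z'⁻¹ * l * z' ∈ G1 b 𝔫 := by
    refine ⟨NJ b K J ⊓ (G1 b 𝔫).comap (MulAut.conj z'⁻¹).toMonoidHom, fun l => ?_⟩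
    have e : (MulAut.conj z'⁻¹).toMonoidHom l = z'⁻¹ * l * z' := by
      change z'⁻¹ * l * z'⁻¹⁻¹ = _
      rw [inv_inv]
    rw [Subgroup.mem_inf, Subgroup.mem_comap, e]
  obtain ⟨B, hB, hB2, hBc⟩ := r10_count (Λ := Λ) (Λf := Λf) (fun l hl => (hΛf l).2 (hΛ l hl)) (X := Xt b K J L 𝔫 z z' τ) (Y := Lt b K J L 𝔫 z z' τ)
    (fun u hu l hl => Xt_inv hu ((hΛf l).1 hl).1 ((hΛf l).1 hl).2) (fun u hu l hl => Lt_inv h0 hu ((hΛf l).1 hl).1 ((hΛf l).1 hl).2) S.attach T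
    (fun s _ u hu => r9_L h0 hz hz' hτ i (hSu s) hu (hT s u hu.1).1 (hT s u hu.1).2.1 (hT s u hu.1).2.2)
    (by
      intro s _ s' _ u hu u' hu' hl
      have h1 := hT s u hu.1
      have h1' := hT s' u' hu'.1
      have h2 : s.1 ^ m - s'.1 ^ m ∈ 𝔫 := r11_s h0 hz hz' hτ i k hik (hS0 s) (hS0 s') (hS s.1 s.2).2 (hS s'.1 s'.2).2 hu hu' h1.2.1 h1'.2.1 ((hΛf _).1 hl).2
      have h3 : s = s' := by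
        by_contra hne
        exact hinj s.1 s.2 s'.1 s'.2 (fun h => hne (Subtype.ext h)) h2
      subst h3
      exact ⟨rfl, (hΛf _).2 ⟨mul_mem (inv_mem hu.1) hu'.1, r11_u h0 hz' i (hSu s) h1.2.1 h1'.2.1 h1.2.2 h1'.2.2 ((hΛf _).1 hl).2⟩⟩)
    A hA hA2
  refine ⟨B, hB, hB2, ?_⟩
  have hN : (0 : ℝ) < (Ideal.absNorm 𝔫 : ℝ) := by
    have h1 : Ideal.absNorm 𝔫 ≠ 0 := fun h => h0 (Ideal.absNorm_eq_zero_iff.1 h)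
    exact_mod_cast Nat.pos_of_ne_zero h1
  rw [hBc, Finset.card_attach]
  push_cast
  have h4 : (Ideal.absNorm 𝔫 : ℝ) ^ (ε - 1) * (Ideal.absNorm 𝔫 : ℝ) ^ (1 - ε) = 1 := by
    rw [← Real.rpow_add hN]
    have e : ε - 1 + (1 - ε) = 0 := by ring
    rw [e, Real.rpow_zero]
  calc (A.card : ℝ) = c⁻¹ * (Ideal.absNorm 𝔫 : ℝ) ^ (ε - 1) * (c * (Ideal.absNorm 𝔫 : ℝ) ^ (1 - ε) * A.card) := by
        have e : c⁻¹ * (Ideal.absNorm 𝔫 : ℝ) ^ (ε - 1) * (c * (Ideal.absNorm 𝔫 : ℝ) ^ (1 - ε) * A.card) = (c⁻¹ * c) * ((Ideal.absNorm 𝔫 : ℝ) ^ (ε - 1) * (Ideal.absNorm 𝔫 : ℝ) ^ (1 - ε)) * A.card := by ring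
        rw [e, h4, inv_mul_cancel₀ hc.ne', one_mul, one_mul]
    _ ≤ c⁻¹ * (Ideal.absNorm 𝔫 : ℝ) ^ (ε - 1) * ((S.card : ℝ) * A.card) := by
        refine mul_le_mul_of_nonneg_left ?_ (mul_nonneg (inv_nonneg.2 hc.le) (Real.rpow_nonneg hN.le _))
        exact mul_le_mul_of_nonneg_right hcard (Nat.cast_nonneg _)

end

end Pool.Agent.Lib.L8.F2
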