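import Pool.Agent.Lib.L8.F2.R12

/-!
# F2, R13 (helper89): the gain of one torus direction, in the form of sums over classes
-/

namespace Pool.Agent.Lib.L8.F2

open Matrix NumberField IsDedekindDomain Pool.Agent.Lib.H89N Pool.Agent.Lib.L1S Pool.Agent.Lib.H67G
open Pool.Agent.Lib.L8.FL (av aI Gv Kv Ah TK tv PJ G1 NJ nW wW IsWJ rs)
open Pool.Agent.Lib.L8.FI (Tor Tors Uu Iv Cg fh ch)
open scoped ENNReal

noncomputable section

set_option linter.unusedSectionVars false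

section abstract

variable {G : Type} [Group G]

/-- The representative of a class. -/
def ou (Λ : Subgroup G) (c : G ⧸ Λ) : G := Quotient.out c

theorem ou_mk (Λ : Subgroup G) (c : G ⧸ Λ) : (QuotientGroup.mk (ou Λ c) : G ⧸ Λ) = c := QuotientGroup.out_eq' c

open scoped Classical in
theorem rs_eq (A Λ : Subgroup G) (f : G → ℝ≥0∞) : rs A Λ f = ∑' c : G ⧸ Λ, if ou Λ c ∈ A then f (ou Λ c) else 0 := by
  unfold rs ce
  refine tsum_congr fun c => ?_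
  have h1 : (Quotient.out c)⁻¹ ∈ (A : Set G) ↔ ou Λ c ∈ A := by
    rw [SetLike.mem_coe]
    exact inv_mem_iff
  by_cases h : ou Λ c ∈ A
  · rw [if_pos (h1.2 h), if_pos h]
    show f ((Quotient.out c)⁻¹)⁻¹ = f (ou Λ c)
    rw [inv_inv]
    rfl
  · rw [if_neg (fun h2 => h (h1.1 h2)), if_neg h]

open scoped Classical in
theorem rs_of_fin {A Λ : Subgroup G} {X Y : Set G} (hY : ∀ u ∈ Y, ∀ l ∈ Λ, u * l ∈ Y) (hYA : ∀ u ∈ Y, u ∈ A) {κ : ℝ}
    (h : ∀ F : Finset G, (∀ u ∈ F, u ∈ X) → Ineq Λ F → ∃ B : Finset G, (∀ u ∈ B, u ∈ Y) ∧ Ineq Λ B ∧ (F.card : ℝ) ≤ κ * B.card) :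
    rs A Λ (X.indicator 1) ≤ ENNReal.ofReal κ * rs A Λ (Y.indicator 1) := by
  rw [rs_eq, rs_eq, ENNReal.tsum_eq_iSup_sum]
  refine iSup_le fun F => ?_
  obtain ⟨E, hE⟩ : ∃ E : Finset (G ⧸ Λ), E = F.filter fun c => ou Λ c ∈ X := ⟨_, rfl⟩
  have h1 : (∑ c ∈ F, if ou Λ c ∈ A then X.indicator (1 : G → ℝ≥0∞) (ou Λ c) else 0) ≤ (E.card : ℝ≥0∞) := by
    have h0 : (E.card : ℝ≥0∞) = ∑ c ∈ F, if ou Λ c ∈ X then (1 : ℝ≥0∞) else 0 := by
      rw [hE, Finset.sum_boole]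
    rw [h0]
    refine Finset.sum_le_sum fun c _ => ?_
    by_cases h2 : ou Λ c ∈ X
    · rw [if_pos h2, Set.indicator_of_mem h2, Pi.one_apply]
      split_ifs
      · exact le_rfl
      · exact zero_le_one
    · rw [if_neg h2, Set.indicator_of_notMem h2]
      split_ifs <;> exact le_rfl
  have hinj : Function.Injective (ou Λ) := fun c c' hcc => by
    rw [← ou_mk Λ c, hcc, ou_mk]
  obtain ⟨B, hB, hB2, hBc⟩ := h (E.image (ou Λ)) (by
    intro u hu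
    obtain ⟨c, hc, rfl⟩ := Finset.mem_image.1 hu
    rw [hE, Finset.mem_filter] at hc
    exact hc.2) (by
    intro u hu u' hu' hl
    obtain ⟨c, hc, rfl⟩ := Finset.mem_image.1 hu
    obtain ⟨c', hc', rfl⟩ := Finset.mem_image.1 hu'
    have e1 : (QuotientGroup.mk (ou Λ c) : G ⧸ Λ) = QuotientGroup.mk (ou Λ c') := QuotientGroup.eq.2 hl
    rw [ou_mk, ou_mk] at e1
    rw [e1])
  rw [Finset.card_image_of_injective E hinj] at hBc
  have h3 : (B.card : ℝ≥0∞) ≤ ∑' c : G ⧸ Λ, if ou Λ c ∈ A then Y.indicator (1 : G → ℝ≥0∞) (ou Λ c) else 0 := by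
    have hinjB : Set.InjOn (fun u : G => (QuotientGroup.mk u : G ⧸ Λ)) B := fun u hu u' hu' e => hB2 u hu u' hu' (QuotientGroup.eq.1 e)
    have h4 : (B.card : ℝ≥0∞) = ∑ c ∈ B.image (fun u : G => (QuotientGroup.mk u : G ⧸ Λ)), (1 : ℝ≥0∞) := by
      rw [Finset.sum_const, Finset.card_image_of_injOn hinjB, nsmul_eq_mul, mul_one]
    rw [h4]
    refine le_trans (Finset.sum_le_sum fun c hc => ?_) (ENNReal.sum_le_tsum _)
    obtain ⟨u, hu, rfl⟩ := Finset.mem_image.1 hc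
    have h5 : ou Λ (QuotientGroup.mk u : G ⧸ Λ) ∈ Y := by
      have e : u⁻¹ * ou Λ (QuotientGroup.mk u : G ⧸ Λ) ∈ Λ := QuotientGroup.eq.1 (ou_mk Λ _).symm
      have e2 : ou Λ (QuotientGroup.mk u : G ⧸ Λ) = u * (u⁻¹ * ou Λ (QuotientGroup.mk u : G ⧸ Λ)) := by group
      rw [e2]
      exact hY u (hB u hu) _ e
    rw [if_pos (hYA _ h5), Set.indicator_of_mem h5, Pi.one_apply]
  calc _ ≤ (E.card : ℝ≥0∞) := h1
    _ = ENNReal.ofReal (E.card : ℝ) := (ENNReal.ofReal_natCast _).symm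
    _ ≤ ENNReal.ofReal (κ * B.card) := ENNReal.ofReal_le_ofReal hBc
    _ ≤ ENNReal.ofReal κ * (B.card : ℝ≥0∞) := by
        rw [ENNReal.ofReal_mul' (Nat.cast_nonneg _), ENNReal.ofReal_natCast]
    _ ≤ _ := by gcongr

end abstract

variable {ι M N : Type} [Fintype ι] [DecidableEq ι] [AddCommGroup M] [Module ℚ M] [AddCommGroup N] [Module ℚ N]
  {P : RootPairing ι ℚ M N} [P.IsCrystallographic] [P.IsReduced] [P.IsIrreducible] [P.IsRootSystem] {b : P.Base} {K : Type} [Field K] [NumberField K]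

/-- **The torus symmetrisation** (the form of `FU/T1`): for every subset `X` of `X_τ` the number of the classes of `X` is at most `C N(𝔫) ^ (ε - 1)` times the number of the classes of `L_τ`. -/
theorem torus_gain_rs (b : P.Base) (K : Type) [Field K] [NumberField K] {ε : ℝ} (hε : 0 < ε) : ∃ C : ℝ, 0 < C ∧
    ∀ (J : Finset b.support) (L : List b.support) (i k : b.support) (m : ℕ), (m = 1 ∨ m = 2 ∨ m = 4) →
    (pj b i (Sum.inr (k : ι)) - pj b i (Sum.inr ((wW b L)⁻¹ (k : ι))) = m ∨ pj b i (Sum.inr (k : ι)) - pj b i (Sum.inr ((wW b L)⁻¹ (k : ι))) = -m) →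
    ∀ 𝔫 : Ideal (𝓞 K), 𝔫 ≠ ⊥ → ∀ z z' τ : GK b K, (∀ v : HeightOneSpectrum (𝓞 K), aI v 𝔫 ≠ 1 → z ∈ Kv b 𝔫 v) → (∀ v : HeightOneSpectrum (𝓞 K), aI v 𝔫 ≠ 1 → z' ∈ Kv b 𝔫 v) → τ ∈ TK b K →
    ∀ Λ : Subgroup (GK b K), (∀ l ∈ Λ, l ∈ NJ b K J ∧ z'⁻¹ * l * z' ∈ G1 b 𝔫) → ∀ X : Set (GK b K), X ⊆ Xt b K J L 𝔫 z z' τ →
    rs (NJ b K J) Λ (X.indicator 1) ≤ ENNReal.ofReal (C * (Ideal.absNorm 𝔫 : ℝ) ^ (ε - 1)) * rs (NJ b K J) Λ ((Lt b K J L 𝔫 z z' τ).indicator 1) := by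
  obtain ⟨C, hC, h⟩ := torus_gain b K hε
  refine ⟨C, hC, ?_⟩
  intro J L i k m hm hik 𝔫 h0 z z' τ hz hz' hτ Λ hΛ X hX
  refine rs_of_fin (fun u hu l hl => Lt_inv h0 hu (hΛ l hl).1 (hΛ l hl).2) (fun u hu => hu.1) fun F hF hF2 => ?_
  exact h J L i k m hm hik 𝔫 h0 z z' τ hz hz' hτ Λ hΛ F (fun u hu => hX (hF u hu)) hF2

end

end Pool.Agent.Lib.L8.F2
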