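import Pool.Agent.Lib.L8.F2.R0

/-!
# F2, chunk R7 (S/M): the groups `G_v`, `K_v(𝔫)` and the torus parts
-/

namespace Pool.Agent.Lib.L8.F2

open Matrix NumberField IsDedekindDomain Pool.Agent.Lib.H89N Pool.Agent.Lib.L1S
open Pool.Agent.Lib.L8.FL (av aI Gv Kv Ah TK tv PJ G1 NJ nW wW IsWJ)
open Pool.Agent.Lib.L8.FI (Tor Tors Uu Iv Cg fh ch)

noncomputable section

set_option linter.unusedSectionVars false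

variable {ι M N : Type} [Fintype ι] [DecidableEq ι] [AddCommGroup M] [Module ℚ M] [AddCommGroup N] [Module ℚ N]
  {P : RootPairing ι ℚ M N} [P.IsCrystallographic] [P.IsReduced] [P.IsIrreducible] [P.IsRootSystem] {b : P.Base} {K : Type} [Field K] [NumberField K]

theorem Gv_mul {v : HeightOneSpectrum (𝓞 K)} {g h : GK b K} (hg : g ∈ Gv b v) (hh : h ∈ Gv b v) : g * h ∈ Gv b v :=
  (FI.g1_Gv b v _).2 (((FI.g1_Gv b v _).1 hg).mul (FI.g1_nonarch v) ((FI.g1_Gv b v _).1 hh))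

theorem Gv_inv {v : HeightOneSpectrum (𝓞 K)} {g : GK b K} (hg : g ∈ Gv b v) : g⁻¹ ∈ Gv b v := (FI.g1_Gv b v _).2 ((FI.g1_Gv b v _).1 hg).inv

theorem Kv_mul {v : HeightOneSpectrum (𝓞 K)} {𝔫 : Ideal (𝓞 K)} {g h : GK b K} (hg : g ∈ Kv b 𝔫 v) (hh : h ∈ Kv b 𝔫 v) : g * h ∈ Kv b 𝔫 v :=
  (FI.g1_Kv b 𝔫 v _).2 (((FI.g1_Kv b 𝔫 v _).1 hg).mul (FI.g1_nonarch v) (FI.g1_aI_le v 𝔫) (FI.g1_aI_pos v 𝔫).le ((FI.g1_Kv b 𝔫 v _).1 hh))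

theorem Kv_inv {v : HeightOneSpectrum (𝓞 K)} {𝔫 : Ideal (𝓞 K)} {g : GK b K} (hg : g ∈ Kv b 𝔫 v) : g⁻¹ ∈ Kv b 𝔫 v := (FI.g1_Kv b 𝔫 v _).2 ((FI.g1_Kv b 𝔫 v _).1 hg).inv

theorem r7_two {v : AbsoluteValue K ℝ} (hv : IsNonarchimedean (v : K → ℝ)) {A C X : Matrix (I b) (I b) K} {ν : ℝ} (hν : 0 ≤ ν) (hA : ∀ r c, v (A r c) ≤ 1)
    (hC : ∀ r c, v (C r c) ≤ 1) (hX : ∀ r c, v (X r c) ≤ ν) (r c : I b) : v ((A * X * C) r c) ≤ ν := by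
  rw [Matrix.mul_apply]
  refine FI.v_sum_le hv _ _ hν fun s _ => ?_
  rw [map_mul, Matrix.mul_apply]
  have h1 : v (∑ j, A r j * X j s) ≤ ν := by
    refine FI.v_sum_le hv _ _ hν fun j _ => ?_
    rw [map_mul]
    calc v (A r j) * v (X j s) ≤ 1 * ν := mul_le_mul (hA r j) (hX j s) (apply_nonneg v _) zero_le_one
      _ = ν := one_mul ν
  calc v (∑ j, A r j * X j s) * v (C s c) ≤ ν * 1 := mul_le_mul h1 (hC s c) (apply_nonneg v _) hν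
    _ = ν := mul_one ν

theorem r7_conj1 (g k : GK b K) : (g * k * g⁻¹).1.1 - 1 = g.1.1 * (k.1.1 - 1) * (g⁻¹).1.1 := by
  rw [FI.f_mul, FI.f_mul, Matrix.mul_sub, Matrix.sub_mul, Matrix.mul_one, FI.f_mi]

theorem r7_conj2 (g k : GK b K) : (g * k * g⁻¹)⁻¹.1.1 - 1 = g.1.1 * (k⁻¹.1.1 - 1) * (g⁻¹).1.1 := by
  have e : (g * k * g⁻¹)⁻¹ = g * k⁻¹ * g⁻¹ := by group
  rw [e, r7_conj1]

/-- `K_v(𝔫)` is normal in `G_v`. PROOF. `g k g⁻¹ - 1 = g (k - 1) g⁻¹`: each entry is a double sum of products of two integral elements and an entry of `k - 1` (`FI.v_sum_le`); the same for `k⁻¹`. -/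
theorem Kv_conj {v : HeightOneSpectrum (𝓞 K)} {𝔫 : Ideal (𝓞 K)} {g k : GK b K} (hg : g ∈ Gv b v) (hk : k ∈ Kv b 𝔫 v) : g * k * g⁻¹ ∈ Kv b 𝔫 v := by
  rw [FI.g1_Gv] at hg
  rw [FI.g1_Kv] at hk ⊢
  refine ⟨fun r c => ?_, fun r c => ?_⟩
  · rw [r7_conj1]
    exact r7_two (FI.g1_nonarch v) (FI.g1_aI_pos v 𝔫).le hg.1 hg.2 hk.1 r c
  · rw [r7_conj2]
    exact r7_two (FI.g1_nonarch v) (FI.g1_aI_pos v 𝔫).le hg.1 hg.2 hk.2 r c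

/-- **The torus part of an element of `T U K_v(𝔫)`** is unique modulo `𝔫`. PROOF. `σ₂⁻¹ σ₁ (u₁ u₂'⁻¹) = κ` with `κ = u₂' .. `: from `σ₁ u₁ κ₁ = σ₂ u₂ κ₂` we get `u₂⁻¹ * (σ₂⁻¹ * σ₁) * u₁ = κ₂ * κ₁⁻¹ ∈ K_v(𝔫)`; write it as `(σ₂⁻¹ σ₁) * u''` with `u'' ∈ U(K)` (`FC.TK_HU`); the diagonal entry at `r = inr k` is `(σ₂⁻¹ σ₁)_rr`
(`Tor.val`, `Uu u''`: the diagonal entries of `u''` are `1`), equal to `tv σ₁ k / tv σ₂ k` (`FI.tv_mul`, `FI.tv_inv`); and `av v (κ_rr - 1) ≤ aI v 𝔫`. Compare `FI.diag_le`. -/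
theorem tor_uniq {v : HeightOneSpectrum (𝓞 K)} {𝔫 : Ideal (𝓞 K)} {σ₁ σ₂ u₁ u₂ κ₁ κ₂ : GK b K} (h1 : σ₁ ∈ TK b K) (h2 : σ₂ ∈ TK b K) (hu1 : u₁ ∈ HU b K) (hu2 : u₂ ∈ HU b K) (hk1 : κ₁ ∈ Kv b 𝔫 v) (hk2 : κ₂ ∈ Kv b 𝔫 v)
    (e : σ₁ * u₁ * κ₁ = σ₂ * u₂ * κ₂) (k : b.support) : av v (tv b K σ₁ k / tv b K σ₂ k - 1) ≤ aI v 𝔫 := by
  have hT1 := (FI.g1_TK b σ₁).1 h1
  have hT2 := (FI.g1_TK b σ₂).1 h2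
  have hτ : Tor (σ₂⁻¹ * σ₁) := hT2.inv.mul hT1
  have e1 : (σ₂⁻¹ * σ₁) * (((σ₂⁻¹ * σ₁)⁻¹ * u₂⁻¹ * ((σ₂⁻¹ * σ₁)⁻¹)⁻¹) * u₁) = κ₂ * κ₁⁻¹ := by
    have e2 : u₁ = σ₁⁻¹ * (σ₂ * u₂ * κ₂) * κ₁⁻¹ := by
      rw [← e]
      group
    rw [e2]
    group
  have hu : Uu (((σ₂⁻¹ * σ₁)⁻¹ * u₂⁻¹ * ((σ₂⁻¹ * σ₁)⁻¹)⁻¹) * u₁) := (hτ.inv.conj_Uu ((FI.g1_HU b u₂).1 hu2).inv).mul ((FI.g1_HU b u₁).1 hu1)
  have hk : κ₂ * κ₁⁻¹ ∈ Kv b 𝔫 v := Kv_mul hk2 (Kv_inv hk1)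
  have h3 := ((FI.g1_Kv b 𝔫 v _).1 hk).1 (Sum.inr (k : ι)) (Sum.inr (k : ι))
  have h4 : (κ₂ * κ₁⁻¹).1.1 (Sum.inr (k : ι)) (Sum.inr (k : ι)) = tv b K σ₁ k / tv b K σ₂ k := by
    rw [← e1, FI.f_mul, hτ.val, hu (Sum.inr (k : ι)) (Sum.inr (k : ι)) (by omega), Matrix.one_apply_eq, mul_one, hT2.inv.mul_val, hT2.inv_val, div_eq_inv_mul]
    rfl
  rw [Matrix.sub_apply, Matrix.one_apply_eq, h4] at h3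
  exact h3

end

end Pool.Agent.Lib.L8.F2
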