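import Pool.Agent.Lib.L8.F2.N7

/-!
# F2, S1 (helper89): the number of `m`-th roots of one modulo a prime power, arbitrary `m`
-/

namespace Pool.Agent.Lib.L8.F2

open NumberField

noncomputable section

variable {K : Type} [Field K] [NumberField K]

/-- `x ^ m - 1 = a b` with `a = x - 1` and `b ≡ m` modulo every ideal which contains `a`. -/
theorem s1_geom {R : Type} [CommRing R] (x : R) (m : ℕ) : ∃ b : R, x ^ m - 1 = (x - 1) * b ∧ ∀ I : Ideal R, x - 1 ∈ I → b - (m : R) ∈ I := by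
  refine ⟨∑ i ∈ Finset.range m, x ^ i, (mul_geom_sum x m).symm, fun I hI => ?_⟩
  have h1 : ∑ i ∈ Finset.range m, x ^ i - (m : R) = ∑ i ∈ Finset.range m, (x ^ i - 1) := by
    rw [Finset.sum_sub_distrib, Finset.sum_const, Finset.card_range, nsmul_eq_mul, mul_one]
  rw [h1]
  refine sum_mem fun i _ => ?_
  obtain ⟨c, hc⟩ := sub_dvd_pow_sub_pow x 1 i
  rw [one_pow] at hc
  rw [hc]
  exact Ideal.mul_mem_right _ _ hI

/-- `m ∉ P`. -/
theorem rt_oddm (P : Ideal (𝓞 K)) [P.IsPrime] (hP : P ≠ ⊥) {m : ℕ} (hm : 1 ≤ m) (h2 : (m : 𝓞 K) ∉ P) (k : ℕ) : Nat.card (rt m (𝓞 K ⧸ P ^ k)) ≤ m := by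
  classical
  haveI := n3_fin P hP k
  rcases Nat.eq_zero_or_pos k with rfl | hk
  · have h3 : Nat.card (rt m (𝓞 K ⧸ P ^ 0)) ≤ Nat.card (𝓞 K ⧸ P ^ 0) :=
      (Nat.card_le_card_of_injective _ Subtype.val_injective).trans (n3_units _)
    rw [n3_card_quot P hP, pow_zero] at h3
    exact h3.trans hm
  · have hle : P ^ k ≤ P := Ideal.pow_le_self hk.ne'
    haveI : P.IsMaximal := Ideal.IsPrime.isMaximal ‹_› hP
    haveI : IsDomain (𝓞 K ⧸ P) := Ideal.Quotient.isDomain P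
    haveI : NeZero m := ⟨by omega⟩
    have hmem : ∀ z : rt m (𝓞 K ⧸ P ^ k), (Units.map (Ideal.Quotient.factor hle : (𝓞 K ⧸ P ^ k) →* (𝓞 K ⧸ P))) z.1 ∈ rootsOfUnity m (𝓞 K ⧸ P) := by
      intro z
      rw [mem_rootsOfUnity, ← map_pow, mem_rt.1 z.2, map_one]
    refine le_trans ?_ (card_rootsOfUnity (𝓞 K ⧸ P) m)
    refine Nat.card_le_card_of_injective (fun z : rt m (𝓞 K ⧸ P ^ k) => (⟨_, hmem z⟩ : rootsOfUnity m (𝓞 K ⧸ P))) ?_
    have hinj : ∀ z : rt m (𝓞 K ⧸ P ^ k), (Units.map (Ideal.Quotient.factor hle : (𝓞 K ⧸ P ^ k) →* (𝓞 K ⧸ P))) z.1 = 1 → z.1 = 1 := by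
      rintro ⟨z, hz2⟩ hz
      rw [mem_rt] at hz2
      have hzf : Ideal.Quotient.factor hle (z : 𝓞 K ⧸ P ^ k) = 1 := by
        have := congrArg (fun w : (𝓞 K ⧸ P)ˣ => (w : 𝓞 K ⧸ P)) hz
        simpa using this
      have hz2' : (z : 𝓞 K ⧸ P ^ k) ^ m = 1 := by
        have := congrArg (fun w : (𝓞 K ⧸ P ^ k)ˣ => (w : 𝓞 K ⧸ P ^ k)) hz2
        simpa using this
      obtain ⟨x, hx⟩ := Ideal.Quotient.mk_surjective (z : 𝓞 K ⧸ P ^ k)
      rw [← hx] at hzf hz2'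
      have ha1 : x - 1 ∈ P := by
        rw [← Ideal.Quotient.eq_zero_iff_mem, map_sub, map_one, sub_eq_zero]
        simpa using hzf
      obtain ⟨y, hy, hy2⟩ := s1_geom x m
      have ha2 : y * (x - 1) ∈ P ^ k := by
        rw [← Ideal.Quotient.eq_zero_iff_mem, mul_comm, ← hy, map_sub, map_pow, map_one, hz2', sub_self]
      have hy3 : y ∉ P := by
        intro h
        apply h2
        have h4 := P.sub_mem h (hy2 P ha1)
        rwa [sub_sub_cancel] at h4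
      have h5 : x - 1 ∈ P ^ k := (Ideal.IsPrime.mul_mem_pow P ha2).resolve_left hy3
      have h6 := Ideal.Quotient.eq_zero_iff_mem.mpr h5
      rw [map_sub, map_one, hx, sub_eq_zero] at h6
      exact Units.ext (by rw [Units.val_one]; exact h6)
    intro z w hzw
    have h := congrArg Subtype.val hzw
    have h1 : (Units.map (Ideal.Quotient.factor hle : (𝓞 K ⧸ P ^ k) →* (𝓞 K ⧸ P))) (z * w⁻¹).1 = 1 := by
      rw [Subgroup.coe_mul, Subgroup.coe_inv, map_mul, map_inv]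
      exact mul_inv_eq_one.2 h
    have h2 := hinj _ h1
    rw [Subgroup.coe_mul, Subgroup.coe_inv] at h2
    exact Subtype.ext (mul_inv_eq_one.1 h2)

/-- `m ∈ P`. -/
theorem rt_evenm (P : Ideal (𝓞 K)) [P.IsPrime] (hP : P ≠ ⊥) {m : ℕ} (hm : 1 ≤ m) (h2 : (m : 𝓞 K) ∈ P) (k : ℕ) : Nat.card (rt m (𝓞 K ⧸ P ^ k)) ≤ (m ^ Module.finrank ℚ K) ^ 3 := by
  classical
  set d := Module.finrank ℚ K with hd
  have hm0 : (m : 𝓞 K) ≠ 0 := by exact_mod_cast (by omega : m ≠ 0)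
  -- the exponent of m
  have hex : ∃ e : ℕ, 1 ≤ e ∧ (m : 𝓞 K) ∈ P ^ e ∧ (m : 𝓞 K) ∉ P ^ (e + 1) := by
    have hne : ∃ n : ℕ, (m : 𝓞 K) ∉ P ^ n := by
      by_contra hcon
      push Not at hcon
      have hb : (m : 𝓞 K) ∈ (⨅ i : ℕ, P ^ i : Ideal (𝓞 K)) := by
        rw [Ideal.mem_iInf]; exact hcon
      rw [Ideal.iInf_pow_eq_bot_of_isDomain P (Ideal.IsPrime.ne_top ‹_›)] at hb
      exact hm0 (by simpa using hb)
    have hn := Nat.find_spec hne
    set n := Nat.find hne with hndef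
    have hn2 : 2 ≤ n := by
      by_contra hcon
      have : n = 0 ∨ n = 1 := by omega
      rcases this with h | h
      · rw [h] at hn; simp at hn
      · rw [h] at hn; simp at hn; exact hn h2
    refine ⟨n - 1, by omega, ?_, ?_⟩
    · have := Nat.find_min hne (m := n - 1) (by omega)
      simpa using this
    · rwa [show n - 1 + 1 = n by omega]
  obtain ⟨e, he1, he2, he3⟩ := hex
  set N := Ideal.absNorm P with hN
  have hmd : 0 < m ^ d := pow_pos (by omega) _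
  have hNe : N ^ e ≤ m ^ d := by
    have h1 : Ideal.absNorm (P ^ e) ∣ Ideal.absNorm (Ideal.span {(m : 𝓞 K)}) :=
      Ideal.absNorm_dvd_absNorm_of_le (by rw [Ideal.span_singleton_le_iff_mem]; exact he2)
    have h2' : Ideal.absNorm (Ideal.span {(m : 𝓞 K)}) = m ^ d := by
      have := Ideal.absNorm_span_natCast (S := 𝓞 K) m
      rw [RingOfIntegers.rank] at this
      exact_mod_cast this
    rw [h2', map_pow] at h1
    exact Nat.le_of_dvd hmd h1
  have hN0 : 0 < N := Nat.pos_of_ne_zero (by rw [hN, Ne, Ideal.absNorm_eq_zero_iff]; exact hP)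
  have hN1 : N ≤ m ^ d := le_trans (by
    calc N = N ^ 1 := (pow_one N).symm
      _ ≤ N ^ e := Nat.pow_le_pow_right hN0 he1) hNe
  have hNe1 : N ^ (e + 1) ≤ (m ^ d) ^ 2 := by
    rw [pow_succ, pow_two]
    exact Nat.mul_le_mul hNe hN1
  haveI := n3_fin P hP k
  by_cases hk : k ≤ e + 1
  · calc Nat.card (rt m (𝓞 K ⧸ P ^ k)) ≤ Nat.card (𝓞 K ⧸ P ^ k)ˣ := Nat.card_le_card_of_injective _ Subtype.val_injective
      _ ≤ Nat.card (𝓞 K ⧸ P ^ k) := n3_units _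
      _ = N ^ k := n3_card_quot P hP k
      _ ≤ N ^ (e + 1) := Nat.pow_le_pow_right hN0 hk
      _ ≤ (m ^ d) ^ 2 := hNe1
      _ ≤ (m ^ d) ^ 3 := Nat.pow_le_pow_right hmd (by norm_num)
  push Not at hk
  have hle : P ^ k ≤ P ^ (e + 1) := Ideal.pow_le_pow_right hk.le
  haveI := n3_fin P hP (e + 1)
  set f : rt m (𝓞 K ⧸ P ^ k) →* (𝓞 K ⧸ P ^ (e + 1))ˣ :=
    (Units.map (Ideal.Quotient.factor hle : (𝓞 K ⧸ P ^ k) →* (𝓞 K ⧸ P ^ (e + 1)))).comp (Subgroup.subtype _) with hf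
  have hrange : Nat.card f.range ≤ (m ^ d) ^ 2 :=
    calc Nat.card f.range ≤ Nat.card (𝓞 K ⧸ P ^ (e + 1))ˣ := Nat.card_le_card_of_injective _ Subtype.val_injective
      _ ≤ Nat.card (𝓞 K ⧸ P ^ (e + 1)) := n3_units _
      _ = N ^ (e + 1) := n3_card_quot P hP _
      _ ≤ (m ^ d) ^ 2 := hNe1
  have hker : Nat.card f.ker ≤ m ^ d := by
    have hek : e ≤ k := by omega
    have hmap := n3_card_map P hP hek
    set J := Ideal.map (Ideal.Quotient.mk (P ^ k)) (P ^ (k - e)) with hJ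
    refine le_trans ?_ hNe
    rw [← hmap]
    have hmem : ∀ z : f.ker, (((z : rt m (𝓞 K ⧸ P ^ k)) : (𝓞 K ⧸ P ^ k)ˣ) : 𝓞 K ⧸ P ^ k) - 1 ∈ J := by
      intro z
      obtain ⟨⟨z, hz2⟩, hz⟩ := z
      rw [mem_rt] at hz2
      have hzf : Ideal.Quotient.factor hle (z : 𝓞 K ⧸ P ^ k) = 1 := by
        have := congrArg (fun w : (𝓞 K ⧸ P ^ (e + 1))ˣ => (w : 𝓞 K ⧸ P ^ (e + 1))) (MonoidHom.mem_ker.1 hz)
        simpa [hf] using this
      have hz2' : (z : 𝓞 K ⧸ P ^ k) ^ m = 1 := by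
        have := congrArg (fun w : (𝓞 K ⧸ P ^ k)ˣ => (w : 𝓞 K ⧸ P ^ k)) hz2
        simpa using this
      obtain ⟨x, hx⟩ := Ideal.Quotient.mk_surjective (z : 𝓞 K ⧸ P ^ k)
      show (z : 𝓞 K ⧸ P ^ k) - 1 ∈ J
      rw [← hx] at hzf hz2' ⊢
      have ha1 : x - 1 ∈ P ^ (e + 1) := by
        rw [← Ideal.Quotient.eq_zero_iff_mem, map_sub, map_one, sub_eq_zero]
        simpa using hzf
      obtain ⟨y, hy, hy2⟩ := s1_geom x m
      have ha2 : (x - 1) * y ∈ P ^ k := by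
        rw [← Ideal.Quotient.eq_zero_iff_mem, ← hy, map_sub, map_pow, map_one, hz2', sub_self]
      have hy3 := hy2 _ ha1
      have hb1 : y ∈ P ^ e := by
        have h4 := Ideal.add_mem _ he2 (Ideal.pow_le_pow_right (Nat.le_succ e) hy3)
        rwa [add_sub_cancel] at h4
      have hb2 : y ∉ P ^ (e + 1) := by
        intro h
        apply he3
        have h4 := Ideal.sub_mem _ h hy3
        rwa [sub_sub_cancel] at h4
      have hmem := n3_mem P hP hb1 hb2 ha2 hek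
      have := Ideal.mem_map_of_mem (Ideal.Quotient.mk (P ^ k)) hmem
      simpa using this
    haveI : Finite J := Subtype.finite
    refine Nat.card_le_card_of_injective (fun z : f.ker => (⟨_, hmem z⟩ : J)) ?_
    intro z w hzw
    have h := congrArg Subtype.val hzw
    simp only [sub_left_inj] at h
    exact Subtype.ext (Subtype.ext (Units.ext h))
  have hcard : Nat.card (rt m (𝓞 K ⧸ P ^ k)) = Nat.card f.ker * Nat.card f.range := by
    rw [← Subgroup.index_ker, Subgroup.card_mul_index]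
  rw [hcard]
  calc Nat.card f.ker * Nat.card f.range ≤ m ^ d * (m ^ d) ^ 2 := Nat.mul_le_mul hker hrange
    _ = (m ^ d) ^ 3 := by ring

/-- The constant. -/
def rB (K : Type) [Field K] [NumberField K] (m : ℕ) : ℕ := (m ^ Module.finrank ℚ K) ^ 3 + m

theorem rt_m (P : Ideal (𝓞 K)) [P.IsPrime] (hP : P ≠ ⊥) {m : ℕ} (hm : 1 ≤ m) (k : ℕ) : Nat.card (rt m (𝓞 K ⧸ P ^ k)) ≤ rB K m := by
  by_cases h2 : (m : 𝓞 K) ∈ P
  · exact (rt_evenm P hP hm h2 k).trans (Nat.le_add_right _ _)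
  · exact (rt_oddm P hP hm h2 k).trans (Nat.le_add_left _ _)

theorem pwr_ppm (P : Ideal (𝓞 K)) [P.IsPrime] (hP : P ≠ ⊥) (k : ℕ) (hk : 1 ≤ k) {m : ℕ} (hm : 1 ≤ m) :
    Ideal.absNorm (P ^ k) ≤ 2 * rB K m * Nat.card (pwr m (𝓞 K ⧸ P ^ k)) := by
  have hPk : P ^ k ≠ ⊥ := pow_ne_zero k hP
  haveI : Finite (𝓞 K ⧸ P ^ k) := Ideal.finiteQuotientOfFreeOfNeBot (P ^ k) hPk
  haveI : Finite (𝓞 K ⧸ P ^ k)ˣ := inferInstance
  have h1 := card_units P hP k hk
  have h2 := rt_m P hP hm k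
  have h3 : Nat.card (rt m (𝓞 K ⧸ P ^ k)) * Nat.card (pwr m (𝓞 K ⧸ P ^ k)) = Nat.card (𝓞 K ⧸ P ^ k)ˣ := by
    have := (powMonoidHom m : (𝓞 K ⧸ P ^ k)ˣ →* (𝓞 K ⧸ P ^ k)ˣ).ker.card_mul_index
    rw [Subgroup.index_ker] at this
    exact this
  rw [← h3] at h1
  refine h1.trans ?_
  rw [mul_assoc]
  exact Nat.mul_le_mul_left 2 (Nat.mul_le_mul_right _ h2)

open scoped Classical in
theorem pwr_prodm {𝔫 : Ideal (𝓞 K)} (hn : 𝔫 ≠ ⊥) {m : ℕ} (hm : 1 ≤ m) :
    Ideal.absNorm 𝔫 ≤ (2 * rB K m) ^ (UniqueFactorizationMonoid.factors 𝔫).toFinset.card * Nat.card (pwr m (𝓞 K ⧸ 𝔫)) := by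
  set C : ℕ := 2 * rB K m with hC
  have hcard : Nat.card (pwr m (𝓞 K ⧸ 𝔫)) =
      ∏ P : (UniqueFactorizationMonoid.factors 𝔫).toFinset,
        Nat.card (pwr m (𝓞 K ⧸ (P : Ideal (𝓞 K)) ^
          (Multiset.count (P : Ideal (𝓞 K)) (UniqueFactorizationMonoid.factors 𝔫)))) :=
    n5_card ((Units.mapEquiv (IsDedekindDomain.quotientEquivPiFactors hn).toMulEquiv).trans
      MulEquiv.piUnits) m
  have hprod : 𝔫 = ∏ P ∈ (UniqueFactorizationMonoid.factors 𝔫).toFinset,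
      P ^ (Multiset.count P (UniqueFactorizationMonoid.factors 𝔫)) := by
    have h1 : Associated (UniqueFactorizationMonoid.factors 𝔫).prod 𝔫 :=
      UniqueFactorizationMonoid.factors_prod hn
    rw [associated_iff_eq] at h1
    have h2 := Finset.prod_multiset_map_count (UniqueFactorizationMonoid.factors 𝔫) id
    rw [Multiset.map_id, h1] at h2
    exact h2
  have habs : Ideal.absNorm 𝔫 = ∏ P : (UniqueFactorizationMonoid.factors 𝔫).toFinset,
      Ideal.absNorm ((P : Ideal (𝓞 K)) ^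
        (Multiset.count (P : Ideal (𝓞 K)) (UniqueFactorizationMonoid.factors 𝔫))) := by
    conv_lhs => rw [hprod]
    rw [map_prod]
    exact (Finset.prod_coe_sort (UniqueFactorizationMonoid.factors 𝔫).toFinset
      (fun P => Ideal.absNorm (P ^ (Multiset.count P (UniqueFactorizationMonoid.factors 𝔫))))).symm
  rw [hcard, habs]
  have hbd : ∀ P : (UniqueFactorizationMonoid.factors 𝔫).toFinset,
      Ideal.absNorm ((P : Ideal (𝓞 K)) ^
        (Multiset.count (P : Ideal (𝓞 K)) (UniqueFactorizationMonoid.factors 𝔫))) ≤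
      C * Nat.card (pwr m (𝓞 K ⧸ (P : Ideal (𝓞 K)) ^
          (Multiset.count (P : Ideal (𝓞 K)) (UniqueFactorizationMonoid.factors 𝔫)))) := by
    intro P
    have hmem : (P : Ideal (𝓞 K)) ∈ UniqueFactorizationMonoid.factors 𝔫 :=
      Multiset.mem_toFinset.mp P.2
    have hpr : Prime (P : Ideal (𝓞 K)) := UniqueFactorizationMonoid.prime_of_factor _ hmem
    haveI : (P : Ideal (𝓞 K)).IsPrime := Ideal.isPrime_of_prime hpr
    have hne : (P : Ideal (𝓞 K)) ≠ ⊥ := hpr.ne_zero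
    exact pwr_ppm (P : Ideal (𝓞 K)) hne _ (Multiset.one_le_count_iff_mem.mpr hmem) hm
  refine (Finset.prod_le_prod' (fun P _ => hbd P)).trans ?_
  rw [Finset.prod_mul_distrib, Finset.prod_const, Finset.card_univ, Fintype.card_coe]

end

end Pool.Agent.Lib.L8.F2
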