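import Pool.Agent.Lib.L8.F2.S1

/-!
# F2, S2 (helper89): many elements with incongruent `m`-th powers, arbitrary `m`
-/

namespace Pool.Agent.Lib.L8.F2

open NumberField

noncomputable section

variable (K : Type) [Field K] [NumberField K]

theorem pow_classesm {m : ℕ} (hm : 1 ≤ m) (ε : ℝ) (hε : 0 < ε) : ∃ c : ℝ, 0 < c ∧ ∀ 𝔫 : Ideal (𝓞 K), 𝔫 ≠ ⊥ → ∃ S : Finset (𝓞 K), (∀ s ∈ S, s ≠ 0 ∧ Ideal.span {s} ⊔ 𝔫 = ⊤) ∧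
    (∀ s ∈ S, ∀ s' ∈ S, s ≠ s' → s ^ m - s' ^ m ∉ 𝔫) ∧ c * (Ideal.absNorm 𝔫 : ℝ) ^ (1 - ε) ≤ S.card := by
  classical
  obtain ⟨C, hC, hb⟩ := omega_bound K
    (((2 * rB K m : ℕ) : ℝ)) ε hε
  refine ⟨C⁻¹, inv_pos.2 hC, fun 𝔫 hn => ?_⟩
  have hN0 : Ideal.absNorm 𝔫 ≠ 0 := fun h => hn (Ideal.absNorm_eq_zero_iff.1 h)
  haveI hfin : Finite (𝓞 K ⧸ 𝔫) := (Ideal.absNorm_ne_zero_iff 𝔫).1 hN0
  have hrep : ∀ y : pwr m (𝓞 K ⧸ 𝔫), ∃ s : 𝓞 K, s ≠ 0 ∧ Ideal.span {s} ⊔ 𝔫 = ⊤ ∧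
      Ideal.Quotient.mk 𝔫 (s ^ m) = ((y : (𝓞 K ⧸ 𝔫)ˣ) : 𝓞 K ⧸ 𝔫) := by
    intro y
    obtain ⟨x, hx⟩ := mem_pwr.1 y.2
    have h1 : ∃ s : 𝓞 K, s ≠ 0 ∧ Ideal.Quotient.mk 𝔫 s = (x : 𝓞 K ⧸ 𝔫) := by
      obtain ⟨s0, hs0⟩ := Ideal.Quotient.mk_surjective (x : 𝓞 K ⧸ 𝔫)
      by_cases h0 : s0 = 0
      · obtain ⟨a, ha, ha0⟩ := Submodule.exists_mem_ne_zero_of_ne_bot hn
        refine ⟨a, ha0, ?_⟩
        rw [Ideal.Quotient.eq_zero_iff_mem.2 ha, ← hs0, h0, map_zero]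
      · exact ⟨s0, h0, hs0⟩
    obtain ⟨s, hs0, hs⟩ := h1
    refine ⟨s, hs0, ?_, ?_⟩
    · obtain ⟨t, ht⟩ := Ideal.Quotient.mk_surjective ((x⁻¹ : (𝓞 K ⧸ 𝔫)ˣ) : 𝓞 K ⧸ 𝔫)
      have h2 : Ideal.Quotient.mk 𝔫 (1 - t * s) = 0 := by
        rw [map_sub, map_mul, map_one, ht, hs, Units.inv_mul, sub_self]
      have h3 : (1 - t * s) ∈ 𝔫 := Ideal.Quotient.eq_zero_iff_mem.1 h2
      rw [Ideal.eq_top_iff_one]
      have h4 : (1 : 𝓞 K) = t * s + (1 - t * s) := by ring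
      rw [h4]
      exact Submodule.add_mem_sup
        (Ideal.mul_mem_left _ _ (Ideal.mem_span_singleton_self s)) h3
    · rw [map_pow, hs, ← Units.val_pow_eq_pow_val, hx]
  choose f hf0 hfc hfm using hrep
  have hinj : ∀ y y' : pwr m (𝓞 K ⧸ 𝔫), f y ^ m - f y' ^ m ∈ 𝔫 → y = y' := by
    intro y y' h
    apply Subtype.ext
    apply Units.ext
    rw [← hfm y, ← hfm y']
    exact (Ideal.Quotient.mk_eq_mk_iff_sub_mem _ _).2 h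
  haveI : Fintype (pwr m (𝓞 K ⧸ 𝔫)) := Fintype.ofFinite _
  refine ⟨Finset.univ.image f, ?_, ?_, ?_⟩
  · intro s hs
    obtain ⟨y, -, rfl⟩ := Finset.mem_image.1 hs
    exact ⟨hf0 y, hfc y⟩
  · intro s hs s' hs' hne h
    obtain ⟨y, -, rfl⟩ := Finset.mem_image.1 hs
    obtain ⟨y', -, rfl⟩ := Finset.mem_image.1 hs'
    exact hne (congrArg f (hinj y y' h))
  · have hcard : (Finset.univ.image f).card = Nat.card (pwr m (𝓞 K ⧸ 𝔫)) := by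
      rw [Finset.card_image_of_injective, Finset.card_univ, Nat.card_eq_fintype_card]
      intro y y' h
      apply hinj y y'
      have h' : f y = f y' := h
      rw [h', sub_self]
      exact 𝔫.zero_mem
    rw [hcard]
    have h1 := pwr_prodm hn hm
    have h2 := hb 𝔫 hn
    have hNpos : (0 : ℝ) < (Ideal.absNorm 𝔫 : ℝ) := by exact_mod_cast Nat.pos_of_ne_zero hN0
    set P : ℕ := Nat.card (pwr m (𝓞 K ⧸ 𝔫)) with hP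
    have h3 : (Ideal.absNorm 𝔫 : ℝ) ≤ (C * (Ideal.absNorm 𝔫 : ℝ) ^ ε) * (P : ℝ) := by
      have h4 : (Ideal.absNorm 𝔫 : ℝ) ≤
          (((2 * rB K m : ℕ) : ℝ)) ^
            (UniqueFactorizationMonoid.factors 𝔫).toFinset.card * (P : ℝ) := by
        exact_mod_cast h1
      exact h4.trans (mul_le_mul_of_nonneg_right h2 (Nat.cast_nonneg _))
    have hNe : (0 : ℝ) < (Ideal.absNorm 𝔫 : ℝ) ^ ε := Real.rpow_pos_of_pos hNpos _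
    rw [Real.rpow_sub hNpos, Real.rpow_one, inv_mul_le_iff₀ hC, div_le_iff₀ hNe]
    calc (Ideal.absNorm 𝔫 : ℝ) ≤ (C * (Ideal.absNorm 𝔫 : ℝ) ^ ε) * (P : ℝ) := h3
      _ = C * (P : ℝ) * (Ideal.absNorm 𝔫 : ℝ) ^ ε := by ring

end

end Pool.Agent.Lib.L8.F2
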