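import Pool.Agent.Lib.L8.F2.S2
import Pool.Agent.Lib.L8.F2.R12
import Pool.Agent.Lib.L8.F2.R13

/-!
# F2, S3 (helper89): the gain of one torus direction, arbitrary exponent `m`
-/

namespace Pool.Agent.Lib.L8.F2

open Matrix NumberField IsDedekindDomain Pool.Agent.Lib.H89N Pool.Agent.Lib.L1S
open Pool.Agent.Lib.L8.FL (av aI Gv Kv Ah TK tv PJ G1 NJ nW wW IsWJ rs)
open Pool.Agent.Lib.L8.FI (Tor Tors Uu Iv Cg fh ch)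
open scoped ENNReal

noncomputable section

set_option linter.unusedSectionVars false

variable {ι M N : Type} [Fintype ι] [DecidableEq ι] [AddCommGroup M] [Module ℚ M] [AddCommGroup N] [Module ℚ N]
  {P : RootPairing ι ℚ M N} [P.IsCrystallographic] [P.IsReduced] [P.IsIrreducible] [P.IsRootSystem] {b : P.Base} {K : Type} [Field K] [NumberField K]

/-- The exponents `m` are bounded. -/
theorem pair_bdd (b : P.Base) : ∃ m₀ : ℕ, ∀ (i k : b.support) (w : Equiv.Perm ι) (m : ℕ),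
    (pj b i (Sum.inr (k : ι)) - pj b i (Sum.inr (w (k : ι))) = m ∨ pj b i (Sum.inr (k : ι)) - pj b i (Sum.inr (w (k : ι))) = -m) → m ≤ m₀ := by
  classical
  obtain ⟨B, hB⟩ := (Set.finite_range (fun p : b.support × ι × ι => (pj b p.1 (Sum.inr p.2.1) - pj b p.1 (Sum.inr p.2.2)).natAbs)).bddAbove
  refine ⟨B, fun i k w m h => ?_⟩
  have h1 : (pj b i (Sum.inr (k : ι)) - pj b i (Sum.inr (w (k : ι)))).natAbs ≤ B := hB ⟨(i, (k : ι), w (k : ι)), rfl⟩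
  rcases h with h | h <;> rw [h] at h1 <;> simpa using h1

/-- The sets `S` with one constant for the exponents `1 ≤ m ≤ m₀`. -/
theorem pow_classesM (K : Type) [Field K] [NumberField K] (m₀ : ℕ) {ε : ℝ} (hε : 0 < ε) : ∃ c : ℝ, 0 < c ∧ ∀ m : ℕ, 1 ≤ m → m ≤ m₀ → ∀ 𝔫 : Ideal (𝓞 K), 𝔫 ≠ ⊥ →
    ∃ S : Finset (𝓞 K), (∀ s ∈ S, s ≠ 0 ∧ Ideal.span {s} ⊔ 𝔫 = ⊤) ∧ (∀ s ∈ S, ∀ s' ∈ S, s ≠ s' → s ^ m - s' ^ m ∉ 𝔫) ∧ c * (Ideal.absNorm 𝔫 : ℝ) ^ (1 - ε) ≤ S.card := by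
  induction m₀ with
  | zero => exact ⟨1, one_pos, fun m h1 h2 => absurd h2 (by omega)⟩
  | succ n ih =>
    obtain ⟨c₁, p₁, h₁⟩ := ih
    obtain ⟨c₂, p₂, h₂⟩ := pow_classesm K (m := n + 1) (by omega) ε hε
    refine ⟨min c₁ c₂, lt_min p₁ p₂, fun m h1 h2 𝔫 h0 => ?_⟩
    have hN : (0 : ℝ) ≤ (Ideal.absNorm 𝔫 : ℝ) ^ (1 - ε) := Real.rpow_nonneg (Nat.cast_nonneg _) _
    rcases Nat.lt_or_ge n m with h | h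
    · obtain rfl : m = n + 1 := by omega
      obtain ⟨S, hS, hS', hS''⟩ := h₂ 𝔫 h0
      exact ⟨S, hS, hS', (mul_le_mul_of_nonneg_right (min_le_right _ _) hN).trans hS''⟩
    · obtain ⟨S, hS, hS', hS''⟩ := h₁ m h1 h 𝔫 h0
      exact ⟨S, hS, hS', (mul_le_mul_of_nonneg_right (min_le_left _ _) hN).trans hS''⟩

/-- **The torus symmetrisation**: `#(X_τ / Λ) ≤ C N(𝔫) ^ (ε - 1) #(L_τ / Λ)`. -/
theorem torus_gainm (b : P.Base) (K : Type) [Field K] [NumberField K] {ε : ℝ} (hε : 0 < ε) : ∃ C : ℝ, 0 < C ∧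
    ∀ (J : Finset b.support) (L : List b.support) (i k : b.support) (m : ℕ), 1 ≤ m →
    (pj b i (Sum.inr (k : ι)) - pj b i (Sum.inr ((wW b L)⁻¹ (k : ι))) = m ∨ pj b i (Sum.inr (k : ι)) - pj b i (Sum.inr ((wW b L)⁻¹ (k : ι))) = -m) →
    ∀ 𝔫 : Ideal (𝓞 K), 𝔫 ≠ ⊥ → ∀ z z' τ : GK b K, (∀ v : HeightOneSpectrum (𝓞 K), aI v 𝔫 ≠ 1 → z ∈ Kv b 𝔫 v) → (∀ v : HeightOneSpectrum (𝓞 K), aI v 𝔫 ≠ 1 → z' ∈ Kv b 𝔫 v) → τ ∈ TK b K →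
    ∀ Λ : Subgroup (GK b K), (∀ l ∈ Λ, l ∈ NJ b K J ∧ z'⁻¹ * l * z' ∈ G1 b 𝔫) → ∀ A : Finset (GK b K), (∀ u ∈ A, u ∈ Xt b K J L 𝔫 z z' τ) → Ineq Λ A →
    ∃ B : Finset (GK b K), (∀ u ∈ B, u ∈ Lt b K J L 𝔫 z z' τ) ∧ Ineq Λ B ∧ (A.card : ℝ) ≤ C * (Ideal.absNorm 𝔫 : ℝ) ^ (ε - 1) * B.card := by
  classical
  obtain ⟨m₀, hm₀⟩ := pair_bdd b
  obtain ⟨c, hc, hcl⟩ := pow_classesM K m₀ hε
  refine ⟨c⁻¹, inv_pos.2 hc, ?_⟩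
  intro J L i k m hm hik 𝔫 h0 z z' τ hz hz' hτ Λ hΛ A hA hA2
  obtain ⟨S, hS, hinj, hcard⟩ := hcl m hm (hm₀ i k _ m hik) 𝔫 h0
  have hS0 : ∀ s : {s // s ∈ S}, ((s : 𝓞 K) : K) ≠ 0 := fun s => by
    have := (hS s.1 s.2).1
    exact_mod_cast this
  have hSu : ∀ (s : {s // s ∈ S}) (v : HeightOneSpectrum (𝓞 K)), aI v 𝔫 ≠ 1 → av v ((Units.mk0 _ (hS0 s) : Kˣ) : K) = 1 := fun s v hv => r1_unit h0 hv (hS s.1 s.2).2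
  have hex : ∀ (s : {s // s ∈ S}) (u : GK b K), ∃ u₁ : GK b K, u ∈ NJ b K J → u₁ ∈ NJ b K J ∧
      (∀ v : HeightOneSpectrum (𝓞 K), aI v 𝔫 ≠ 1 → (fh b i (Units.mk0 _ (hS0 s)) * u * (fh b i (Units.mk0 _ (hS0 s)))⁻¹)⁻¹ * u₁ ∈ Kv b 𝔫 v) ∧ ∀ v : HeightOneSpectrum (𝓞 K), aI v 𝔫 = 1 → z'⁻¹ * (u⁻¹ * u₁) * z' ∈ Gv b v := by
    intro s u
    by_cases hu : u ∈ NJ b K J
    · obtain ⟨u₁, h1, h2, h3⟩ := lift_u J h0 z' hu (fh_TK i (Units.mk0 _ (hS0 s)))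
      exact ⟨u₁, fun _ => ⟨h1, h2, h3⟩⟩
    · exact ⟨1, fun h => absurd h hu⟩
  choose T hT using hex
  obtain ⟨Λf, hΛf⟩ : ∃ Λf : Subgroup (GK b K), ∀ l, l ∈ Λf ↔ l ∈ NJ b K J ∧ z'⁻¹ * l * z' ∈ G1 b 𝔫 := by
    refine ⟨NJ b K J ⊓ (G1 b 𝔫).comap (MulAut.conj z'⁻¹).toMonoidHom, fun l => ?_⟩
    have e : (MulAut.conj z'⁻¹).toMonoidHom l = z'⁻¹ * l * z' := by
      change z'⁻¹ * l * z'⁻¹⁻¹ = _
      rw [inv_inv]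
    rw [Subgroup.mem_inf, Subgroup.mem_comap, e]
  obtain ⟨B, hB, hB2, hBc⟩ := r10_count (Λ := Λ) (Λf := Λf) (fun l hl => (hΛf l).2 (hΛ l hl)) (X := Xt b K J L 𝔫 z z' τ) (Y := Lt b K J L 𝔫 z z' τ)
    (fun u hu l hl => Xt_inv hu ((hΛf l).1 hl).1 ((hΛf l).1 hl).2) (fun u hu l hl => Lt_inv h0 hu ((hΛf l).1 hl).1 ((hΛf l).1 hl).2) S.attach T
    (fun s _ u hu => r9_L h0 hz hz' hτ i (hSu s) hu (hT s u hu.1).1 (hT s u hu.1).2.1 (hT s u hu.1).2.2)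
    (by
      intro s _ s' _ u hu u' hu' hl
      have h1 := hT s u hu.1
      have h1' := hT s' u' hu'.1
      have h2 : s.1 ^ m - s'.1 ^ m ∈ 𝔫 := r11_s h0 hz hz' hτ i k hik (hS0 s) (hS0 s') (hS s.1 s.2).2 (hS s'.1 s'.2).2 hu hu' h1.2.1 h1'.2.1 ((hΛf _).1 hl).2
      have h3 : s = s' := by
        by_contra hne
        exact hinj s.1 s.2 s'.1 s'.2 (fun h => hne (Subtype.ext h)) h2
      subst h3
      exact ⟨rfl, (hΛf _).2 ⟨mul_mem (inv_mem hu.1) hu'.1, r11_u h0 hz' i (hSu s) h1.2.1 h1'.2.1 h1.2.2 h1'.2.2 ((hΛf _).1 hl).2⟩⟩)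
    A hA hA2
  refine ⟨B, hB, hB2, ?_⟩
  have hN : (0 : ℝ) < (Ideal.absNorm 𝔫 : ℝ) := by
    have h1 : Ideal.absNorm 𝔫 ≠ 0 := fun h => h0 (Ideal.absNorm_eq_zero_iff.1 h)
    exact_mod_cast Nat.pos_of_ne_zero h1
  rw [hBc, Finset.card_attach]
  push_cast
  have h4 : (Ideal.absNorm 𝔫 : ℝ) ^ (ε - 1) * (Ideal.absNorm 𝔫 : ℝ) ^ (1 - ε) = 1 := by
    rw [← Real.rpow_add hN]
    have e : ε - 1 + (1 - ε) = 0 := by ring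
    rw [e, Real.rpow_zero]
  calc (A.card : ℝ) = c⁻¹ * (Ideal.absNorm 𝔫 : ℝ) ^ (ε - 1) * (c * (Ideal.absNorm 𝔫 : ℝ) ^ (1 - ε) * A.card) := by
        have e : c⁻¹ * (Ideal.absNorm 𝔫 : ℝ) ^ (ε - 1) * (c * (Ideal.absNorm 𝔫 : ℝ) ^ (1 - ε) * A.card) = (c⁻¹ * c) * ((Ideal.absNorm 𝔫 : ℝ) ^ (ε - 1) * (Ideal.absNorm 𝔫 : ℝ) ^ (1 - ε)) * A.card := by ring
        rw [e, h4, inv_mul_cancel₀ hc.ne', one_mul, one_mul]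
    _ ≤ c⁻¹ * (Ideal.absNorm 𝔫 : ℝ) ^ (ε - 1) * ((S.card : ℝ) * A.card) := by
        refine mul_le_mul_of_nonneg_left ?_ (mul_nonneg (inv_nonneg.2 hc.le) (Real.rpow_nonneg hN.le _))
        exact mul_le_mul_of_nonneg_right hcard (Nat.cast_nonneg _)

/-- **The torus symmetrisation** (the form of `FU/T1`): for every subset `X` of `X_τ` the number of the classes of `X` is at most `C N(𝔫) ^ (ε - 1)` times the number of the classes of `L_τ`. -/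
theorem torus_gainm_rs (b : P.Base) (K : Type) [Field K] [NumberField K] {ε : ℝ} (hε : 0 < ε) : ∃ C : ℝ, 0 < C ∧
    ∀ (J : Finset b.support) (L : List b.support) (i k : b.support) (m : ℕ), 1 ≤ m →
    (pj b i (Sum.inr (k : ι)) - pj b i (Sum.inr ((wW b L)⁻¹ (k : ι))) = m ∨ pj b i (Sum.inr (k : ι)) - pj b i (Sum.inr ((wW b L)⁻¹ (k : ι))) = -m) →
    ∀ 𝔫 : Ideal (𝓞 K), 𝔫 ≠ ⊥ → ∀ z z' τ : GK b K, (∀ v : HeightOneSpectrum (𝓞 K), aI v 𝔫 ≠ 1 → z ∈ Kv b 𝔫 v) → (∀ v : HeightOneSpectrum (𝓞 K), aI v 𝔫 ≠ 1 → z' ∈ Kv b 𝔫 v) → τ ∈ TK b K →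
    ∀ Λ : Subgroup (GK b K), (∀ l ∈ Λ, l ∈ NJ b K J ∧ z'⁻¹ * l * z' ∈ G1 b 𝔫) → ∀ X : Set (GK b K), X ⊆ Xt b K J L 𝔫 z z' τ →
    rs (NJ b K J) Λ (X.indicator 1) ≤ ENNReal.ofReal (C * (Ideal.absNorm 𝔫 : ℝ) ^ (ε - 1)) * rs (NJ b K J) Λ ((Lt b K J L 𝔫 z z' τ).indicator 1) := by
  obtain ⟨C, hC, h⟩ := torus_gainm b K hε
  refine ⟨C, hC, ?_⟩
  intro J L i k m hm hik 𝔫 h0 z z' τ hz hz' hτ Λ hΛ X hX
  refine rs_of_fin (fun u hu l hl => Lt_inv h0 hu (hΛ l hl).1 (hΛ l hl).2) (fun u hu => hu.1) fun F hF hF2 => ?_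
  exact h J L i k m hm hik 𝔫 h0 z z' τ hz hz' hτ Λ hΛ F (fun u hu => hX (hF u hu)) hF2

end

end Pool.Agent.Lib.L8.F2
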