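import Pool.Agent.Lib.L8.F2.S2
import Pool.Agent.Lib.L8.F2.R1

/-!
# F2, V1 (helper21): tuples of elements prime to an ideal with incongruent monomials

`tuples_alg`: if the integer matrix `p` has a minor of size `r` which is not `0` then there are at least `c N(𝔫) ^ (r - ε)` tuples `s` of elements of `𝓞 K` prime to `𝔫` for which the vectors `(∏_i s_i ^ (p_ki))_k` are pairwise
incongruent modulo `𝔫`. Proof: for `t ∈ (𝓞 K / 𝔫)ˣ ^ r` and `s_(f c) = ∏_a t_a ^ (adj p)_(c a)` the vector has the coordinates `t_a ^ (det p)` at `k = g a`; and there are many `det p`-th powers (`pow_classesm`).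
-/

namespace Pool.Agent.Lib.L8.F2

open NumberField IsDedekindDomain Pool.Agent.Lib.L8.FL

noncomputable section

set_option linter.unusedSectionVars false

variable (K : Type) [Field K] [NumberField K]

/-! ## 1. Groups -/

theorem v1_zsum {G : Type} [CommGroup G] {α : Type} [DecidableEq α] (x : G) (q : α → ℤ) (s : Finset α) : ∏ c ∈ s, x ^ q c = x ^ ∑ c ∈ s, q c := by
  induction s using Finset.induction_on with
  | empty => simp
  | insert a s ha ih => rw [Finset.prod_insert ha, Finset.sum_insert ha, zpow_add, ih]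

/-- The element of a commutative group with the exponents of the adjugate. -/
theorem v1_group {G : Type} [CommGroup G] {κ I : Type} [Fintype I] [DecidableEq I] {r : ℕ} (g : Fin r → κ) (f : Fin r → I) (p : κ → I → ℤ) (u : Fin r → G) :
    ∃ U : I → G, ∀ a, ∏ i, U i ^ p (g a) i = u a ^ (Matrix.of fun a c : Fin r => p (g a) (f c)).det := by
  set A : Matrix (Fin r) (Fin r) ℤ := Matrix.of fun a c : Fin r => p (g a) (f c) with hA
  set V : Fin r → G := fun c => ∏ a, u a ^ A.adjugate c a with hV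
  refine ⟨fun i => ∏ c, if f c = i then V c else 1, fun a => ?_⟩
  have h1 : ∏ i, (∏ c, if f c = i then V c else 1) ^ p (g a) i = ∏ c, V c ^ A a c := by
    have h2 : ∀ i, (∏ c, if f c = i then V c else 1) ^ p (g a) i = ∏ c, (if f c = i then V c ^ A a c else 1) := by
      intro i
      rw [← Finset.prod_zpow]
      refine Finset.prod_congr rfl fun c _ => ?_
      split_ifs with h
      · subst h
        rfl
      · rw [one_zpow]
    rw [Finset.prod_congr rfl fun i _ => h2 i, Finset.prod_comm]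
    refine Finset.prod_congr rfl fun c _ => ?_
    rw [Finset.prod_ite_eq, if_pos (Finset.mem_univ _)]
  rw [h1]
  have h3 : ∀ c, V c ^ A a c = ∏ a', u a' ^ (A a c * A.adjugate c a') := by
    intro c
    rw [hV]
    show (∏ a', u a' ^ A.adjugate c a') ^ A a c = _
    rw [← Finset.prod_zpow]
    refine Finset.prod_congr rfl fun a' _ => ?_
    rw [← zpow_mul, mul_comm]
  rw [Finset.prod_congr rfl fun c _ => h3 c, Finset.prod_comm]
  have h4 : ∀ a', ∏ c, u a' ^ (A a c * A.adjugate c a') = u a' ^ (A.det * (1 : Matrix (Fin r) (Fin r) ℤ) a a') := by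
    intro a'
    rw [v1_zsum]
    congr 1
    have h5 := congrFun (congrFun (Matrix.mul_adjugate A) a) a'
    rw [Matrix.mul_apply] at h5
    rw [h5]
    simp
  rw [Finset.prod_congr rfl fun a' _ => h4 a', Finset.prod_eq_single a]
  · rw [Matrix.one_apply_eq, mul_one]
  · intro a' _ ha
    rw [Matrix.one_apply_ne (Ne.symm ha), mul_zero, zpow_zero]
  · intro h
    exact absurd (Finset.mem_univ _) h

/-- Integer exponents by natural exponents. -/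
theorem v1_zpow {G : Type} [CommGroup G] (x : G) (z : ℤ) : x ^ z = x ^ z.toNat * (x ^ (-z).toNat)⁻¹ := by
  rcases le_total 0 z with h | h
  · obtain ⟨n, rfl⟩ := Int.eq_ofNat_of_zero_le h
    simp
  · obtain ⟨n, hn⟩ := Int.eq_ofNat_of_zero_le (Int.neg_nonneg.2 h)
    have h1 : z = -(n : ℤ) := by omega
    subst h1
    simp

theorem v1_prod {G : Type} [CommGroup G] {I : Type} [Fintype I] (x y : I → G) (q : I → ℤ) (h : ∏ i, x i ^ (q i).toNat * y i ^ (-q i).toNat = ∏ i, y i ^ (q i).toNat * x i ^ (-q i).toNat) :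
    ∏ i, x i ^ q i = ∏ i, y i ^ q i := by
  rw [Finset.prod_mul_distrib, Finset.prod_mul_distrib] at h
  have e : ∀ z : I → G, ∏ i, z i ^ q i = (∏ i, z i ^ (q i).toNat) * (∏ i, z i ^ (-q i).toNat)⁻¹ := by
    intro z
    rw [Finset.prod_congr rfl fun i _ => v1_zpow (z i) (q i), Finset.prod_mul_distrib, Finset.prod_inv_distrib]
  rw [e x, e y, mul_inv_eq_iff_eq_mul, mul_assoc, mul_comm _ (∏ i, x i ^ (-q i).toNat), ← mul_assoc, eq_mul_inv_iff_mul_eq]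
  exact h

/-! ## 2. Units modulo `𝔫` -/

variable {K}

theorem v1_rep {𝔫 : Ideal (𝓞 K)} (hn : 𝔫 ≠ ⊥) (x : (𝓞 K ⧸ 𝔫)ˣ) : ∃ s : 𝓞 K, s ≠ 0 ∧ Ideal.span {s} ⊔ 𝔫 = ⊤ ∧ Ideal.Quotient.mk 𝔫 s = (x : 𝓞 K ⧸ 𝔫) := by
  have h1 : ∃ s : 𝓞 K, s ≠ 0 ∧ Ideal.Quotient.mk 𝔫 s = (x : 𝓞 K ⧸ 𝔫) := by
    obtain ⟨s0, hs0⟩ := Ideal.Quotient.mk_surjective (x : 𝓞 K ⧸ 𝔫)
    by_cases h0 : s0 = 0
    · obtain ⟨a, ha, ha0⟩ := Submodule.exists_mem_ne_zero_of_ne_bot hn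
      refine ⟨a, ha0, ?_⟩
      rw [Ideal.Quotient.eq_zero_iff_mem.2 ha, ← hs0, h0, map_zero]
    · exact ⟨s0, h0, hs0⟩
  obtain ⟨s, hs0, hs⟩ := h1
  refine ⟨s, hs0, ?_, hs⟩
  obtain ⟨t, ht⟩ := Ideal.Quotient.mk_surjective ((x⁻¹ : (𝓞 K ⧸ 𝔫)ˣ) : 𝓞 K ⧸ 𝔫)
  have h2 : Ideal.Quotient.mk 𝔫 (1 - t * s) = 0 := by
    rw [map_sub, map_mul, map_one, ht, hs, Units.inv_mul, sub_self]
  have h3 : (1 - t * s) ∈ 𝔫 := Ideal.Quotient.eq_zero_iff_mem.1 h2
  rw [Ideal.eq_top_iff_one]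
  have h4 : (1 : 𝓞 K) = t * s + (1 - t * s) := by ring
  rw [h4]
  exact Submodule.add_mem_sup (Ideal.mul_mem_left _ _ (Ideal.mem_span_singleton_self s)) h3

theorem v1_unit {𝔫 : Ideal (𝓞 K)} {s : 𝓞 K} (h : Ideal.span {s} ⊔ 𝔫 = ⊤) : ∃ x : (𝓞 K ⧸ 𝔫)ˣ, (x : 𝓞 K ⧸ 𝔫) = Ideal.Quotient.mk 𝔫 s := by
  have h1 : (1 : 𝓞 K) ∈ Ideal.span {s} ⊔ 𝔫 := by rw [h]; trivial
  obtain ⟨a, ha, c, hc, e⟩ := Submodule.mem_sup.1 h1
  obtain ⟨t, rfl⟩ := Ideal.mem_span_singleton'.1 ha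
  have h2 : Ideal.Quotient.mk 𝔫 t * Ideal.Quotient.mk 𝔫 s = 1 := by
    rw [← map_mul, ← map_one (Ideal.Quotient.mk 𝔫), ← e, map_add, Ideal.Quotient.eq_zero_iff_mem.2 hc, add_zero]
  exact ⟨⟨Ideal.Quotient.mk 𝔫 s, Ideal.Quotient.mk 𝔫 t, by rw [mul_comm]; exact h2, h2⟩, rfl⟩

/-! ## 3. The tuples -/

variable (K)

/-- **Tuples with incongruent monomials**, algebraic form. -/
theorem tuples_alg {κ I : Type} [Fintype I] [DecidableEq I] {r : ℕ} (g : Fin r → κ) (f : Fin r → I) (p : κ → I → ℤ) (hd : (Matrix.of fun a c : Fin r => p (g a) (f c)).det ≠ 0) {ε : ℝ} (hε : 0 < ε) :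
    ∃ c : ℝ, 0 < c ∧ ∀ 𝔫 : Ideal (𝓞 K), 𝔫 ≠ ⊥ → ∃ S : Finset (I → 𝓞 K), (∀ s ∈ S, ∀ i, s i ≠ 0 ∧ Ideal.span {s i} ⊔ 𝔫 = ⊤) ∧
      (∀ s ∈ S, ∀ s' ∈ S, (∀ k, (∏ i, s i ^ (p k i).toNat * s' i ^ (-p k i).toNat) - (∏ i, s' i ^ (p k i).toNat * s i ^ (-p k i).toNat) ∈ 𝔫) → s = s') ∧
      c * (Ideal.absNorm 𝔫 : ℝ) ^ ((r : ℝ) - ε) ≤ S.card := by
  classical
  set m : ℕ := (Matrix.of fun a c : Fin r => p (g a) (f c)).det.natAbs with hm
  have hm1 : 1 ≤ m := Nat.one_le_iff_ne_zero.2 (Int.natAbs_ne_zero.2 hd)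
  obtain ⟨c, hc, h⟩ := pow_classesm K hm1 (ε / (r + 1)) (by positivity)
  refine ⟨c ^ r, pow_pos hc _, fun 𝔫 hn => ?_⟩
  obtain ⟨S, hS, hS', hcard⟩ := h 𝔫 hn
  have hun : ∀ s : {x // x ∈ S}, ∃ x : (𝓞 K ⧸ 𝔫)ˣ, (x : 𝓞 K ⧸ 𝔫) = Ideal.Quotient.mk 𝔫 s.1 := fun s => v1_unit (hS s.1 s.2).2
  choose un hun using hun
  have hU : ∀ t : Fin r → {x // x ∈ S}, ∃ U : I → (𝓞 K ⧸ 𝔫)ˣ, ∀ a, ∏ i, U i ^ p (g a) i = un (t a) ^ (Matrix.of fun a c : Fin r => p (g a) (f c)).det := fun t => v1_group g f p fun a => un (t a)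
  choose U hU using hU
  choose rep hr0 hr1 hr2 using fun x : (𝓞 K ⧸ 𝔫)ˣ => v1_rep hn x
  have key : ∀ t t' : Fin r → {x // x ∈ S}, (∀ k, (∏ i, rep (U t i) ^ (p k i).toNat * rep (U t' i) ^ (-p k i).toNat) - (∏ i, rep (U t' i) ^ (p k i).toNat * rep (U t i) ^ (-p k i).toNat) ∈ 𝔫) → t = t' := by
    intro t t' ht
    funext a
    have h1 := (Ideal.Quotient.mk_eq_mk_iff_sub_mem _ _).2 (ht (g a))
    rw [map_prod, map_prod] at h1
    simp only [map_mul, map_pow, hr2] at h1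
    have h2 : (∏ i, U t i ^ (p (g a) i).toNat * U t' i ^ (-p (g a) i).toNat) = ∏ i, U t' i ^ (p (g a) i).toNat * U t i ^ (-p (g a) i).toNat := by
      apply Units.ext
      rw [Units.coe_prod, Units.coe_prod]
      simp only [Units.val_mul, Units.val_pow_eq_pow_val]
      exact h1
    have h3 := v1_prod (U t) (U t') (p (g a)) h2
    rw [hU, hU] at h3
    have h4 : un (t a) ^ m = un (t' a) ^ m := by
      rcases Int.natAbs_eq (Matrix.of fun a c : Fin r => p (g a) (f c)).det with h5 | h5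
      · rw [h5, zpow_natCast, zpow_natCast] at h3
        exact h3
      · rw [h5, zpow_neg, zpow_neg, zpow_natCast, zpow_natCast, inv_inj] at h3
        exact h3
    by_contra hne
    refine hS' (t a).1 (t a).2 (t' a).1 (t' a).2 (fun h => hne (Subtype.ext h)) ?_
    refine (Ideal.Quotient.mk_eq_mk_iff_sub_mem _ _).1 ?_
    rw [map_pow, map_pow, ← hun, ← hun, ← Units.val_pow_eq_pow_val, ← Units.val_pow_eq_pow_val, h4]
  refine ⟨Finset.univ.image fun t : Fin r → {x // x ∈ S} => fun i => rep (U t i), ?_, ?_, ?_⟩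
  · intro s hs i
    obtain ⟨t, -, rfl⟩ := Finset.mem_image.1 hs
    exact ⟨hr0 _, hr1 _⟩
  · intro s hs s' hs' h
    obtain ⟨t, -, rfl⟩ := Finset.mem_image.1 hs
    obtain ⟨t', -, rfl⟩ := Finset.mem_image.1 hs'
    rw [key t t' h]
  · rw [Finset.card_image_of_injective, Finset.card_univ, Fintype.card_fun, Fintype.card_fin, Fintype.card_coe]
    · have hN : (1 : ℝ) ≤ (Ideal.absNorm 𝔫 : ℝ) := by
        have h1 : Ideal.absNorm 𝔫 ≠ 0 := fun h => hn (Ideal.absNorm_eq_zero_iff.1 h)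
        exact_mod_cast Nat.one_le_iff_ne_zero.2 h1
      have hN0 : (0 : ℝ) < (Ideal.absNorm 𝔫 : ℝ) := by linarith
      have h1 : c ^ r * (Ideal.absNorm 𝔫 : ℝ) ^ ((r : ℝ) - ε) ≤ (c * (Ideal.absNorm 𝔫 : ℝ) ^ (1 - ε / (r + 1))) ^ r := by
        rw [mul_pow, ← Real.rpow_natCast ((Ideal.absNorm 𝔫 : ℝ) ^ (1 - ε / (r + 1))), ← Real.rpow_mul hN0.le]
        refine mul_le_mul_of_nonneg_left (Real.rpow_le_rpow_of_exponent_le hN ?_) (pow_nonneg hc.le _)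
        have h2 : (r : ℝ) * (ε / (r + 1)) ≤ ε := by
          have h3 : (0 : ℝ) ≤ r := Nat.cast_nonneg _
          rw [← mul_div_assoc, div_le_iff₀ (by positivity)]
          nlinarith
        nlinarith
      refine h1.trans ?_
      push_cast
      exact pow_le_pow_left₀ (by positivity) hcard r
    · intro t t' htt
      refine key t t' fun k => ?_
      have h1 : ∀ i, rep (U t i) = rep (U t' i) := fun i => congrFun htt i
      simp only [h1, sub_self]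
      exact 𝔫.zero_mem

/-- **Tuples with incongruent monomials**: the vectors `(∏_i s_i ^ (p_ki))_k` are pairwise incongruent at the places which divide `𝔫`. -/
theorem tuples {κ I : Type} [Fintype I] [DecidableEq I] {r : ℕ} (g : Fin r → κ) (f : Fin r → I) (p : κ → I → ℤ) (hd : (Matrix.of fun a c : Fin r => p (g a) (f c)).det ≠ 0) {ε : ℝ} (hε : 0 < ε) :
    ∃ c : ℝ, 0 < c ∧ ∀ 𝔫 : Ideal (𝓞 K), 𝔫 ≠ ⊥ → ∃ S : Finset (I → 𝓞 K), (∀ s ∈ S, ∀ i, s i ≠ 0 ∧ Ideal.span {s i} ⊔ 𝔫 = ⊤) ∧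
      (∀ s ∈ S, ∀ s' ∈ S, (∀ k, ∀ v : HeightOneSpectrum (𝓞 K), aI v 𝔫 ≠ 1 → av v ((∏ i, (s i : K) ^ p k i) / (∏ i, (s' i : K) ^ p k i) - 1) ≤ aI v 𝔫) → s = s') ∧
      c * (Ideal.absNorm 𝔫 : ℝ) ^ ((r : ℝ) - ε) ≤ S.card := by
  obtain ⟨c, hc, h⟩ := tuples_alg K g f p hd hε
  refine ⟨c, hc, fun 𝔫 hn => ?_⟩
  obtain ⟨S, hS, hS', hcard⟩ := h 𝔫 hn
  refine ⟨S, hS, fun s hs s' hs' hk => hS' s hs s' hs' fun k => ?_, hcard⟩
  refine r1_mem hn fun v hv => ?_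
  have h1 := hk k v hv
  have u1 : ∀ i, av v ((s i : 𝓞 K) : K) = 1 := fun i => r1_unit hn hv (hS s hs i).2
  have u2 : ∀ i, av v ((s' i : 𝓞 K) : K) = 1 := fun i => r1_unit hn hv (hS s' hs' i).2
  have n1 : ∀ i, ((s i : 𝓞 K) : K) ≠ 0 := fun i => by exact_mod_cast (hS s hs i).1
  have n2 : ∀ i, ((s' i : 𝓞 K) : K) ≠ 0 := fun i => by exact_mod_cast (hS s' hs' i).1
  have z1 : ∀ (x : K) (z : ℤ), x ≠ 0 → x ^ z = x ^ z.toNat / x ^ (-z).toNat := by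
    intro x z hx
    rcases le_total 0 z with h | h
    · obtain ⟨n, rfl⟩ := Int.eq_ofNat_of_zero_le h
      simp
    · obtain ⟨n, hn⟩ := Int.eq_ofNat_of_zero_le (Int.neg_nonneg.2 h)
      have h1 : z = -(n : ℤ) := by omega
      subst h1
      simp
  have e1 : ∏ i, ((s i : 𝓞 K) : K) ^ p k i = (∏ i, ((s i : 𝓞 K) : K) ^ (p k i).toNat) / ∏ i, ((s i : 𝓞 K) : K) ^ (-p k i).toNat := by
    rw [← Finset.prod_div_distrib]
    exact Finset.prod_congr rfl fun i _ => z1 _ _ (n1 i)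
  have e2 : ∏ i, ((s' i : 𝓞 K) : K) ^ p k i = (∏ i, ((s' i : 𝓞 K) : K) ^ (p k i).toNat) / ∏ i, ((s' i : 𝓞 K) : K) ^ (-p k i).toNat := by
    rw [← Finset.prod_div_distrib]
    exact Finset.prod_congr rfl fun i _ => z1 _ _ (n2 i)
  rw [e1, e2] at h1
  have a1 : (∏ i, ((s i : 𝓞 K) : K) ^ (-p k i).toNat) ≠ 0 := Finset.prod_ne_zero_iff.2 fun i _ => pow_ne_zero _ (n1 i)
  have a2 : (∏ i, ((s' i : 𝓞 K) : K) ^ (p k i).toNat) ≠ 0 := Finset.prod_ne_zero_iff.2 fun i _ => pow_ne_zero _ (n2 i)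
  have a3 : (∏ i, ((s' i : 𝓞 K) : K) ^ (-p k i).toNat) ≠ 0 := Finset.prod_ne_zero_iff.2 fun i _ => pow_ne_zero _ (n2 i)
  have b1 : av v (∏ i, ((s i : 𝓞 K) : K) ^ (-p k i).toNat) = 1 := by
    rw [map_prod]
    exact Finset.prod_eq_one fun i _ => by rw [map_pow, u1, one_pow]
  have b2 : av v (∏ i, ((s' i : 𝓞 K) : K) ^ (p k i).toNat) = 1 := by
    rw [map_prod]
    exact Finset.prod_eq_one fun i _ => by rw [map_pow, u2, one_pow]
  push_cast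
  rw [Finset.prod_mul_distrib, Finset.prod_mul_distrib]
  have e3 : (∏ i, ((s i : 𝓞 K) : K) ^ (p k i).toNat) * (∏ i, ((s' i : 𝓞 K) : K) ^ (-p k i).toNat) - (∏ i, ((s' i : 𝓞 K) : K) ^ (p k i).toNat) * (∏ i, ((s i : 𝓞 K) : K) ^ (-p k i).toNat) =
      (∏ i, ((s i : 𝓞 K) : K) ^ (-p k i).toNat) * (∏ i, ((s' i : 𝓞 K) : K) ^ (p k i).toNat) *
      ((∏ i, ((s i : 𝓞 K) : K) ^ (p k i).toNat) / (∏ i, ((s i : 𝓞 K) : K) ^ (-p k i).toNat) / ((∏ i, ((s' i : 𝓞 K) : K) ^ (p k i).toNat) / ∏ i, ((s' i : 𝓞 K) : K) ^ (-p k i).toNat) - 1) := by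
    field_simp
  rw [e3, map_mul, map_mul, b1, b2, one_mul, one_mul]
  exact h1

end

end Pool.Agent.Lib.L8.F2
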